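import Pool.Agent.Helper76K9.CL.Stm
import Pool.Agent.W358.Kant

/-!
# Displacement convexity for a good cost: assembly
-/

set_option autoImplicit false

open MeasureTheory Set Filter Topology Metric
open scoped ENNReal NNReal

namespace Pool.Agent.Helper76K9.CL

theorem mid_zero : mid 0 = Prod.fst := by
  funext p; simp [mid]

theorem mid_one : mid 1 = Prod.snd := by
  funext p; simp [mid]

theorem continuous_mid (t : ℝ) : Continuous (mid t) := by
  unfold mid; fun_prop

theorem mid_lem (t : ℝ) (x y : V) : mid t (x, y) - t • (y - x) = x ∧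
    mid t (x, y) + (1 - t) • (y - x) = y := by
  unfold mid
  constructor
  · simp only [sub_smul, one_smul, smul_sub]; abel
  · simp only [sub_smul, one_smul, smul_sub]; abel

theorem coupling_prob {X : Type*} [MetricSpace X] [MeasurableSpace X] {μ ν : Measure X}
    [IsProbabilityMeasure μ] {q : Measure (X × X)} (h : IsCoupling μ ν q) :
    IsProbabilityMeasure q := by
  have h1 : IsProbabilityMeasure (q.map Prod.fst) := by rw [h.1]; infer_instance
  exact (Measure.isProbabilityMeasure_map_iff measurable_fst.aemeasurable).1 h1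

section Sub

variable {K : Set V}

theorem memb_val (hK : MeasurableSet K) : MeasurableEmbedding (Subtype.val : K → V) :=
  MeasurableEmbedding.subtype_coe hK

theorem map_comap_val (hK : MeasurableSet K) {μ : Measure V} (h : μ Kᶜ = 0) :
    (μ.comap (Subtype.val : K → V)).map Subtype.val = μ := by
  rw [(memb_val hK).map_comap, Subtype.range_coe, Measure.restrict_eq_self_of_ae_mem]
  rw [ae_iff]
  exact h

theorem memb_prod (hK : MeasurableSet K) :
    MeasurableEmbedding (Prod.map (Subtype.val : K → V) (Subtype.val : K → V)) :=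
  (memb_val hK).prodMap (memb_val hK)

theorem range_prod : range (Prod.map (Subtype.val : K → V) (Subtype.val : K → V)) = K ×ˢ K := by
  rw [range_prodMap, Subtype.range_coe]

theorem coupling_conc (hK : MeasurableSet K) {μ ν : Measure V} {q : Measure (V × V)}
    (h : IsCoupling μ ν q) (h0 : μ Kᶜ = 0) (h1 : ν Kᶜ = 0) : q (K ×ˢ K)ᶜ = 0 := by
  have e0 : q (Prod.fst ⁻¹' Kᶜ) = 0 := by
    rw [← Measure.map_apply measurable_fst hK.compl, h.1, h0]
  have e1 : q (Prod.snd ⁻¹' Kᶜ) = 0 := by
    rw [← Measure.map_apply measurable_snd hK.compl, h.2, h1]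
  refine measure_mono_null ?_ (measure_union_null e0 e1)
  intro p hp
  simp only [mem_compl_iff, mem_prod, not_and_or] at hp
  exact hp

theorem map_comap_prod (hK : MeasurableSet K) {q : Measure (V × V)} (h : q (K ×ˢ K)ᶜ = 0) :
    (q.comap (Prod.map (Subtype.val : K → V) (Subtype.val : K → V))).map
      (Prod.map Subtype.val Subtype.val) = q := by
  rw [(memb_prod hK).map_comap, range_prod, Measure.restrict_eq_self_of_ae_mem]
  rw [ae_iff]
  exact h

theorem comap_coupling (hK : MeasurableSet K) {μ ν : Measure V} {q : Measure (V × V)}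
    (h : IsCoupling μ ν q) (h0 : μ Kᶜ = 0) (h1 : ν Kᶜ = 0) :
    (q.comap (Prod.map (Subtype.val : K → V) (Subtype.val : K → V))).map Prod.fst =
      μ.comap Subtype.val ∧
    (q.comap (Prod.map (Subtype.val : K → V) (Subtype.val : K → V))).map Prod.snd =
      ν.comap Subtype.val := by
  have hq := map_comap_prod hK (coupling_conc hK h h0 h1)
  set q' := q.comap (Prod.map (Subtype.val : K → V) (Subtype.val : K → V))
  constructor
  · have e : (q'.map Prod.fst).map Subtype.val = μ := by
      rw [Measure.map_map measurable_subtype_coe measurable_fst, ← h.1, ← hq,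
        Measure.map_map measurable_fst (memb_prod hK).measurable]
      rfl
    rw [← e, (memb_val hK).comap_map]
  · have e : (q'.map Prod.snd).map Subtype.val = ν := by
      rw [Measure.map_map measurable_subtype_coe measurable_snd, ← h.2, ← hq,
        Measure.map_map measurable_snd (memb_prod hK).measurable]
      rfl
    rw [← e, (memb_val hK).comap_map]

end Sub

theorem null_image {S : V → V} {L : ℝ≥0} (hS : LipschitzWith L S) {K : Set V}
    (hK : volume K = 0) : volume (S '' K) = 0 := by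
  have h := hS.hausdorffMeasure_image_le (d := (Fintype.card (Fin 3) : ℝ)) (by positivity) K
  rw [hausdorffMeasure_pi_real, hK, mul_zero] at h
  exact le_antisymm h bot_le

theorem cdv (hPOS : S_POS) (hHL : S_HL) (hSO : S_SO) (hDET : S_DET) (hK14 : S_K14V) : S_CDV := by
  intro h hh R hR μ₀ μ₁ hp₀ hp₁ hac₀ hac₁ hs₀ hs₁
  set K : Set V := closedBall 0 R with hKdef
  have hKm : MeasurableSet K := measurableSet_closedBall
  have : CompactSpace K := isCompact_iff_compactSpace.1 (isCompact_closedBall 0 R)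
  set κ₀ : Measure K := μ₀.comap Subtype.val with hκ₀
  set κ₁ : Measure K := μ₁.comap Subtype.val with hκ₁
  have hm₀ : κ₀.map Subtype.val = μ₀ := map_comap_val hKm hs₀
  have hm₁ : κ₁.map Subtype.val = μ₁ := map_comap_val hKm hs₁
  have hκp₀ : IsProbabilityMeasure κ₀ := by
    rw [← hm₀] at hp₀
    exact (Measure.isProbabilityMeasure_map_iff measurable_subtype_coe.aemeasurable).1 hp₀
  have hκp₁ : IsProbabilityMeasure κ₁ := by
    rw [← hm₁] at hp₁
    exact (Measure.isProbabilityMeasure_map_iff measurable_subtype_coe.aemeasurable).1 hp₁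
  have hhc : Continuous h := hh.smooth.continuous
  have hc : Continuous (fun p : K × K => h (p.2.1 - p.1.1)) :=
    hhc.comp ((continuous_subtype_val.comp continuous_snd).sub
      (continuous_subtype_val.comp continuous_fst))
  obtain ⟨qK, hq1, hq2, φ, ψ, hφ, hψ, hle, heq⟩ :=
    Pool.Agent.W358.Kant.K1 K (fun p => h (p.2.1 - p.1.1)) hc κ₀ κ₁ hκp₀ hκp₁
  set ι : K × K → V × V := Prod.map Subtype.val Subtype.val with hι
  have hιm : Measurable ι := (memb_prod hKm).measurable
  have hqKp : IsProbabilityMeasure qK := coupling_prob (μ := κ₀) (ν := κ₁) ⟨hq1, hq2⟩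
  have hcoup : IsCoupling μ₀ μ₁ (qK.map ι) := by
    constructor
    · rw [Measure.map_map measurable_fst hιm, ← hm₀, ← hq1,
        Measure.map_map measurable_subtype_coe measurable_fst]
      rfl
    · rw [Measure.map_map measurable_snd hιm, ← hm₁, ← hq2,
        Measure.map_map measurable_subtype_coe measurable_snd]
      rfl
  refine ⟨qK.map ι, hcoup, ?_, ?_⟩
  · -- optimality
    intro q' hq'
    have hint : ∀ (r : Measure (K × K)) [IsProbabilityMeasure r] (g : K × K → ℝ),
        Continuous g → Integrable g r := fun r _ g hg => hg.integrable_of_hasCompactSupport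
          (HasCompactSupport.of_compactSpace g)
    have hconc := coupling_conc hKm hq' hs₀ hs₁
    obtain ⟨c1, c2⟩ := comap_coupling hKm hq' hs₀ hs₁
    have hmm := map_comap_prod hKm hconc
    set r : Measure (K × K) := q'.comap (Prod.map Subtype.val Subtype.val) with hr
    have hrp : IsProbabilityMeasure r := coupling_prob (μ := κ₀) (ν := κ₁) ⟨c1, c2⟩
    have hval : ∀ s : Measure (K × K), ∫ p, h (p.2 - p.1) ∂(s.map ι) =
        ∫ p, h (p.2.1 - p.1.1) ∂s := by
      intro s
      rw [(memb_prod hKm).integral_map]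
      rfl
    have hsum : ∀ s : Measure (K × K), IsProbabilityMeasure s → s.map Prod.fst = κ₀ →
        s.map Prod.snd = κ₁ → ∫ p, (φ p.1 + ψ p.2) ∂s = ∫ x, φ x ∂κ₀ + ∫ x, ψ x ∂κ₁ := by
      intro s hs e1 e2
      have hf1 : Integrable (fun p : K × K => φ p.1) s := hint s _ (hφ.comp continuous_fst)
      have hg1 : Integrable (fun p : K × K => ψ p.2) s := hint s _ (hψ.comp continuous_snd)
      rw [integral_add hf1 hg1, ← e1, ← e2,
        integral_map measurable_fst.aemeasurable hφ.aestronglyMeasurable,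
        integral_map measurable_snd.aemeasurable hψ.aestronglyMeasurable]
    have hfin : ∫ p, h (p.2 - p.1) ∂q' = ∫ p, h (p.2.1 - p.1.1) ∂r := by
      rw [← hval r, hι, hr, hmm]
    rw [hval, hfin]
    have h3 : ∫ p, h (p.2.1 - p.1.1) ∂qK = ∫ p, (φ p.1 + ψ p.2) ∂qK :=
      integral_congr_ae (heq.mono fun p hp => hp.symm)
    have h4 : ∫ p, (φ p.1 + ψ p.2) ∂r ≤ ∫ p, h (p.2.1 - p.1.1) ∂r :=
      integral_mono (hint r _ ((hφ.comp continuous_fst).add (hψ.comp continuous_snd)))
        (hint r _ hc) (fun p => hle _ _)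
    rw [h3, hsum qK hqKp hq1 hq2, ← hsum r hrp c1 c2]
    exact h4
  · -- the inequality
    rintro t ⟨ht0, ht1⟩ N hN
    rcases eq_or_lt_of_le ht0 with h0 | h0
    · rw [← h0, mid_zero, hcoup.1]
      simp
    rcases eq_or_lt_of_le ht1 with h1 | h1
    · rw [h1, mid_one, hcoup.2]
      simp
    obtain ⟨Z, A, Ξ, L, hZc, hZK, hΞ, hmem, -, hA⟩ := hHL h hh R hR φ ψ hφ hψ hle t h0 h1
    have hso := hSO h hh R t hR h0 h1 Z A Ξ L hZc hZK hΞ hA
    set D : Set V := {z | DifferentiableAt ℝ Ξ z ∧
      (∀ k l, Hs h (Ξ z) (fderiv ℝ Ξ z k) l = Hs h (Ξ z) (fderiv ℝ Ξ z l) k) ∧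
      (∀ k, 0 ≤ Hs h (Ξ z) k k - t * Hs h (Ξ z) (fderiv ℝ Ξ z k) k) ∧
      (∀ k, 0 ≤ Hs h (Ξ z) k k + (1 - t) * Hs h (Ξ z) (fderiv ℝ Ξ z k) k)} with hD
    have hZD : volume (Z \ D) = 0 := by
      rw [ae_iff] at hso
      refine measure_mono_null ?_ hso
      rintro z ⟨hz1, hz2⟩ h3
      exact hz2 (h3 hz1)
    have hlip₀ : ∃ M : ℝ≥0, LipschitzWith M (fun z => z - t • Ξ z) :=
      ⟨_, LipschitzWith.id.sub ((lipschitzWith_smul t).comp hΞ)⟩
    obtain ⟨M, hM⟩ := hlip₀
    have hdet : ∀ s : ℝ, Measurable fun z =>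
        ENNReal.ofReal |(ContinuousLinearMap.id ℝ V + s • fderiv ℝ Ξ z).det| := by
      intro s
      have h5 : Measurable fun z => (ContinuousLinearMap.id ℝ V + s • fderiv ℝ Ξ z) :=
        (measurable_fderiv ℝ Ξ).const_smul s |>.const_add _
      exact ((ContinuousLinearMap.continuous_det.measurable.comp h5).abs).ennreal_ofReal
    have hder : ∀ s : ℝ, ∀ z, DifferentiableAt ℝ Ξ z → HasFDerivAt (fun z => z + s • Ξ z)
        (ContinuousLinearMap.id ℝ V + s • fderiv ℝ Ξ z) z := by
      intro s z hz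
      exact (hasFDerivAt_id z).add (hz.hasFDerivAt.const_smul s)
    have harea : ∀ s : ℝ, ∀ C ⊆ Z ∩ D, IsCompact C → volume ((fun z => z + s • Ξ z) '' C) ≤
        ∫⁻ z in C, ENNReal.ofReal |(ContinuousLinearMap.id ℝ V + s • fderiv ℝ Ξ z).det| := by
      intro s C hC hCc
      exact addHaar_image_le_lintegral_abs_det_fderiv volume hCc.measurableSet
        (fun z hz => (hder s z (hC hz).2.1).hasFDerivWithinAt)
    have hS₀ : (fun z => z - t • Ξ z) = fun z => z + (-t) • Ξ z := by
      funext z; rw [neg_smul, sub_eq_add_neg]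
    have hcS : ∀ s : ℝ, Continuous fun z => z + s • Ξ z := by
      intro s
      have := hΞ.continuous
      fun_prop
    refine hK14 μ₀ μ₁ hp₀ hp₁ hac₀ hac₁ (qK.map ι) hcoup (mid t) (continuous_mid t).measurable
      Z D hZc hZD (fun z => z + (-t) • Ξ z) (fun z => z + (1 - t) • Ξ z)
      (hcS _) (hcS _) ?_
      (fun z => ENNReal.ofReal |(ContinuousLinearMap.id ℝ V + (-t) • fderiv ℝ Ξ z).det|)
      (fun z => ENNReal.ofReal |(ContinuousLinearMap.id ℝ V + (1 - t) • fderiv ℝ Ξ z).det|)
      (hdet _) (hdet _) (fun _ => ENNReal.ofReal_ne_top) (fun _ => ENNReal.ofReal_ne_top)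
      (harea _) (harea _) ?_ (ENNReal.ofReal (1 - t)) (ENNReal.ofReal t) N (by linarith) ?_
    · rw [(memb_prod hKm).ae_map_iff]
      filter_upwards [heq] with p hp
      obtain ⟨h6, h7⟩ := hmem p.1 p.2 hp
      have h8 := mid_lem t p.1.1 p.2.1
      show mid t (p.1.1, p.2.1) ∈ Z ∧ mid t (p.1.1, p.2.1) + (-t) • Ξ (mid t (p.1.1, p.2.1)) = p.1.1 ∧
        mid t (p.1.1, p.2.1) + (1 - t) • Ξ (mid t (p.1.1, p.2.1)) = p.2.1
      rw [h7, neg_smul, ← sub_eq_add_neg]
      exact ⟨h6, h8.1, h8.2⟩
    · intro C _ _ hC0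
      rw [← hS₀]
      exact null_image hM hC0
    · have hZD' : ∀ᵐ z : V, z ∈ Z → z ∈ D := hso
      filter_upwards [hZD'] with z hz hz1 _ _
      obtain ⟨-, g2, g3, g4⟩ := hz hz1
      obtain ⟨p1, p2⟩ := hPOS h hh (Ξ z)
      have key := hDET (Hs h (Ξ z)) (fderiv ℝ Ξ z) t h0 h1 p1 p2 g2 g3 g4 N hN
      have e1 : (ContinuousLinearMap.id ℝ V + (-t) • fderiv ℝ Ξ z) =
          ContinuousLinearMap.id ℝ V - t • fderiv ℝ Ξ z := by
        ext v i
        simp [sub_eq_add_neg]
      have hN0 : (0 : ℝ) ≤ 1 / N := by positivity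
      rw [e1, ENNReal.ofReal_rpow_of_nonneg (abs_nonneg _) hN0,
        ENNReal.ofReal_rpow_of_nonneg (abs_nonneg _) hN0, ← ENNReal.ofReal_mul (by linarith),
        ← ENNReal.ofReal_mul h0.le, ← ENNReal.ofReal_add, ← ENNReal.ofReal_one]
      · exact ENNReal.ofReal_le_ofReal key
      · exact mul_nonneg (by linarith) (Real.rpow_nonneg (abs_nonneg _) _)
      · exact mul_nonneg h0.le (Real.rpow_nonneg (abs_nonneg _) _)

end Pool.Agent.Helper76K9.CL
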