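import Pool.Agent.Helper76K9.CL.Stm

/-!
# Weak sequential compactness of the probability measures on a compact set
-/

set_option autoImplicit false

open MeasureTheory Set Filter Topology Metric
open scoped ENNReal NNReal

namespace Pool.Agent.Helper76K9.CL

theorem cpt : S_CPT := by
  intro R hR q hq hqK
  set K : Set (V × V) := closedBall 0 R ×ˢ closedBall 0 R with hKd
  have hK : IsCompact K := (isCompact_closedBall _ _).prod (isCompact_closedBall _ _)
  have hKc : CompactSpace K := isCompact_iff_compactSpace.1 hK
  have hKm : MeasurableSet K := hK.isClosed.measurableSet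
  have he : MeasurableEmbedding (Subtype.val : K → V × V) := MeasurableEmbedding.subtype_coe hKm
  have hmc : ∀ k, ((q k).comap (Subtype.val : K → V × V)).map Subtype.val = q k := by
    intro k
    rw [he.map_comap, Subtype.range_coe]
    apply Measure.restrict_eq_self_of_ae_mem
    rw [ae_iff]
    exact hqK k
  have hprob : ∀ k, IsProbabilityMeasure ((q k).comap (Subtype.val : K → V × V)) := by
    intro k
    have := hq k
    refine ⟨?_⟩
    have h1 : (((q k).comap (Subtype.val : K → V × V)).map Subtype.val) univ = 1 := by
      rw [hmc k]
      exact measure_univ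
    rwa [he.map_apply, preimage_univ] at h1
  let m : ℕ → ProbabilityMeasure K := fun k => ⟨(q k).comap (Subtype.val : K → V × V), hprob k⟩
  obtain ⟨p, s, hs, hlim⟩ := CompactSpace.tendsto_subseq m
  rw [ProbabilityMeasure.tendsto_iff_forall_integral_tendsto] at hlim
  refine ⟨(p : Measure K).map Subtype.val, s, ?_, hs, ?_, ?_⟩
  · exact Measure.isProbabilityMeasure_map he.measurable.aemeasurable
  · rw [he.map_apply]
    convert measure_empty (μ := (p : Measure K))
    ext x
    simp
  · intro f hf
    have h1 := hlim (BoundedContinuousFunction.mkOfCompact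
      ⟨fun x : K => f x, hf.comp continuous_subtype_val⟩)
    have e1 : ∀ k, ∫ x, f x ∂(q (s k)) = ∫ x : K, f x ∂((m ∘ s) k : Measure K) := by
      intro k
      conv_lhs => rw [← hmc (s k)]
      rw [he.integral_map]
      rfl
    rw [he.integral_map]
    simp only [e1]
    exact h1

end Pool.Agent.Helper76K9.CL
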