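import Mathlib

/-!
# Metric measure spaces, the condition CD(0,N), lines, and the quotient of `ℝ³` by `v ↦ -v`

Public definitions for the problem MP_c487e3_gt.
-/

set_option autoImplicit false

open MeasureTheory Set Filter Topology Metric
open scoped ENNReal NNReal

namespace Pool.Agent.Helper76K9.CL

section MMS

variable {X : Type*} [MetricSpace X] [MeasurableSpace X]

/-- `q` is a coupling of the measures `μ` and `ν`: its marginals are `μ` and `ν`. -/
def IsCoupling (μ ν : Measure X) (q : Measure (X × X)) : Prop :=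
  q.map Prod.fst = μ ∧ q.map Prod.snd = ν

/-- The quadratic transport cost `∫ d(x,y)² dq(x,y)`. -/
noncomputable def cost (q : Measure (X × X)) : ℝ≥0∞ := ∫⁻ p, edist p.1 p.2 ^ 2 ∂q

/-- The `L²`-Wasserstein distance: the square root of the least cost of a coupling. -/
noncomputable def W2 (μ ν : Measure X) : ℝ≥0∞ :=
  (⨅ (q : Measure (X × X)) (_ : IsCoupling μ ν q), cost q) ^ (1 / 2 : ℝ)

/-- `𝒫₂(X)`: Borel probability measures with finite second moment. -/
def MemP2 (μ : Measure X) : Prop :=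
  IsProbabilityMeasure μ ∧ ∀ x₀ : X, ∫⁻ x, edist x x₀ ^ 2 ∂μ < ∞

/-- `-S_N(μ) = ∫ ρ^{1-1/N} dm`, where `ρ m` is the absolutely continuous part of `μ`: minus the
Rényi entropy. -/
noncomputable def negS (m : Measure X) (N : ℝ) (μ : Measure X) : ℝ≥0∞ :=
  ∫⁻ x, (μ.rnDeriv m x) ^ (1 - 1 / N) ∂m

/-- The condition CD(0,N): any two absolutely continuous measures of `𝒫₂(X)` with bounded support
are joined by a `W₂`-geodesic `(μ_t)` with `S_{N'}(μ_t) ≤ (1-t) S_{N'}(μ₀) + t S_{N'}(μ₁)` for all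
`t ∈ [0,1]` and all `N' ≥ N`. -/
def CD0 (m : Measure X) (N : ℝ) : Prop :=
  ∀ μ₀ μ₁ : Measure X, MemP2 μ₀ → MemP2 μ₁ → μ₀ ≪ m → μ₁ ≪ m →
    (∃ B : Set X, Bornology.IsBounded B ∧ μ₀ Bᶜ = 0) →
    (∃ B : Set X, Bornology.IsBounded B ∧ μ₁ Bᶜ = 0) →
    ∃ μ : ℝ → Measure X, μ 0 = μ₀ ∧ μ 1 = μ₁ ∧ (∀ t ∈ Icc (0 : ℝ) 1, MemP2 (μ t)) ∧
      (∀ s ∈ Icc (0 : ℝ) 1, ∀ t ∈ Icc (0 : ℝ) 1,
        W2 (μ s) (μ t) = ENNReal.ofReal |t - s| * W2 μ₀ μ₁) ∧
      ∀ t ∈ Icc (0 : ℝ) 1, ∀ N' : ℝ, N ≤ N' →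
        ENNReal.ofReal (1 - t) * negS m N' μ₀ + ENNReal.ofReal t * negS m N' μ₁ ≤
          negS m N' (μ t)

/-- `(X,d,m)` is a metric measure space: `(X,d)` is complete, separable, locally compact and
geodesic, `m` is a locally finite Borel measure with `supp m = X`. -/
structure IsMMS (m : Measure X) : Prop where
  borel : BorelSpace X
  complete : CompleteSpace X
  separable : TopologicalSpace.SeparableSpace X
  locallyCompact : LocallyCompactSpace X
  geodesic : ∀ x y : X, ∃ γ : ℝ → X, γ 0 = x ∧ γ 1 = y ∧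
    ∀ s ∈ Icc (0 : ℝ) 1, ∀ t ∈ Icc (0 : ℝ) 1, dist (γ s) (γ t) = |s - t| * dist x y
  locallyFinite : IsLocallyFiniteMeasure m
  support : ∀ (x : X) (r : ℝ), 0 < r → 0 < m (ball x r)

/-- `X` contains a line. -/
def HasLine (X : Type*) [MetricSpace X] : Prop :=
  ∃ γ : ℝ → X, ∀ s t : ℝ, dist (γ s) (γ t) = |s - t|

end MMS

/-- `ℝ³` with the supremum norm `max(|v₀|,|v₁|,|v₂|)` (Mathlib's norm on `Fin 3 → ℝ`). -/
abbrev V : Type := Fin 3 → ℝ

/-- `v ~ w` if `w = v` or `w = -v`. -/
def antipodal : Setoid V where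
  r v w := w = v ∨ w = -v
  iseqv := by
    refine ⟨fun v => Or.inl rfl, ?_, ?_⟩
    · rintro v w (h | h)
      · exact Or.inl h.symm
      · exact Or.inr (by rw [h, neg_neg])
    · rintro u v w (h | h) (h' | h')
      · exact Or.inl (by rw [h', h])
      · exact Or.inr (by rw [h', h])
      · exact Or.inr (by rw [h', h])
      · exact Or.inl (by rw [h', h, neg_neg])

/-- The quotient `ℝ³ / {±1}`. -/
def Q : Type := Quotient antipodal

/-- The projection `ℝ³ → ℝ³ / {±1}`. -/
def pr (v : V) : Q := Quotient.mk antipodal v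

theorem pr_surjective : Function.Surjective pr := Quotient.exists_rep

theorem pr_eq {v w : V} : pr v = pr w ↔ w = v ∨ w = -v :=
  ⟨fun h => Quotient.exact h, fun h => Quotient.sound h⟩

/-- The quotient distance `d([v],[w]) = min(‖v-w‖, ‖v+w‖)`. -/
noncomputable instance : Dist Q where
  dist := Quotient.lift₂ (fun v w : V => min ‖v - w‖ ‖v + w‖) (by
    rintro v w v' w' (h | h) (h' | h')
    · rw [h, h']
    · rw [h, h', sub_neg_eq_add, ← sub_eq_add_neg, min_comm]
    · rw [h, h', ← norm_neg (-v - w), ← norm_neg (-v + w), min_comm]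
      congr 2 <;> abel
    · rw [h, h', ← norm_neg (-v - -w), ← norm_neg (-v + -w)]
      congr 2 <;> abel)

theorem dist_pr (v w : V) : dist (pr v) (pr w) = min ‖v - w‖ ‖v + w‖ := rfl

noncomputable instance : MetricSpace Q where
  dist_self x := by
    obtain ⟨v, rfl⟩ := pr_surjective x
    rw [dist_pr, sub_self, norm_zero]
    exact min_eq_left (norm_nonneg _)
  dist_comm x y := by
    obtain ⟨v, rfl⟩ := pr_surjective x
    obtain ⟨w, rfl⟩ := pr_surjective y
    rw [dist_pr, dist_pr, norm_sub_rev, add_comm]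
  dist_triangle x y z := by
    obtain ⟨u, rfl⟩ := pr_surjective x
    obtain ⟨v, rfl⟩ := pr_surjective y
    obtain ⟨w, rfl⟩ := pr_surjective z
    simp only [dist_pr]
    have h1 : ‖u - w‖ ≤ ‖u - v‖ + ‖v - w‖ := norm_sub_le_norm_sub_add_norm_sub u v w
    have h2 : ‖u + w‖ ≤ ‖u - v‖ + ‖v + w‖ := by
      have := norm_add_le (u - v) (v + w)
      rwa [show u - v + (v + w) = u + w by abel] at this
    have h3 : ‖u + w‖ ≤ ‖u + v‖ + ‖v - w‖ := by
      have := norm_sub_le (u + v) (v - w)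
      rwa [show u + v - (v - w) = u + w by abel] at this
    have h4 : ‖u - w‖ ≤ ‖u + v‖ + ‖v + w‖ := by
      have := norm_sub_le (u + v) (v + w)
      rwa [show u + v - (v + w) = u - w by abel] at this
    rcases min_choice ‖u - v‖ ‖u + v‖ with h | h <;>
      rcases min_choice ‖v - w‖ ‖v + w‖ with h' | h' <;> rw [h, h']
    · exact (min_le_left _ _).trans h1
    · exact (min_le_right _ _).trans h2
    · exact (min_le_right _ _).trans h3
    · exact (min_le_left _ _).trans h4
  eq_of_dist_eq_zero := by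
    intro x y h
    obtain ⟨v, rfl⟩ := pr_surjective x
    obtain ⟨w, rfl⟩ := pr_surjective y
    rw [dist_pr] at h
    rw [pr_eq]
    rcases min_choice ‖v - w‖ ‖v + w‖ with h' | h' <;> rw [h'] at h
    · exact Or.inl (sub_eq_zero.1 (norm_eq_zero.1 h)).symm
    · exact Or.inr (eq_neg_of_add_eq_zero_right (norm_eq_zero.1 h))

noncomputable instance : MeasurableSpace Q := borel Q

instance : BorelSpace Q := ⟨rfl⟩

/-- The image of the Lebesgue measure under the projection `ℝ³ → ℝ³ / {±1}`. -/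
noncomputable def mQ : Measure Q := (volume : Measure V).map pr

end Pool.Agent.Helper76K9.CL
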