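import Pool.Agent.Helper76K9.CL.Stm

/-!
# Density points of closed sets
-/

set_option autoImplicit false

open MeasureTheory Set Filter Topology Metric
open scoped ENNReal NNReal

namespace Pool.Agent.Helper76K9.CL

namespace DenL

lemma vol (a : V) {r : ℝ} (hr : 0 ≤ r) :
    volume (closedBall a r) = ENNReal.ofReal ((2 * r) ^ 3) := by
  rw [Real.volume_pi_closedBall a hr]
  simp

lemma of_density (Z : Set V) (z : V) (hz : z ∈ Z)
    (h : Tendsto (fun r => volume (Z ∩ closedBall z r) / volume (closedBall z r)) (𝓝[>] (0 : ℝ))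
      (𝓝 1)) {ε : ℝ} (hε : 0 < ε) (hε1 : ε ≤ 1) :
    ∀ᶠ w in 𝓝 z, ∃ a ∈ Z, ‖w - a‖ ≤ ε * ‖w - z‖ := by
  set q : ℝ≥0∞ := ENNReal.ofReal ((ε / 2) ^ 3) with hq
  have hq0 : 0 < q := ENNReal.ofReal_pos.2 (by positivity)
  have h1 : Tendsto (fun r => volume (Z ∩ closedBall z r) / volume (closedBall z r) + q)
      (𝓝[>] (0 : ℝ)) (𝓝 (1 + q)) := h.add_const q
  have h2 := h1.eventually (lt_mem_nhds (ENNReal.lt_add_right ENNReal.one_ne_top hq0.ne'))
  rw [eventually_nhdsWithin_iff, Metric.eventually_nhds_iff] at h2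
  obtain ⟨δ, hδ, hδ2⟩ := h2
  filter_upwards [ball_mem_nhds z (show 0 < δ / 2 by positivity)] with w hw
  rw [mem_ball, dist_eq_norm] at hw
  by_contra hcon
  push Not at hcon
  set ρ := ‖w - z‖ with hρ
  have hρ0 : 0 < ρ := by
    rcases (norm_nonneg (w - z)).eq_or_lt with h0 | h0
    · have h3 := hcon z hz
      rw [← hρ] at h3 h0
      rw [← h0, mul_zero] at h3
      exact absurd h3 (lt_irrefl _)
    · exact h0
  have h3 := hδ2 (y := 2 * ρ) (by
    rw [dist_zero_right, Real.norm_of_nonneg (by positivity)]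
    linarith) (show (0 : ℝ) < 2 * ρ by positivity)
  refine absurd h3 (not_lt.2 ?_)
  have hB : volume (closedBall z (2 * ρ)) = ENNReal.ofReal ((2 * (2 * ρ)) ^ 3) :=
    vol z (by positivity)
  have hB0 : volume (closedBall z (2 * ρ)) ≠ 0 := by
    rw [hB, Ne, ENNReal.ofReal_eq_zero, not_le]
    positivity
  have hBt : volume (closedBall z (2 * ρ)) ≠ ⊤ := by
    rw [hB]
    exact ENNReal.ofReal_ne_top
  have hw2 : volume (closedBall w (ε * ρ)) = q * volume (closedBall z (2 * ρ)) := by
    rw [hB, vol w (by positivity), hq, ← ENNReal.ofReal_mul (by positivity)]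
    congr 1
    ring
  have hdisj : Disjoint (Z ∩ closedBall z (2 * ρ)) (closedBall w (ε * ρ)) := by
    rw [Set.disjoint_left]
    rintro a ⟨ha, -⟩ ha2
    rw [mem_closedBall, dist_comm, dist_eq_norm] at ha2
    exact absurd ha2 (not_le.2 (hcon a ha))
  have hsub : (Z ∩ closedBall z (2 * ρ)) ∪ closedBall w (ε * ρ) ⊆ closedBall z (2 * ρ) := by
    refine union_subset inter_subset_right (closedBall_subset_closedBall' ?_)
    rw [dist_eq_norm, ← hρ]
    nlinarith
  have h4 : volume (Z ∩ closedBall z (2 * ρ)) + q * volume (closedBall z (2 * ρ)) ≤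
      volume (closedBall z (2 * ρ)) := by
    rw [← hw2, ← measure_union hdisj isClosed_closedBall.measurableSet]
    exact measure_mono hsub
  have h5 : volume (Z ∩ closedBall z (2 * ρ)) / volume (closedBall z (2 * ρ)) + q =
      (volume (Z ∩ closedBall z (2 * ρ)) + q * volume (closedBall z (2 * ρ))) /
        volume (closedBall z (2 * ρ)) := by
    rw [ENNReal.add_div, mul_div_assoc, ENNReal.div_self hB0 hBt, mul_one]
  rw [h5]
  exact ENNReal.div_le_of_le_mul (by rwa [one_mul])

end DenL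

open DenL in
theorem den : S_DEN := by
  intro Z hZ
  rw [← ae_restrict_iff' hZ.measurableSet]
  filter_upwards [Besicovitch.ae_tendsto_measure_inter_div (volume : Measure V) Z,
    ae_restrict_mem hZ.measurableSet] with z hz hzZ
  intro ε hε
  filter_upwards [of_density Z z hzZ hz (ε := min ε 1) (lt_min hε one_pos) (min_le_right _ _)]
    with w hw
  obtain ⟨a, ha, hwa⟩ := hw
  exact ⟨a, ha, hwa.trans (mul_le_mul_of_nonneg_right (min_le_left _ _) (norm_nonneg _))⟩

end Pool.Agent.Helper76K9.CL
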