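import Pool.Agent.Helper76K9.CL.Met

/-! # Descent of even functions to the quotient, symmetric lifts (LIFT), the Rényi functional (ENT) -/

set_option autoImplicit false

open MeasureTheory Set Filter Topology Metric
open scoped ENNReal NNReal

namespace Pool.Agent.Helper76K9.CL

namespace DescL

open LftL MetL

theorem secondCountable : SecondCountableTopology Q := by
  have : TopologicalSpace.SeparableSpace Q := met.1.separable
  exact UniformSpace.secondCountable_of_separable Q

instance : SecondCountableTopology Q := secondCountable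

instance : IsLocallyFiniteMeasure mQ := met.1.locallyFinite

instance : SigmaFinite mQ := inferInstance

theorem meas_iff {β : Type*} [MeasurableSpace β] {g : Q → β} :
    Measurable (fun v => g (pr v)) ↔ Measurable g :=
  meas_pr.measurable_comp_iff_of_surjective pr_surjective

/-- even measurable functions descend -/
theorem desc {β : Type*} [MeasurableSpace β] (f : V → β) (hf : Measurable f)
    (he : ∀ v, f (-v) = f v) : ∃ g : Q → β, Measurable g ∧ ∀ v, g (pr v) = f v := by
  have hl : ∀ v w : V, antipodal.r v w → f v = f w := by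
    rintro v w (h | h)
    · rw [h]
    · rw [h, he]
  exact ⟨fun x => Quotient.lift f hl x, meas_iff.1 hf, fun v => rfl⟩

theorem lint_pr {g : Q → ℝ≥0∞} (hg : Measurable g) : ∫⁻ x, g x ∂mQ = ∫⁻ v : V, g (pr v) := by
  unfold mQ
  rw [lintegral_map hg meas_pr]

theorem vol_neg : (volume : Measure V).map (fun v => -v) = volume :=
  Measure.map_neg_eq_self volume

theorem lint_neg {f : V → ℝ≥0∞} (hf : Measurable f) : ∫⁻ v : V, f (-v) = ∫⁻ v : V, f v := by
  conv_rhs => rw [← vol_neg]
  rw [lintegral_map hf measurable_neg]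

/-- the image of a measure with density `ρ ∘ pr` -/
theorem map_withDensity {g : Q → ℝ≥0∞} (hg : Measurable g) :
    ((volume : Measure V).withDensity fun v => g (pr v)).map pr = mQ.withDensity g := by
  ext s hs
  rw [Measure.map_apply meas_pr hs, withDensity_apply _ (meas_pr hs), withDensity_apply _ hs]
  unfold mQ
  rw [setLIntegral_map hs hg meas_pr]

theorem neg_withDensity {f : V → ℝ≥0∞} (hf : Measurable f) :
    ((volume : Measure V).withDensity f).map (fun v => -v) =
      (volume : Measure V).withDensity (fun v => f (-v)) := by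
  ext s hs
  rw [Measure.map_apply measurable_neg hs, withDensity_apply _ (measurable_neg hs),
    withDensity_apply _ hs]
  conv_rhs => rw [← vol_neg]
  rw [setLIntegral_map (f := fun v => f (-v)) (g := fun v : V => -v) hs (hf.comp measurable_neg)
    measurable_neg]
  simp

end DescL

open DescL LftL MetL

theorem lift : S_LIFT := by
  intro μ hμ hac hB
  set ρ : Q → ℝ≥0∞ := μ.rnDeriv mQ with hρ
  have hρm : Measurable ρ := Measure.measurable_rnDeriv _ _
  have hμρ : mQ.withDensity ρ = μ := Measure.withDensity_rnDeriv_eq μ mQ hac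
  have hρpm : Measurable (fun v : V => ρ (pr v)) := hρm.comp meas_pr
  set ν : Measure V := (volume : Measure V).withDensity (fun v => ρ (pr v)) with hν
  have hmap : ν.map pr = μ := by rw [hν, map_withDensity hρm, hμρ]
  have hp : IsProbabilityMeasure ν := by
    have : IsProbabilityMeasure (ν.map pr) := by rw [hmap]; exact hμ
    exact (Measure.isProbabilityMeasure_map_iff meas_pr.aemeasurable).1 this
  refine ⟨ν, hp, withDensity_absolutelyContinuous _ _, ?_, hmap, ?_, ?_⟩
  · rw [hν, neg_withDensity hρpm]
    simp only [pr_neg]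
  · obtain ⟨B, hBb, hB0⟩ := hB
    obtain ⟨r, hr⟩ := hBb.subset_closedBall (pr 0)
    refine ⟨max r 1, lt_max_of_lt_right one_pos, fun R' hR' => ?_⟩
    have h1 : (closedBall (0 : V) R')ᶜ ⊆ pr ⁻¹' (closedBall (pr 0) r)ᶜ := by
      intro v hv hv'
      apply hv
      rw [mem_closedBall_zero_iff, ← norm_rep v]
      exact (mem_closedBall.1 hv').trans ((le_max_left _ _).trans hR')
    refine measure_mono_null h1 ?_
    rw [← Measure.map_apply meas_pr measurableSet_closedBall.compl, hmap]
    exact measure_mono_null (compl_subset_compl.2 hr) hB0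
  · intro N _
    unfold negS
    rw [lint_pr (hρm.pow_const _)]
    apply lintegral_congr_ae
    filter_upwards [Measure.rnDeriv_withDensity (volume : Measure V) hρpm] with v hv
    rw [hv]

theorem ent : S_ENT := by
  intro μ hμ N hN
  set a : ℝ := 1 - 1 / N with ha
  have hN0 : 0 < N := by linarith
  have ha0 : 0 < a := by
    rw [ha, sub_pos, div_lt_one hN0]
    exact hN
  have ha1 : a ≤ 1 := by
    rw [ha]
    have : 0 < 1 / N := by positivity
    linarith
  set ρ : V → ℝ≥0∞ := μ.rnDeriv volume with hρ
  have hρm : Measurable ρ := Measure.measurable_rnDeriv _ _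
  set ρ' : V → ℝ≥0∞ := fun v => 2⁻¹ * ρ v + 2⁻¹ * ρ (-v) with hρ'
  have hρnm : Measurable (fun v => ρ (-v)) := hρm.comp measurable_neg
  have hρ'm : Measurable ρ' := (hρm.const_mul _).add (hρnm.const_mul _)
  obtain ⟨τ, hτ, hτρ⟩ := desc ρ' hρ'm (fun v => by
    simp only [hρ', neg_neg]
    rw [add_comm])
  set σ : Q → ℝ≥0∞ := (μ.map pr).rnDeriv mQ with hσ
  have hσm : Measurable σ := Measure.measurable_rnDeriv _ _
  have hhalf : (2⁻¹ : ℝ≥0∞) + 2⁻¹ = 1 := ENNReal.inv_two_add_inv_two
  -- the image of the absolutely continuous part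
  have hκ : ((volume : Measure V).withDensity ρ).map pr = mQ.withDensity τ := by
    rw [← map_withDensity hτ]
    simp only [hτρ]
    ext s hs
    rw [Measure.map_apply meas_pr hs, Measure.map_apply meas_pr hs,
      withDensity_apply _ (meas_pr hs), withDensity_apply _ (meas_pr hs)]
    simp only [hρ']
    rw [lintegral_add_left (hρm.const_mul _), lintegral_const_mul _ hρm,
      lintegral_const_mul _ hρnm]
    have hsym : ∫⁻ v in pr ⁻¹' s, ρ (-v) = ∫⁻ v in pr ⁻¹' s, ρ v := by
      rw [← lintegral_indicator (meas_pr hs), ← lintegral_indicator (meas_pr hs),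
        ← lint_neg (hρm.indicator (meas_pr hs))]
      apply lintegral_congr
      intro v
      by_cases h : pr v ∈ s
      · rw [indicator_of_mem (show v ∈ pr ⁻¹' s from h),
          indicator_of_mem (show -v ∈ pr ⁻¹' s by rw [mem_preimage, pr_neg]; exact h)]
      · rw [indicator_of_notMem (show v ∉ pr ⁻¹' s from h),
          indicator_of_notMem (show -v ∉ pr ⁻¹' s by rw [mem_preimage, pr_neg]; exact h)]
    rw [hsym, ← add_mul, hhalf, one_mul]
  have hle : mQ.withDensity τ ≤ μ.map pr := by
    rw [← hκ]
    exact Measure.map_mono (Measure.withDensity_rnDeriv_le μ volume) meas_pr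
  -- monotonicity of densities
  have hp : IsProbabilityMeasure (μ.map pr) := Measure.isProbabilityMeasure_map meas_pr.aemeasurable
  have hae : ∀ᵐ x ∂mQ, τ x ≤ σ x := by
    have hdec := Measure.haveLebesgueDecomposition_add (μ.map pr) mQ
    have hsing := Measure.mutuallySingular_singularPart (μ.map pr) mQ
    obtain ⟨S, hS, hS1, hS2⟩ := hsing
    refine ae_le_of_forall_setLIntegral_le_of_sigmaFinite hτ fun A hA _ => ?_
    rw [← withDensity_apply _ hA, ← withDensity_apply _ hA]
    have hac : mQ.withDensity τ ≪ mQ := withDensity_absolutelyContinuous _ _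
    calc mQ.withDensity τ A ≤ mQ.withDensity τ (A ∩ S) + mQ.withDensity τ Sᶜ := by
          refine (measure_mono ?_).trans (measure_union_le _ _)
          intro x hx
          by_cases h : x ∈ S
          · exact Or.inl ⟨hx, h⟩
          · exact Or.inr h
      _ = mQ.withDensity τ (A ∩ S) := by rw [hac hS2, add_zero]
      _ ≤ (μ.map pr) (A ∩ S) := hle _
      _ = (μ.map pr).singularPart mQ (A ∩ S) + mQ.withDensity σ (A ∩ S) := by
          conv_lhs => rw [hdec]
          rfl
      _ = mQ.withDensity σ (A ∩ S) := by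
          rw [measure_mono_null inter_subset_right hS1, zero_add]
      _ ≤ mQ.withDensity σ A := measure_mono inter_subset_left
  -- concavity
  have hconc : ∀ x y : ℝ≥0∞, 2⁻¹ * x ^ a + 2⁻¹ * y ^ a ≤ (2⁻¹ * x + 2⁻¹ * y) ^ a := by
    intro x y
    have h := ENNReal.rpow_arith_mean_le_arith_mean2_rpow 2⁻¹ 2⁻¹ (x ^ a) (y ^ a) hhalf
      (p := 1 / a) (by rw [le_div_iff₀ ha0]; linarith)
    have h2 := ENNReal.rpow_le_rpow h ha0.le
    rw [← ENNReal.rpow_mul, ← ENNReal.rpow_mul, ← ENNReal.rpow_mul, one_div,
      inv_mul_cancel₀ ha0.ne', mul_inv_cancel₀ ha0.ne', ENNReal.rpow_one, ENNReal.rpow_one,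
      ENNReal.rpow_one] at h2
    exact h2
  unfold negS
  calc ∫⁻ v, ρ v ^ a = ∫⁻ v, (2⁻¹ * ρ v ^ a + 2⁻¹ * ρ (-v) ^ a) := by
        rw [lintegral_add_left ((hρm.pow_const _).const_mul _),
          lintegral_const_mul _ (hρm.pow_const _), lintegral_const_mul _ (hρnm.pow_const _),
          lint_neg (f := fun v => ρ v ^ a) (hρm.pow_const _), ← add_mul, hhalf, one_mul]
    _ ≤ ∫⁻ v, ρ' v ^ a := lintegral_mono fun v => hconc _ _
    _ = ∫⁻ x, τ x ^ a ∂mQ := by
        rw [lint_pr (hτ.pow_const _)]
        simp only [hτρ]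
    _ ≤ ∫⁻ x, σ x ^ a ∂mQ := by
        apply lintegral_mono_ae
        filter_upwards [hae] with x hx
        exact ENNReal.rpow_le_rpow hx ha0.le

end Pool.Agent.Helper76K9.CL
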