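import Pool.Agent.Helper76K9.CL.Stm

/-!
# The determinant inequality
-/

set_option autoImplicit false

open MeasureTheory Set Filter Topology Metric
open scoped ENNReal NNReal

namespace Pool.Agent.Helper76K9.CL

namespace DetL

open Matrix

abbrev M3 : Type := Matrix (Fin 3) (Fin 3) ℝ

open scoped MatrixOrder in
lemma exists_root {A : M3} (hA : A.PosDef) : ∃ B : M3, A = Bᵀ * B := by
  obtain ⟨B, hB⟩ := CStarAlgebra.nonneg_iff_eq_star_mul_self.mp hA.posSemidef.nonneg
  exact ⟨B, by rw [hB]; rfl⟩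

lemma amgm {M : M3} (hM : M.PosSemidef) {N : ℝ} (hN : 3 ≤ N) :
    |M.det| ^ (1 / N) ≤ (M.trace + (N - 3)) / N := by
  have hN0 : 0 < N := by linarith
  have h1 := hM.1.det_eq_prod_eigenvalues
  have h2 := hM.1.trace_eq_sum_eigenvalues
  rw [Fin.prod_univ_three] at h1
  rw [Fin.sum_univ_three] at h2
  have n0 := hM.eigenvalues_nonneg 0
  have n1 := hM.eigenvalues_nonneg 1
  have n2 := hM.eigenvalues_nonneg 2
  set a := hM.1.eigenvalues 0
  set b := hM.1.eigenvalues 1
  set c := hM.1.eigenvalues 2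
  have e1 : M.det = a * b * c := h1
  have e2 : M.trace = a + b + c := h2
  have hw : 0 ≤ 1 / N := by positivity
  have hw4 : 0 ≤ (N - 3) / N := div_nonneg (by linarith) hN0.le
  have h3 := Real.geom_mean_le_arith_mean4_weighted hw hw hw hw4 n0 n1 n2
    (zero_le_one (α := ℝ)) (by field_simp; ring)
  rw [Real.one_rpow, mul_one] at h3
  rw [e1, e2, abs_of_nonneg (by positivity), Real.mul_rpow (by positivity) n2,
    Real.mul_rpow n0 n1]
  refine h3.trans (le_of_eq ?_)
  field_simp

/-- the standard basis -/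
def e (i : Fin 3) : V := fun j => if i = j then 1 else 0

lemma bil (H : V →L[ℝ] V →L[ℝ] ℝ) (k l : V) :
    H k l = k ⬝ᵥ ((Matrix.of fun i j => H (e i) (e j)) *ᵥ l) := by
  have h1 : ∀ (f : V →L[ℝ] ℝ) (x : V), f x = ∑ i, x i * f (e i) := fun f x =>
    LinearMap.pi_apply_eq_sum_univ (f : V →ₗ[ℝ] ℝ) x
  have h2 : H k l = ∑ i, k i * H (e i) l := h1 ((ContinuousLinearMap.apply ℝ ℝ l).comp H) k
  rw [h2]
  simp only [dotProduct, mulVec, Matrix.of_apply]
  refine Finset.sum_congr rfl fun i _ => ?_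
  rw [h1 (H (e i)) l]
  congr 1
  exact Finset.sum_congr rfl fun j _ => mul_comm _ _

end DetL

open DetL Matrix in
theorem det : S_DET := by
  intro H E t ht0 ht1 hsym hpos hE h0 h1 N hN
  set A : M3 := Matrix.of fun i j => H (e i) (e j) with hA
  have hb : ∀ k l, H k l = k ⬝ᵥ (A *ᵥ l) := bil H
  have hAs : Aᵀ = A := by
    ext i j
    simp only [hA, Matrix.transpose_apply, Matrix.of_apply]
    exact hsym _ _
  have hAp : A.PosDef := by
    refine Matrix.PosDef.of_dotProduct_mulVec_pos ?_ ?_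
    · rw [Matrix.IsHermitian, Matrix.conjTranspose_eq_transpose_of_trivial]
      exact hAs
    · intro x hx
      rw [star_trivial, ← hb]
      exact hpos x hx
  obtain ⟨B, hB⟩ := exists_root hAp
  have hBdet : B.det ≠ 0 := by
    intro h
    have := hAp.det_pos
    rw [hB, Matrix.det_mul, h, mul_zero] at this
    exact lt_irrefl _ this
  have hBu : IsUnit B.det := isUnit_iff_ne_zero.2 hBdet
  set F : M3 := LinearMap.toMatrix' (E : V →ₗ[ℝ] V) with hF
  have hFm : ∀ k, F *ᵥ k = E k := fun k => by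
    rw [hF, LinearMap.toMatrix'_mulVec]
    rfl
  have hFA : Fᵀ * A = A * F := by
    ext i j
    have e1 : ∀ (M : M3) (a b : Fin 3),
        M a b = (Pi.single a 1 : V) ⬝ᵥ (M *ᵥ (Pi.single b 1 : V)) := by
      intro M a b
      simp
    rw [e1 (Fᵀ * A) i j, e1 (A * F) i j, ← Matrix.mulVec_mulVec, ← Matrix.mulVec_mulVec, hFm,
      ← hb]
    have e2 : (Pi.single i 1 : V) ⬝ᵥ (Fᵀ *ᵥ (A *ᵥ Pi.single j 1)) =
        (F *ᵥ Pi.single i 1) ⬝ᵥ (A *ᵥ Pi.single j 1) := by
      rw [Matrix.dotProduct_mulVec, Matrix.vecMul_transpose]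
    rw [e2, hFm, ← hb, hE, hsym]
  -- the conjugate of `1 + s F`
  have key : ∀ s : ℝ, (∀ k, 0 ≤ H k k + s * H (E k) k) →
      |(ContinuousLinearMap.id ℝ V + s • E).det| ^ (1 / N) ≤
        ((3 + s * F.trace) + (N - 3)) / N := by
    intro s hs
    set M : M3 := B * (1 + s • F) * B⁻¹ with hM
    have hdet : M.det = (ContinuousLinearMap.id ℝ V + s • E).det := by
      have e1 : (ContinuousLinearMap.id ℝ V + s • E).det = (1 + s • F).det := by
        rw [ContinuousLinearMap.det, ← LinearMap.det_toMatrix']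
        congr 1
        have : ((ContinuousLinearMap.id ℝ V + s • E : V →L[ℝ] V) : V →ₗ[ℝ] V) =
            LinearMap.id + s • (E : V →ₗ[ℝ] V) := rfl
        rw [this, map_add, map_smul, LinearMap.toMatrix'_id]
      rw [e1, hM, Matrix.det_mul, Matrix.det_mul, mul_comm, ← mul_assoc, ← Matrix.det_mul,
        Matrix.nonsing_inv_mul _ hBu, Matrix.det_one, one_mul]
    have htr : M.trace = 3 + s * F.trace := by
      rw [hM, Matrix.trace_mul_comm, ← mul_assoc, Matrix.nonsing_inv_mul _ hBu, one_mul,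
        Matrix.trace_add, Matrix.trace_smul, Matrix.trace_one]
      simp
    clear_value M
    have hsymM : Mᵀ = M := by
      -- `Bᵀ M B = A (1 + s F)` is symmetric
      have e1 : Bᵀ * M * B = A * (1 + s • F) := by
        rw [hM, hB]
        simp only [mul_assoc]
        rw [Matrix.nonsing_inv_mul _ hBu, mul_one]
      have e2 : (A * (1 + s • F))ᵀ = A * (1 + s • F) := by
        rw [Matrix.transpose_mul, Matrix.transpose_add, Matrix.transpose_smul,
          Matrix.transpose_one, hAs, add_mul, mul_add, one_mul, mul_one, Matrix.smul_mul,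
          Matrix.mul_smul, hFA]
      have e3 : Bᵀ * Mᵀ * B = Bᵀ * M * B := by
        have e5 : (Bᵀ * M * B)ᵀ = Bᵀ * Mᵀ * B := by
          rw [Matrix.transpose_mul, Matrix.transpose_mul, Matrix.transpose_transpose, mul_assoc]
        rw [← e5, e1, e2]
      have hBt : IsUnit Bᵀ.det := by rwa [Matrix.det_transpose]
      have e4 : Bᵀ⁻¹ * (Bᵀ * Mᵀ * B) * B⁻¹ = Bᵀ⁻¹ * (Bᵀ * M * B) * B⁻¹ := by rw [e3]
      simp only [mul_assoc] at e4
      rw [Matrix.mul_nonsing_inv _ hBu, mul_one, mul_one, ← mul_assoc, ← mul_assoc,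
        Matrix.nonsing_inv_mul _ hBt, one_mul, one_mul] at e4
      exact e4
    have hpsd : M.PosSemidef := by
      refine Matrix.PosSemidef.of_dotProduct_mulVec_nonneg ?_ ?_
      · rw [Matrix.IsHermitian, Matrix.conjTranspose_eq_transpose_of_trivial]
        exact hsymM
      · intro x
        rw [star_trivial]
        set k : V := B⁻¹ *ᵥ x with hk
        have hx : x = B *ᵥ k := by
          rw [hk, Matrix.mulVec_mulVec, Matrix.mul_nonsing_inv _ hBu, Matrix.one_mulVec]
        have e1 : x ⬝ᵥ (M *ᵥ x) = k ⬝ᵥ (A *ᵥ ((1 + s • F) *ᵥ k)) := by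
          have e2 : M *ᵥ x = B *ᵥ ((1 + s • F) *ᵥ k) := by
            rw [hM, ← Matrix.mulVec_mulVec, ← Matrix.mulVec_mulVec]
          rw [e2]
          conv_lhs => rw [hx]
          rw [hB, ← Matrix.mulVec_mulVec, Matrix.dotProduct_mulVec k, Matrix.vecMul_transpose]
        have e3 : (1 + s • F) *ᵥ k = k + s • E k := by
          rw [Matrix.add_mulVec, Matrix.one_mulVec, Matrix.smul_mulVec, hFm]
        rw [e1, e3, ← hb, map_add, map_smul, smul_eq_mul, hsym k (E k)]
        exact hs k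
    have := amgm hpsd hN
    rwa [hdet, htr] at this
  have hN0 : 0 < N := by linarith
  have k0 := key (-t) (fun k => by
    have := h0 k
    linarith)
  have k1 := key (1 - t) h1
  have e5 : ContinuousLinearMap.id ℝ V - t • E = ContinuousLinearMap.id ℝ V + (-t) • E := by
    ext k
    simp [sub_eq_add_neg]
  rw [e5]
  calc _ ≤ (1 - t) * (((3 + -t * F.trace) + (N - 3)) / N) +
        t * (((3 + (1 - t) * F.trace) + (N - 3)) / N) :=
        add_le_add (mul_le_mul_of_nonneg_left k0 (by linarith))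
          (mul_le_mul_of_nonneg_left k1 ht0.le)
    _ = 1 := by
        field_simp
        ring

end Pool.Agent.Helper76K9.CL
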