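import Pool.Agent.Helper76K9.CL.Lft

/-! # MET: the quotient is a metric measure space and contains a line -/

set_option autoImplicit false

open MeasureTheory Set Filter Topology Metric
open scoped ENNReal NNReal

namespace Pool.Agent.Helper76K9.CL

namespace MetL

open LftL

theorem dist_le (v w : V) : dist (pr v) (pr w) ≤ ‖v - w‖ := by
  rw [dist_pr]; exact min_le_left _ _

/-- a representative realising the distance -/
theorem exists_rep (v : V) (x : Q) : ∃ w, pr w = x ∧ dist (pr v) x = ‖v - w‖ := by
  obtain ⟨w, rfl⟩ := pr_surjective x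
  rcases min_choice ‖v - w‖ ‖v + w‖ with h | h
  · exact ⟨w, rfl, by rw [dist_pr, h]⟩
  · refine ⟨-w, pr_neg w, ?_⟩
    rw [dist_pr, h, sub_neg_eq_add]

theorem norm_rep (v : V) : dist (pr v) (pr 0) = ‖v‖ := by
  rw [dist_pr, sub_zero, add_zero, min_self]

instance : ProperSpace Q := by
  refine ProperSpace.of_isCompact_closedBall_of_le 0 fun x r _ => ?_
  obtain ⟨v, rfl⟩ := pr_surjective x
  have h1 : closedBall (pr v) r = pr '' closedBall v r := by
    ext y
    rw [mem_closedBall, dist_comm]
    constructor
    · intro h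
      obtain ⟨w, rfl, hw⟩ := exists_rep v y
      refine ⟨w, ?_, rfl⟩
      rw [mem_closedBall, dist_comm, dist_eq_norm, ← hw]
      exact h
    · rintro ⟨w, hw, rfl⟩
      rw [mem_closedBall, dist_comm, dist_eq_norm] at hw
      exact (dist_le v w).trans hw
  rw [h1]
  exact (isCompact_closedBall v r).image continuous_pr

theorem meas_pr : Measurable pr := continuous_pr.measurable

end MetL

open MetL LftL in
theorem met : S_MET := by
  refine ⟨⟨inferInstance, inferInstance, ?_, inferInstance, ?_, ?_, ?_⟩, ?_⟩
  · exact (isOpenMap_pr.isQuotientMap continuous_pr pr_surjective).separableSpace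
  · intro x y
    obtain ⟨v, rfl⟩ := pr_surjective x
    obtain ⟨w, rfl, hw⟩ := exists_rep v y
    refine ⟨fun t => pr ((1 - t) • v + t • w), by simp, by simp, ?_⟩
    intro s hs t ht
    have hle : ∀ s t : ℝ, dist (pr ((1 - s) • v + s • w)) (pr ((1 - t) • v + t • w)) ≤
        |s - t| * ‖v - w‖ := by
      intro s t
      refine (dist_le _ _).trans ?_
      rw [show (1 - s) • v + s • w - ((1 - t) • v + t • w) = (s - t) • (w - v) by module,
        norm_smul, Real.norm_eq_abs, norm_sub_rev]
    have h0 : pr ((1 - (0:ℝ)) • v + (0:ℝ) • w) = pr v := by simp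
    have h1 : pr ((1 - (1:ℝ)) • v + (1:ℝ) • w) = pr w := by simp
    wlog hst : s ≤ t generalizing s t
    · rw [dist_comm, this t ht s hs (le_of_not_ge hst), abs_sub_comm]
    refine le_antisymm ?_ ?_
    · rw [hw]
      exact hle s t
    · have ha := hle 0 s
      have hb := hle t 1
      rw [h0] at ha
      rw [h1] at hb
      have hc := dist_triangle (pr v) (pr ((1 - s) • v + s • w)) (pr w)
      have hd := dist_triangle (pr ((1 - s) • v + s • w)) (pr ((1 - t) • v + t • w)) (pr w)
      rw [hw]
      rw [hw] at hc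
      have e1 : |0 - s| = s := by rw [zero_sub, abs_neg, abs_of_nonneg hs.1]
      have e2 : |t - 1| = 1 - t := by rw [abs_sub_comm, abs_of_nonneg (by linarith [ht.2])]
      have e3 : |s - t| = t - s := by rw [abs_sub_comm, abs_of_nonneg (by linarith)]
      rw [e1] at ha
      rw [e2] at hb
      rw [e3]
      nlinarith
  · refine ⟨fun x => ?_⟩
    obtain ⟨v, rfl⟩ := pr_surjective x
    refine ⟨ball (pr v) 1, ball_mem_nhds _ one_pos, ?_⟩
    rw [mQ, Measure.map_apply meas_pr measurableSet_ball]
    have hsub : pr ⁻¹' ball (pr v) 1 ⊆ ball 0 (‖v‖ + 1) := by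
      intro w hw
      rw [mem_preimage, mem_ball] at hw
      rw [mem_ball_zero_iff, ← norm_rep w, ← norm_rep v]
      have := dist_triangle (pr w) (pr v) (pr 0)
      linarith
    exact (measure_mono hsub).trans_lt measure_ball_lt_top
  · intro x r hr
    obtain ⟨v, rfl⟩ := pr_surjective x
    rw [mQ, Measure.map_apply meas_pr measurableSet_ball]
    have hsub : ball v r ⊆ pr ⁻¹' ball (pr v) r := by
      intro w hw
      rw [mem_preimage, mem_ball]
      rw [mem_ball, dist_eq_norm] at hw
      exact (dist_le w v).trans_lt hw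
    exact (measure_ball_pos volume v hr).trans_le (measure_mono hsub)
  · refine ⟨fun t => pr ![t, |t|, 0], fun s t => ?_⟩
    rw [dist_pr]
    have h1 : ∀ a b : ℝ, ‖(![a, b, 0] : V)‖ = max |a| |b| := by
      intro a b
      refine le_antisymm ?_ ?_
      · rw [pi_norm_le_iff_of_nonneg (le_max_of_le_left (abs_nonneg a))]
        intro l
        fin_cases l
        · exact le_max_left _ _
        · exact le_max_right _ _
        · simp
      · refine max_le ?_ ?_
        · exact norm_le_pi_norm (![a, b, 0] : V) 0
        · exact norm_le_pi_norm (![a, b, 0] : V) 1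
    have e1 : (![s, |s|, 0] : V) - ![t, |t|, 0] = ![s - t, |s| - |t|, 0] := by
      ext l; fin_cases l <;> simp
    have e2 : (![s, |s|, 0] : V) + ![t, |t|, 0] = ![s + t, |s| + |t|, 0] := by
      ext l; fin_cases l <;> simp
    rw [e1, e2, h1, h1, max_eq_left (abs_abs_sub_abs_le_abs_sub s t)]
    refine min_eq_left (le_max_of_le_right ?_)
    rw [abs_of_nonneg (add_nonneg (abs_nonneg s) (abs_nonneg t))]
    exact abs_sub s t

end Pool.Agent.Helper76K9.CL
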