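import Pool.Agent.Helper76K9.CL.Cdv
import Pool.Agent.Helper76K9.CL.Met

/-!
# CD(0,3) for the quotient: assembly
-/

set_option autoImplicit false

open MeasureTheory Set Filter Topology Metric
open scoped ENNReal NNReal

namespace Pool.Agent.Helper76K9.CL

theorem W2_le_swap {X : Type*} [MetricSpace X] [MeasurableSpace X] [BorelSpace X]
    [SecondCountableTopology X] (μ ν : Measure X) : W2 μ ν ≤ W2 ν μ := by
  unfold W2
  refine ENNReal.rpow_le_rpow ?_ (by norm_num)
  refine le_iInf₂ fun q hq => ?_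
  refine iInf₂_le_of_le (q.map Prod.swap) ?_ ?_
  · constructor
    · rw [Measure.map_map measurable_fst measurable_swap]
      exact hq.2
    · rw [Measure.map_map measurable_snd measurable_swap]
      exact hq.1
  · unfold cost
    rw [lintegral_map (by fun_prop) measurable_swap]
    simp only [Prod.fst_swap, Prod.snd_swap, edist_comm]
    exact le_rfl

theorem W2_symm {X : Type*} [MetricSpace X] [MeasurableSpace X] [BorelSpace X]
    [SecondCountableTopology X] (μ ν : Measure X) : W2 μ ν = W2 ν μ :=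
  le_antisymm (W2_le_swap μ ν) (W2_le_swap ν μ)

theorem W2_le {X : Type*} [MetricSpace X] [MeasurableSpace X] {μ ν : Measure X}
    {q : Measure (X × X)} (h : IsCoupling μ ν q) : W2 μ ν ≤ cost q ^ (1 / 2 : ℝ) := by
  unfold W2
  exact ENNReal.rpow_le_rpow (iInf₂_le q h) (by norm_num)

theorem edist_pr_mid {s t : ℝ} (p : V × V) :
    edist (pr (mid s p)) (pr (mid t p)) ≤ ENNReal.ofReal |t - s| * edist p.1 p.2 := by
  rw [edist_dist, edist_dist, ← ENNReal.ofReal_mul (abs_nonneg _)]
  refine ENNReal.ofReal_le_ofReal ?_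
  refine (MetL.dist_le _ _).trans ?_
  have e : mid s p - mid t p = (t - s) • (p.1 - p.2) := by
    unfold mid; module
  rw [e, norm_smul, Real.norm_eq_abs, dist_eq_norm]

theorem cd0 (hLIM : S_LIM) (hOPT : S_OPT) (hTRI : S_TRI) (hENT : S_ENT) (hLIFT : S_LIFT)
    (hMET : S_MET) : CD0 mQ 3 := by
  have hcs : CompleteSpace Q := hMET.1.complete
  have hss : TopologicalSpace.SeparableSpace Q := hMET.1.separable
  have hsc : SecondCountableTopology Q := UniformSpace.secondCountable_of_separable Q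
  rintro μ₀ μ₁ ⟨hp₀, -⟩ ⟨hp₁, -⟩ hac₀ hac₁ hb₀ hb₁
  obtain ⟨ν₀, hq₀, hc₀, hs₀, hm₀, ⟨R₀, hR₀, hR₀'⟩, hn₀⟩ := hLIFT μ₀ hp₀ hac₀ hb₀
  obtain ⟨ν₁, hq₁, hc₁, hs₁, hm₁, ⟨R₁, hR₁, hR₁'⟩, hn₁⟩ := hLIFT μ₁ hp₁ hac₁ hb₁
  obtain ⟨R, hR, hRR₀, hRR₁⟩ : ∃ R : ℝ, 0 < R ∧ R₀ ≤ R ∧ R₁ ≤ R :=
    ⟨max R₀ R₁, lt_max_of_lt_left hR₀, le_max_left _ _, le_max_right _ _⟩
  have hv₀ := hR₀' R hRR₀
  have hv₁ := hR₁' R hRR₁
  obtain ⟨q, hq, hopt, hent⟩ := hLIM R hR ν₀ ν₁ hq₀ hq₁ hc₀ hc₁ hv₀ hv₁
  have hqp : IsProbabilityMeasure q := coupling_prob hq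
  have hpr : Measurable pr := MetL.meas_pr
  have hmm : ∀ t, Measurable (mid t) := fun t => (continuous_mid t).measurable
  have hconc : ∀ᵐ p ∂q, p.1 ∈ closedBall (0 : V) R ∧ p.2 ∈ closedBall (0 : V) R := by
    have := coupling_conc measurableSet_closedBall hq hv₀ hv₁
    rw [ae_iff]
    exact this
  set μ : ℝ → Measure Q := fun t => (q.map (mid t)).map pr with hμ
  have hμp : ∀ t, IsProbabilityMeasure (μ t) := by
    intro t
    have h1 : IsProbabilityMeasure (q.map (mid t)) :=
      Measure.isProbabilityMeasure_map (hmm t).aemeasurable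
    exact Measure.isProbabilityMeasure_map hpr.aemeasurable
  have hμ0 : μ 0 = μ₀ := by
    simp only [hμ]
    rw [mid_zero, hq.1, hm₀]
  have hμ1 : μ 1 = μ₁ := by
    simp only [hμ]
    rw [mid_one, hq.2, hm₁]
  have hmidK : ∀ t ∈ Icc (0 : ℝ) 1, ∀ᵐ p ∂q, mid t p ∈ closedBall (0 : V) R := by
    rintro t ⟨ht0, ht1⟩
    filter_upwards [hconc] with p hp
    exact convex_closedBall (0 : V) R hp.1 hp.2 (by linarith) ht0 (by ring)
  -- the constant
  set c : ℝ≥0∞ := cost q ^ (1 / 2 : ℝ) with hcdef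
  have hcfin : c ≠ ∞ := by
    refine ENNReal.rpow_ne_top_of_nonneg (by norm_num) ?_
    have h1 : cost q ≤ ENNReal.ofReal (2 * R) ^ 2 := by
      unfold cost
      calc ∫⁻ p, edist p.1 p.2 ^ 2 ∂q ≤ ∫⁻ p, ENNReal.ofReal (2 * R) ^ 2 ∂q := by
            refine lintegral_mono_ae ?_
            filter_upwards [hconc] with p hp
            rw [edist_dist]
            have h2 := dist_le_norm_add_norm p.1 p.2
            have h3 := mem_closedBall_zero_iff.1 hp.1
            have h4 := mem_closedBall_zero_iff.1 hp.2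
            have h5 : dist p.1 p.2 ≤ 2 * R := by linarith
            gcongr
        _ = _ := by rw [lintegral_const, measure_univ, mul_one]
    exact (h1.trans_lt (ENNReal.pow_lt_top ENNReal.ofReal_lt_top)).ne
  -- upper bound
  have hup : ∀ s t : ℝ, W2 (μ s) (μ t) ≤ ENNReal.ofReal |t - s| * c := by
    intro s t
    have hmeas : Measurable fun p : V × V => (pr (mid s p), pr (mid t p)) :=
      (hpr.comp (hmm s)).prodMk (hpr.comp (hmm t))
    have hcoup : IsCoupling (μ s) (μ t) (q.map fun p => (pr (mid s p), pr (mid t p))) := by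
      constructor
      · rw [Measure.map_map measurable_fst hmeas]
        simp only [hμ]
        rw [Measure.map_map hpr (hmm s)]
        rfl
      · rw [Measure.map_map measurable_snd hmeas]
        simp only [hμ]
        rw [Measure.map_map hpr (hmm t)]
        rfl
    refine (W2_le hcoup).trans ?_
    have hcost : cost (q.map fun p => (pr (mid s p), pr (mid t p))) ≤
        ENNReal.ofReal |t - s| ^ 2 * cost q := by
      unfold cost
      rw [lintegral_map (by fun_prop) hmeas, ← lintegral_const_mul _ (by fun_prop)]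
      refine lintegral_mono fun p => ?_
      rw [← mul_pow]
      exact pow_le_pow_left' (edist_pr_mid p) 2
    calc cost (q.map fun p => (pr (mid s p), pr (mid t p))) ^ (1 / 2 : ℝ)
        ≤ (ENNReal.ofReal |t - s| ^ 2 * cost q) ^ (1 / 2 : ℝ) :=
          ENNReal.rpow_le_rpow hcost (by norm_num)
      _ = ENNReal.ofReal |t - s| * c := by
          rw [ENNReal.mul_rpow_of_nonneg _ _ (by norm_num), ← ENNReal.rpow_natCast,
            ← ENNReal.rpow_mul]
          norm_num
          rfl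
  have h01 : W2 μ₀ μ₁ = c := by
    refine le_antisymm ?_ ?_
    · have := hup 0 1
      rw [hμ0, hμ1] at this
      simpa using this
    · unfold W2
      refine ENNReal.rpow_le_rpow ?_ (by norm_num)
      refine le_iInf₂ fun r hr => ?_
      rw [← hm₀, ← hm₁] at hr
      exact hOPT R hR ν₀ ν₁ hq₀ hq₁ hv₀ hv₁ hs₀ hs₁ q hq hopt r hr
  have key : ∀ s ∈ Icc (0 : ℝ) 1, ∀ t ∈ Icc (0 : ℝ) 1, s ≤ t →
      W2 (μ s) (μ t) = ENNReal.ofReal |t - s| * c := by
    intro s hs t ht hst
    refine le_antisymm (hup s t) ?_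
    have hP := hμp
    have t1 := hTRI Q (μ 0) (μ s) (μ 1) (hP 0) (hP s) (hP 1)
    have t2 := hTRI Q (μ s) (μ t) (μ 1) (hP s) (hP t) (hP 1)
    have u1 := hup 0 s
    have u2 := hup t 1
    rw [sub_zero, abs_of_nonneg hs.1] at u1
    rw [abs_of_nonneg (by linarith [ht.2] : (0 : ℝ) ≤ 1 - t)] at u2
    rw [abs_of_nonneg (by linarith : (0 : ℝ) ≤ t - s)]
    have h0 : W2 (μ 0) (μ 1) = c := by rw [hμ0, hμ1, h01]
    rw [h0] at t1
    have hsum : ENNReal.ofReal s * c + (ENNReal.ofReal (t - s) * c + ENNReal.ofReal (1 - t) * c) = c := by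
      rw [← add_mul, ← add_mul, ← ENNReal.ofReal_add (by linarith) (by linarith [ht.2]),
        ← ENNReal.ofReal_add hs.1 (by linarith [ht.2])]
      rw [show s + (t - s + (1 - t)) = 1 by ring, ENNReal.ofReal_one, one_mul]
    have hchain : ENNReal.ofReal s * c + (ENNReal.ofReal (t - s) * c +
        ENNReal.ofReal (1 - t) * c) ≤
        ENNReal.ofReal s * c + (W2 (μ s) (μ t) + ENNReal.ofReal (1 - t) * c) := by
      rw [hsum]
      exact t1.trans (add_le_add u1 (t2.trans (add_le_add le_rfl u2)))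
    have f1 : ENNReal.ofReal s * c ≠ ∞ := ENNReal.mul_ne_top ENNReal.ofReal_ne_top hcfin
    have f2 : ENNReal.ofReal (1 - t) * c ≠ ∞ := ENNReal.mul_ne_top ENNReal.ofReal_ne_top hcfin
    exact (ENNReal.add_le_add_iff_right f2).1 ((ENNReal.add_le_add_iff_left f1).1 hchain)
  refine ⟨μ, hμ0, hμ1, ?_, ?_, ?_⟩
  · intro t ht
    refine ⟨hμp t, fun x₀ => ?_⟩
    obtain ⟨a, rfl⟩ := pr_surjective x₀
    simp only [hμ]
    rw [lintegral_map (by fun_prop) hpr, lintegral_map (by
      exact ((hpr.edist measurable_const).pow_const 2)) (hmm t)]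
    have h1 : ∫⁻ p, edist (pr (mid t p)) (pr a) ^ 2 ∂q ≤
        ∫⁻ p, ENNReal.ofReal (R + ‖a‖) ^ 2 ∂q := by
      refine lintegral_mono_ae ?_
      filter_upwards [hmidK t ht] with p hp
      rw [edist_dist]
      have h2 := MetL.dist_le (mid t p) a
      have h3 := norm_sub_le (mid t p) a
      have h4 := mem_closedBall_zero_iff.1 hp
      have h5 : dist (pr (mid t p)) (pr a) ≤ R + ‖a‖ := by linarith
      gcongr
    refine h1.trans_lt ?_
    rw [lintegral_const, measure_univ, mul_one]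
    exact ENNReal.pow_lt_top ENNReal.ofReal_lt_top
  · intro s hs t ht
    rw [h01]
    rcases le_total s t with h | h
    · exact key s hs t ht h
    · rw [W2_symm, key t ht s hs h, abs_sub_comm]
  · intro t ht N' hN'
    rw [← hn₀ N' (by linarith), ← hn₁ N' (by linarith)]
    have h1 : IsProbabilityMeasure (q.map (mid t)) :=
      Measure.isProbabilityMeasure_map (hmm t).aemeasurable
    exact (hent t ht N' hN').trans (hENT _ h1 N' (by linarith))

end Pool.Agent.Helper76K9.CL
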