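import Pool.Agent.Helper76K9.CL.Stm
import Pool.Agent.Helper76K9.CL.Cdv

/-!
# The Hopf-Lax potential and the velocity field
-/

set_option autoImplicit false

open MeasureTheory Set Filter Topology Metric
open scoped ENNReal NNReal

namespace Pool.Agent.Helper76K9.CL

/-- second order remainder on bounded sets -/
theorem quad {h : V → ℝ} (hh : ContDiff ℝ 2 h) (ρ : ℝ) : ∃ C : ℝ, 0 ≤ C ∧
    ∀ ξ v : V, ‖ξ‖ ≤ ρ → ‖v‖ ≤ ρ → |h (ξ + v) - h ξ - fderiv ℝ h ξ v| ≤ C * ‖v‖ ^ 2 := by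
  have hd : Differentiable ℝ h := hh.differentiable (by norm_num)
  have h1 : ContDiff ℝ 1 (fderiv ℝ h) := hh.fderiv_right (by norm_num)
  have hd1 : Differentiable ℝ (fderiv ℝ h) := h1.differentiable (by norm_num)
  have hc2 := h1.continuous_fderiv (by norm_num)
  have hcn : Continuous fun x => ‖fderiv ℝ (fderiv ℝ h) x‖ := continuous_norm.comp hc2
  obtain ⟨C, hC⟩ := (isCompact_closedBall (0 : V) (2 * ρ)).exists_bound_of_continuousOn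
    hcn.continuousOn
  refine ⟨max C 0, le_max_right _ _, fun ξ v hξ hv => ?_⟩
  have hρ : 0 ≤ ρ := (norm_nonneg _).trans hξ
  have hsub : closedBall ξ ‖v‖ ⊆ closedBall (0 : V) (2 * ρ) := by
    intro x hx
    rw [mem_closedBall_zero_iff]
    have h2 : ‖x‖ ≤ ‖x - ξ‖ + ‖ξ‖ := by
      have := norm_add_le (x - ξ) ξ
      rwa [sub_add_cancel] at this
    rw [mem_closedBall, dist_eq_norm] at hx
    linarith
  have hξm : ξ ∈ closedBall ξ ‖v‖ := mem_closedBall_self (norm_nonneg _)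
  have hlip : ∀ x ∈ closedBall ξ ‖v‖, ‖fderiv ℝ h x - fderiv ℝ h ξ‖ ≤ max C 0 * ‖v‖ := by
    intro x hx
    have h3 := (convex_closedBall ξ ‖v‖).norm_image_sub_le_of_norm_fderiv_le
      (f := fderiv ℝ h) (fun y _ => hd1 y)
      (fun y hy => ((le_abs_self _).trans (hC y (hsub hy))).trans (le_max_left C 0)) hξm hx
    refine h3.trans ?_
    rw [mem_closedBall, dist_eq_norm] at hx
    exact mul_le_mul_of_nonneg_left hx (le_max_right _ _)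
  have hg : ∀ x, HasFDerivAt (fun x => h x - fderiv ℝ h ξ x) (fderiv ℝ h x - fderiv ℝ h ξ) x :=
    fun x => (hd x).hasFDerivAt.sub (fderiv ℝ h ξ).hasFDerivAt
  have h4 := (convex_closedBall ξ ‖v‖).norm_image_sub_le_of_norm_hasFDerivWithin_le
    (f := fun x => h x - fderiv ℝ h ξ x) (fun x _ => (hg x).hasFDerivWithinAt)
    hlip hξm (show ξ + v ∈ closedBall ξ ‖v‖ by
      rw [mem_closedBall, dist_eq_norm, add_sub_cancel_left])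
  rw [add_sub_cancel_left, Real.norm_eq_abs, map_add] at h4
  have e : h (ξ + v) - (fderiv ℝ h ξ ξ + fderiv ℝ h ξ v) - (h ξ - fderiv ℝ h ξ ξ) =
      h (ξ + v) - h ξ - fderiv ℝ h ξ v := by ring
  rw [e] at h4
  calc _ ≤ max C 0 * ‖v‖ * ‖v‖ := h4
    _ = _ := by ring

/-- convexity of a good cost -/
theorem Good.first {h : V → ℝ} (hh : Good h) (u v : V) : h u + fderiv ℝ h u (v - u) ≤ h v := by
  obtain ⟨ε, hε, H⟩ := hh.strong
  have := H u v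
  have h2 : 0 ≤ ε * ‖v - u‖ ^ 2 := by positivity
  linarith

theorem Good.conv {h : V → ℝ} (hh : Good h) {t : ℝ} (h0 : 0 < t) (h1 : t < 1) (a b : V) :
    h (t • a + (1 - t) • b) ≤ t * h a + (1 - t) * h b := by
  set c := t • a + (1 - t) • b
  have e1 := hh.first c a
  have e2 := hh.first c b
  have e3 : t • (a - c) + (1 - t) • (b - c) = 0 := by
    simp only [c]
    module
  have e4 : t * fderiv ℝ h c (a - c) + (1 - t) * fderiv ℝ h c (b - c) = 0 := by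
    have := congrArg (fderiv ℝ h c) e3
    simpa using this
  nlinarith

/-- strong monotonicity of the derivative -/
theorem Good.mono {h : V → ℝ} (hh : Good h) : ∃ ε : ℝ, 0 < ε ∧ ∀ u v : V,
    2 * ε * ‖u - v‖ ^ 2 ≤ (fderiv ℝ h u - fderiv ℝ h v) (u - v) := by
  obtain ⟨ε, hε, H⟩ := hh.strong
  refine ⟨ε, hε, fun u v => ?_⟩
  have e1 := H u v
  have e2 := H v u
  have e3 : fderiv ℝ h u (v - u) = -fderiv ℝ h u (u - v) := by
    rw [← map_neg, neg_sub]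
  rw [norm_sub_rev v u, e3] at e1
  rw [sub_apply]
  linarith

theorem one_pt_a {h : V → ℝ} {C ρ s : ℝ} (hs : 0 < s)
    (hC : ∀ ξ v : V, ‖ξ‖ ≤ ρ → ‖v‖ ≤ ρ → |h (ξ + v) - h ξ - fderiv ℝ h ξ v| ≤ C * ‖v‖ ^ 2)
    {ξ u : V} (hξ : ‖ξ‖ ≤ ρ) (hu : s⁻¹ * ‖u‖ ≤ ρ) :
    s * (h (ξ + s⁻¹ • u) - h ξ) ≤ fderiv ℝ h ξ u + C * s⁻¹ * ‖u‖ ^ 2 := by
  have hsi : 0 < s⁻¹ := inv_pos.2 hs
  have hv : ‖s⁻¹ • u‖ ≤ ρ := by
    rw [norm_smul, Real.norm_eq_abs, abs_of_pos hsi]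
    exact hu
  have h2 := (abs_le.1 (hC ξ _ hξ hv)).2
  rw [map_smul, smul_eq_mul, norm_smul, Real.norm_eq_abs, abs_of_pos hsi] at h2
  have h3 : s * (h (ξ + s⁻¹ • u) - h ξ) ≤
      s * (s⁻¹ * fderiv ℝ h ξ u + C * (s⁻¹ * ‖u‖) ^ 2) :=
    mul_le_mul_of_nonneg_left (by linarith only [h2]) hs.le
  have h4 : s * (s⁻¹ * fderiv ℝ h ξ u + C * (s⁻¹ * ‖u‖) ^ 2) =
      fderiv ℝ h ξ u + C * s⁻¹ * ‖u‖ ^ 2 := by
    field_simp
  exact h3.trans h4.le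

theorem one_pt {h : V → ℝ} {C ρ t M : ℝ} (h0 : 0 < t) (h1 : 0 < 1 - t) (hC0 : 0 ≤ C)
    (hC : ∀ ξ v : V, ‖ξ‖ ≤ ρ → ‖v‖ ≤ ρ → |h (ξ + v) - h ξ - fderiv ℝ h ξ v| ≤ C * ‖v‖ ^ 2)
    (hM : M * (t⁻¹ + (1 - t)⁻¹) ≤ ρ) {A : V → ℝ} {z ξ : V} (hξ : ‖ξ‖ ≤ ρ)
    (H : ∀ w : V, A w ≤ A z + t * (h (ξ + t⁻¹ • (w - z)) - h ξ) ∧
        A z - (1 - t) * (h (ξ - (1 - t)⁻¹ • (w - z)) - h ξ) ≤ A w) {w : V}
    (hw : ‖w - z‖ ≤ M) :
    A w ≤ A z + fderiv ℝ h ξ (w - z) + C * (t⁻¹ + (1 - t)⁻¹) * ‖w - z‖ ^ 2 ∧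
      A z + fderiv ℝ h ξ (w - z) - C * (t⁻¹ + (1 - t)⁻¹) * ‖w - z‖ ^ 2 ≤ A w := by
  obtain ⟨H1, H2⟩ := H w
  have hti : 0 < t⁻¹ := inv_pos.2 h0
  have hti' : 0 < (1 - t)⁻¹ := inv_pos.2 h1
  have hn := norm_nonneg (w - z)
  have hM0 : 0 ≤ M := hn.trans hw
  have b1 : t⁻¹ * ‖w - z‖ ≤ ρ := by
    calc t⁻¹ * ‖w - z‖ ≤ t⁻¹ * M := mul_le_mul_of_nonneg_left hw hti.le
      _ ≤ M * (t⁻¹ + (1 - t)⁻¹) := by
        have : 0 ≤ M * (1 - t)⁻¹ := by positivity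
        linarith only [this]
      _ ≤ ρ := hM
  have b2 : (1 - t)⁻¹ * ‖-(w - z)‖ ≤ ρ := by
    rw [norm_neg]
    calc (1 - t)⁻¹ * ‖w - z‖ ≤ (1 - t)⁻¹ * M := mul_le_mul_of_nonneg_left hw hti'.le
      _ ≤ M * (t⁻¹ + (1 - t)⁻¹) := by
        have : 0 ≤ M * t⁻¹ := by positivity
        linarith only [this]
      _ ≤ ρ := hM
  have c1 := one_pt_a h0 hC hξ b1
  have c2 := one_pt_a h1 hC hξ b2
  rw [smul_neg, ← sub_eq_add_neg, norm_neg, map_neg] at c2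
  have d1 : 0 ≤ C * t⁻¹ * ‖w - z‖ ^ 2 := by positivity
  have d2 : 0 ≤ C * (1 - t)⁻¹ * ‖w - z‖ ^ 2 := by positivity
  have d3 : C * (t⁻¹ + (1 - t)⁻¹) * ‖w - z‖ ^ 2 =
    C * t⁻¹ * ‖w - z‖ ^ 2 + C * (1 - t)⁻¹ * ‖w - z‖ ^ 2 := by ring
  rw [d3]
  constructor
  · linarith only [H1, c1, d2]
  · linarith only [H2, c2, d1]

theorem step_a {Aw A₁ A₂ f g x c s r d : ℝ} (k1 : Aw ≤ A₁ + (x + f) + c * s)
    (k2 : A₂ + g - c * r ^ 2 ≤ Aw) (k3 : A₁ + x - c * d ^ 2 ≤ A₂) (a2 : c * s ≤ c * (r + d) ^ 2) :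
    -(c * ((r + d) ^ 2 + r ^ 2 + d ^ 2)) ≤ f - g := by
  have a5 : c * ((r + d) ^ 2 + r ^ 2 + d ^ 2) = c * (r + d) ^ 2 + c * r ^ 2 + c * d ^ 2 := by
    ring
  rw [a5]
  linarith only [k1, k2, k3, a2]

theorem step_b {c r d X : ℝ} (hc : 0 ≤ c) (hr : 0 < r) (hd : 0 ≤ d) (hdr : d ≤ r)
    (h : r * X ≤ c * ((r + d) ^ 2 + r ^ 2 + d ^ 2)) : X ≤ 6 * c * r := by
  have k10 : (r + d) ^ 2 + r ^ 2 + d ^ 2 ≤ 6 * r * r := by nlinarith
  have k11 : r * X ≤ r * (6 * c * r) := by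
    calc r * X ≤ c * ((r + d) ^ 2 + r ^ 2 + d ^ 2) := h
      _ ≤ c * (6 * r * r) := mul_le_mul_of_nonneg_left k10 hc
      _ = _ := by ring
  exact le_of_mul_le_mul_left k11 hr

theorem step_c {c d X : ℝ} (hc : 0 ≤ c)
    (h : ∀ δ : ℝ, 0 < δ → δ < 1 → X ≤ 6 * c * (d + δ)) : X ≤ 6 * c * d := by
  refine le_of_forall_pos_le_add fun η hη => ?_
  have hc1 : 0 < 6 * c + 1 := by positivity
  have hδ0 : 0 < min (1 / 2) (η / (6 * c + 1)) := by positivity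
  have hδ1 : min (1 / 2) (η / (6 * c + 1)) < 1 := (min_le_left _ _).trans_lt (by norm_num)
  have h2 := h _ hδ0 hδ1
  have h4 : min (1 / 2) (η / (6 * c + 1)) ≤ η / (6 * c + 1) := min_le_right _ _
  rw [le_div_iff₀ hc1] at h4
  nlinarith

/-- The Lipschitz estimate for the velocity. -/
theorem vel_lip {h : V → ℝ} (hh : Good h) {R t : ℝ} (hR : 0 < R) (h0 : 0 < t) (h1 : t < 1) :
    ∃ L : ℝ, 0 ≤ L ∧ ∀ (A : V → ℝ) (z₁ z₂ ξ₁ ξ₂ : V), ‖z₁‖ ≤ R → ‖z₂‖ ≤ R → ‖ξ₁‖ ≤ 2 * R →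
      ‖ξ₂‖ ≤ 2 * R →
      (∀ w : V, A w ≤ A z₁ + t * (h (ξ₁ + t⁻¹ • (w - z₁)) - h ξ₁) ∧
        A z₁ - (1 - t) * (h (ξ₁ - (1 - t)⁻¹ • (w - z₁)) - h ξ₁) ≤ A w) →
      (∀ w : V, A w ≤ A z₂ + t * (h (ξ₂ + t⁻¹ • (w - z₂)) - h ξ₂) ∧
        A z₂ - (1 - t) * (h (ξ₂ - (1 - t)⁻¹ • (w - z₂)) - h ξ₂) ≤ A w) →
      ‖ξ₁ - ξ₂‖ ≤ L * ‖z₁ - z₂‖ := by
  obtain ⟨ε, hε, hmono⟩ := hh.mono
  have h1' : 0 < 1 - t := by linarith
  have hti : 0 < t⁻¹ := inv_pos.2 h0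
  have hti' : 0 < (1 - t)⁻¹ := inv_pos.2 h1'
  obtain ⟨ρ, hρ1, hρ2⟩ : ∃ ρ : ℝ, 2 * R ≤ ρ ∧ (4 * R + 1) * (t⁻¹ + (1 - t)⁻¹) ≤ ρ :=
    ⟨max _ _, le_max_left _ _, le_max_right _ _⟩
  obtain ⟨C, hC0, hC⟩ := quad hh.smooth ρ
  obtain ⟨c, hc⟩ : ∃ c, c = C * (t⁻¹ + (1 - t)⁻¹) := ⟨_, rfl⟩
  have hc0 : 0 ≤ c := by rw [hc]; positivity
  refine ⟨3 * c / ε, by positivity, ?_⟩
  intro A z₁ z₂ ξ₁ ξ₂ hz₁ hz₂ hξ₁ hξ₂ H₁ H₂
  by_cases hne : ξ₁ = ξ₂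
  · rw [hne, sub_self, norm_zero]; positivity
  obtain ⟨d, hd⟩ : ∃ d, d = ‖z₁ - z₂‖ := ⟨_, rfl⟩
  have hd0 : 0 ≤ d := by rw [hd]; exact norm_nonneg _
  have hdR : d ≤ 2 * R := by
    have := norm_sub_le z₁ z₂
    linarith only [this, hd, hz₁, hz₂]
  obtain ⟨m, hm⟩ : ∃ m, m = ‖ξ₁ - ξ₂‖ := ⟨_, rfl⟩
  have hm0 : 0 < m := by rw [hm]; exact norm_pos_iff.2 (sub_ne_zero.2 hne)
  have k7 := hmono ξ₁ ξ₂
  rw [← hm] at k7
  have k8 : 2 * ε * m ≤ m⁻¹ * (fderiv ℝ h ξ₁ - fderiv ℝ h ξ₂) (ξ₁ - ξ₂) := by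
    rw [inv_mul_eq_div, le_div_iff₀ hm0]
    calc 2 * ε * m * m = 2 * ε * m ^ 2 := by ring
      _ ≤ _ := k7
  have hlim : 2 * ε * m ≤ 6 * c * d := by
    refine step_c hc0 fun δ hδ hδ1 => ?_
    have hr0 : 0 < d + δ := by positivity
    have hw2 : ‖(z₂ - (d + δ) • (m⁻¹ • (ξ₁ - ξ₂))) - z₂‖ = d + δ := by
      rw [sub_sub_cancel_left, norm_neg, norm_smul, norm_smul, ← hm, Real.norm_eq_abs,
        Real.norm_eq_abs, abs_of_pos (inv_pos.2 hm0), inv_mul_cancel₀ hm0.ne', mul_one,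
        abs_of_pos hr0]
    obtain ⟨w, hw⟩ : ∃ w, w = z₂ - (d + δ) • (m⁻¹ • (ξ₁ - ξ₂)) := ⟨_, rfl⟩
    rw [← hw] at hw2
    have hw1 : ‖w - z₁‖ ≤ (d + δ) + d := by
      have : w - z₁ = (w - z₂) - (z₁ - z₂) := by abel
      rw [this, hd]
      refine (norm_sub_le _ _).trans ?_
      rw [hw2, hd]
    have g1 : ‖w - z₁‖ ≤ 4 * R + 1 := hw1.trans (by linarith only [hdR, hδ1])
    have g2 : ‖w - z₂‖ ≤ 4 * R + 1 := by rw [hw2]; linarith only [hdR, hδ1, hR]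
    have g3 : ‖z₂ - z₁‖ ≤ 4 * R + 1 := by
      rw [norm_sub_rev, ← hd]; linarith only [hdR, hR]
    obtain ⟨k1, -⟩ := one_pt h0 h1' hC0 hC hρ2 (hξ₁.trans hρ1) H₁ g1
    obtain ⟨-, k2⟩ := one_pt h0 h1' hC0 hC hρ2 (hξ₂.trans hρ1) H₂ g2
    obtain ⟨-, k3⟩ := one_pt h0 h1' hC0 hC hρ2 (hξ₁.trans hρ1) H₁ g3
    rw [norm_sub_rev z₂ z₁, ← hd, ← hc] at k3
    rw [hw2, ← hc] at k2
    rw [← hc] at k1
    have k4 : c * ‖w - z₁‖ ^ 2 ≤ c * ((d + δ) + d) ^ 2 :=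
      mul_le_mul_of_nonneg_left (pow_le_pow_left₀ (norm_nonneg _) hw1 2) hc0
    have k5 : fderiv ℝ h ξ₁ (w - z₁) = fderiv ℝ h ξ₁ (z₂ - z₁) + fderiv ℝ h ξ₁ (w - z₂) := by
      rw [← map_add]; congr 1; abel
    rw [k5] at k1
    have k9 := step_a k1 k2 k3 k4
    have k6 : fderiv ℝ h ξ₁ (w - z₂) - fderiv ℝ h ξ₂ (w - z₂) =
        -((d + δ) * (m⁻¹ * (fderiv ℝ h ξ₁ - fderiv ℝ h ξ₂) (ξ₁ - ξ₂))) := by
      have e1 : w - z₂ = -((d + δ) • (m⁻¹ • (ξ₁ - ξ₂))) := by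
        rw [hw]; abel
      rw [e1, ← sub_apply, map_neg, map_smul, map_smul, smul_eq_mul, smul_eq_mul]
    rw [k6, neg_le_neg_iff] at k9
    refine step_b hc0 hr0 hd0 (by linarith only [hδ]) (le_trans ?_ k9)
    exact mul_le_mul_of_nonneg_left k8 hr0.le
  rw [div_mul_eq_mul_div, le_div_iff₀ hε, ← hm, ← hd]
  linarith only [hlim]

theorem hl : S_HL := by
  intro h hh R hR φ ψ hφ hψ hle t h0 h1
  have h1' : 0 < 1 - t := by linarith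
  have : CompactSpace (closedBall (0 : V) R) :=
    isCompact_iff_compactSpace.1 (isCompact_closedBall 0 R)
  have hne : Nonempty (closedBall (0 : V) R) := ⟨⟨0, mem_closedBall_self hR.le⟩⟩
  have hhc : Continuous h := hh.smooth.continuous
  set A : V → ℝ := fun w => ⨅ x : closedBall (0 : V) R, (t * h (t⁻¹ • (w - x.1)) - φ x) with hA
  have hbdd : ∀ w, BddBelow (range fun x : closedBall (0 : V) R =>
      (t * h (t⁻¹ • (w - x.1)) - φ x)) := by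
    intro w
    have hc : Continuous fun x : closedBall (0 : V) R => (t * h (t⁻¹ • (w - x.1)) - φ x) := by
      fun_prop
    exact (isCompact_range hc).bddBelow
  have hAle : ∀ (w : V) (x : closedBall (0 : V) R), A w ≤ t * h (t⁻¹ • (w - x.1)) - φ x :=
    fun w x => ciInf_le (hbdd w) x
  have hAge : ∀ (w : V) (y : closedBall (0 : V) R),
      ψ y - (1 - t) * h ((1 - t)⁻¹ • (y.1 - w)) ≤ A w := by
    intro w y
    refine le_ciInf fun x => ?_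
    have e1 := hh.conv h0 h1 (t⁻¹ • (w - x.1)) ((1 - t)⁻¹ • (y.1 - w))
    have e2 : t • (t⁻¹ • (w - x.1)) + (1 - t) • ((1 - t)⁻¹ • (y.1 - w)) = y.1 - x.1 := by
      rw [smul_smul, smul_smul, mul_inv_cancel₀ h0.ne', mul_inv_cancel₀ h1'.ne', one_smul,
        one_smul]
      abel
    rw [e2] at e1
    have := hle x y
    linarith
  -- equality pairs
  have hval : ∀ x y : closedBall (0 : V) R, φ x + ψ y = h (y.1 - x.1) →
      A (mid t (x.1, y.1)) = t * h (y.1 - x.1) - φ x := by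
    intro x y hxy
    have e1 := hAle (mid t (x.1, y.1)) x
    have e2 := hAge (mid t (x.1, y.1)) y
    have a1 : t⁻¹ • (mid t (x.1, y.1) - x.1) = y.1 - x.1 := by
      have : mid t (x.1, y.1) - x.1 = t • (y.1 - x.1) := by
        unfold mid; module
      rw [this, smul_smul, inv_mul_cancel₀ h0.ne', one_smul]
    have a2 : (1 - t)⁻¹ • (y.1 - mid t (x.1, y.1)) = y.1 - x.1 := by
      have : y.1 - mid t (x.1, y.1) = (1 - t) • (y.1 - x.1) := by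
        unfold mid; module
      rw [this, smul_smul, inv_mul_cancel₀ h1'.ne', one_smul]
    rw [a1] at e1
    rw [a2] at e2
    linarith
  have htwo : ∀ x y : closedBall (0 : V) R, φ x + ψ y = h (y.1 - x.1) → ∀ w : V,
      A w ≤ A (mid t (x.1, y.1)) + t * (h ((y.1 - x.1) + t⁻¹ • (w - mid t (x.1, y.1))) -
        h (y.1 - x.1)) ∧
      A (mid t (x.1, y.1)) - (1 - t) * (h ((y.1 - x.1) - (1 - t)⁻¹ • (w - mid t (x.1, y.1))) -
        h (y.1 - x.1)) ≤ A w := by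
    intro x y hxy w
    have e0 := hval x y hxy
    have e1 := hAle w x
    have e2 := hAge w y
    have a1 : t⁻¹ • (w - x.1) = (y.1 - x.1) + t⁻¹ • (w - mid t (x.1, y.1)) := by
      have : w - mid t (x.1, y.1) = (w - x.1) - t • (y.1 - x.1) := by
        unfold mid; module
      rw [this, smul_sub t⁻¹ (w - x.1) (t • (y.1 - x.1)), smul_smul, inv_mul_cancel₀ h0.ne',
        one_smul]
      abel
    have a2 : (1 - t)⁻¹ • (y.1 - w) = (y.1 - x.1) - (1 - t)⁻¹ • (w - mid t (x.1, y.1)) := by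
      have : w - mid t (x.1, y.1) = (1 - t) • (y.1 - x.1) - (y.1 - w) := by
        unfold mid; module
      rw [this, smul_sub (1 - t)⁻¹ ((1 - t) • (y.1 - x.1)) (y.1 - w), smul_smul,
        inv_mul_cancel₀ h1'.ne', one_smul]
      abel
    rw [a1] at e1
    rw [a2] at e2
    constructor
    · linarith
    · linarith
  have hmidK : ∀ x y : closedBall (0 : V) R, mid t (x.1, y.1) ∈ closedBall (0 : V) R :=
    fun x y => convex_closedBall (0 : V) R x.2 y.2 h1'.le h0.le (by ring)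
  -- the Lipschitz estimate
  obtain ⟨L, hL0, hL⟩ := vel_lip hh hR h0 h1
  have hpair : ∀ x y x' y' : closedBall (0 : V) R, φ x + ψ y = h (y.1 - x.1) →
      φ x' + ψ y' = h (y'.1 - x'.1) →
      ‖(y.1 - x.1) - (y'.1 - x'.1)‖ ≤ L * ‖mid t (x.1, y.1) - mid t (x'.1, y'.1)‖ := by
    intro x y x' y' e e'
    have hn : ∀ a b : closedBall (0 : V) R, ‖b.1 - a.1‖ ≤ 2 * R := by
      intro a b
      have h3 := norm_sub_le b.1 a.1
      have h4 := mem_closedBall_zero_iff.1 a.2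
      have h5 := mem_closedBall_zero_iff.1 b.2
      linarith
    exact hL A _ _ _ _ (mem_closedBall_zero_iff.1 (hmidK x y))
      (mem_closedBall_zero_iff.1 (hmidK x' y')) (hn x y) (hn x' y') (htwo x y e) (htwo x' y' e')
  set Γ : Set (closedBall (0 : V) R × closedBall (0 : V) R) :=
    {p | φ p.1 + ψ p.2 = h (p.2.1 - p.1.1)} with hΓ
  have hΓc : IsCompact Γ := by
    have hcl : IsClosed Γ := by
      refine isClosed_eq ?_ ?_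
      · fun_prop
      · fun_prop
    exact hcl.isCompact
  set f : closedBall (0 : V) R × closedBall (0 : V) R → V := fun p => mid t (p.1.1, p.2.1) with hf
  have hfc : Continuous f := by
    refine (continuous_mid t).comp ?_
    fun_prop
  set Z : Set V := f '' Γ with hZ
  classical
  have hex : ∀ z ∈ Z, ∃ p : closedBall (0 : V) R × closedBall (0 : V) R,
      φ p.1 + ψ p.2 = h (p.2.1 - p.1.1) ∧ mid t (p.1.1, p.2.1) = z := by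
    rintro z ⟨p, hp, rfl⟩
    exact ⟨p, hp, rfl⟩
  choose! P hP1 hP2 using hex
  set Ξ₀ : V → V := fun z => (P z).2.1 - (P z).1.1 with hΞ₀
  have hlipon : LipschitzOnWith (Real.toNNReal L) Ξ₀ Z := by
    refine LipschitzOnWith.of_dist_le_mul fun z hz z' hz' => ?_
    rw [dist_eq_norm, dist_eq_norm, Real.coe_toNNReal _ hL0]
    have := hpair _ _ _ _ (hP1 z hz) (hP1 z' hz')
    rwa [hP2 z hz, hP2 z' hz'] at this
  obtain ⟨Ξ, hΞ, hΞe⟩ := hlipon.extend_pi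
  have huniq : ∀ x y : closedBall (0 : V) R, φ x + ψ y = h (y.1 - x.1) →
      mid t (x.1, y.1) ∈ Z ∧ Ξ (mid t (x.1, y.1)) = y.1 - x.1 := by
    intro x y hxy
    have hz : mid t (x.1, y.1) ∈ Z := ⟨(x, y), hxy, rfl⟩
    refine ⟨hz, ?_⟩
    rw [← hΞe hz]
    have := hpair _ _ _ _ (hP1 _ hz) hxy
    rw [hP2 _ hz, sub_self, norm_zero, mul_zero] at this
    exact sub_eq_zero.1 (norm_le_zero_iff.1 this)
  refine ⟨Z, A, Ξ, Real.toNNReal L, (hΓc.image hfc).isClosed, ?_, hΞ, huniq, ?_, ?_⟩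
  · rintro z ⟨p, -, rfl⟩
    exact hmidK _ _
  · rintro z ⟨⟨x, y⟩, hp, rfl⟩
    obtain ⟨-, e⟩ := huniq x y hp
    have h8 := mid_lem t x.1 y.1
    show mid t (x.1, y.1) - t • Ξ (mid t (x.1, y.1)) ∈ _ ∧ mid t (x.1, y.1) +
      (1 - t) • Ξ (mid t (x.1, y.1)) ∈ _
    rw [e, h8.1, h8.2]
    exact ⟨x.2, y.2⟩
  · rintro z ⟨⟨x, y⟩, hp, rfl⟩
    obtain ⟨-, e⟩ := huniq x y hp
    show ∀ w : V, A w ≤ A (mid t (x.1, y.1)) + t * (h (Ξ (mid t (x.1, y.1)) +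
      t⁻¹ • (w - mid t (x.1, y.1))) - h (Ξ (mid t (x.1, y.1)))) ∧ _
    show ∀ w : V, A w ≤ A (mid t (x.1, y.1)) + t * (h (Ξ (mid t (x.1, y.1)) +
      t⁻¹ • (w - mid t (x.1, y.1))) - h (Ξ (mid t (x.1, y.1)))) ∧
      A (mid t (x.1, y.1)) - (1 - t) * (h (Ξ (mid t (x.1, y.1)) -
      (1 - t)⁻¹ • (w - mid t (x.1, y.1))) - h (Ξ (mid t (x.1, y.1)))) ≤ A w
    rw [e]
    exact htwo x y hp

end Pool.Agent.Helper76K9.CL
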