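import Pool.Agent.Helper76K9.CL.Stm

/-!
# [K14V] The measure theoretic part of the inequality on `V` with the Lebesgue measure

Port of `Pool/Agent/W358/CDMeas.lean` (where the space is compact).
-/

set_option autoImplicit false

open MeasureTheory Set Filter Topology Metric
open scoped ENNReal NNReal

namespace Pool.Agent.Helper76K9.CL

namespace K14vL

/-- if the images of compact subsets of `Z` are controlled by the density `j`, then so are the
integrals over them -/
theorem image_integral {Z' : Set V}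
    {S : V → V} (hS : Continuous S) {j : V → ℝ≥0∞}
    (hK : ∀ K ⊆ Z', IsCompact K → volume (S '' K) ≤ ∫⁻ z in K, j z) {K : Set V}
    (hKZ : K ⊆ Z') (hKc : IsCompact K) {f : V → ℝ≥0∞} (hf : Measurable f) :
    ∫⁻ x in S '' K, f x ≤ ∫⁻ z, f (S z) ∂(((volume : Measure V).withDensity j).restrict K) := by
  have hSK : IsCompact (S '' K) := hKc.image hS
  have hle : (volume : Measure V).restrict (S '' K) ≤
      (((volume : Measure V).withDensity j).restrict K).map S := by
    rw [Measure.le_iff]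
    intro B hB
    rw [Measure.restrict_apply hB, Measure.map_apply hS.measurable hB,
      Measure.restrict_apply (hS.measurable hB)]
    have hBm : MeasurableSet (B ∩ S '' K) := hB.inter hSK.isClosed.measurableSet
    have hfin : volume (B ∩ S '' K) ≠ ∞ :=
      ((measure_mono inter_subset_right).trans_lt hSK.measure_lt_top).ne
    rw [hBm.measure_eq_iSup_isCompact_of_ne_top hfin]
    refine iSup_le fun C => iSup_le fun hCB => iSup_le fun hC => ?_
    have hKcl : IsCompact (K ∩ S ⁻¹' C) := hKc.inter_right (hC.isClosed.preimage hS)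
    have himg : S '' (K ∩ S ⁻¹' C) = C := by
      ext c
      constructor
      · rintro ⟨x, ⟨-, hx⟩, rfl⟩
        exact hx
      · intro hc
        obtain ⟨x, hxK, rfl⟩ := (hCB hc).2
        exact ⟨x, ⟨hxK, hc⟩, rfl⟩
    have h1 := hK (K ∩ S ⁻¹' C) (inter_subset_left.trans hKZ) hKcl
    rw [himg] at h1
    refine h1.trans ?_
    rw [← withDensity_apply _ hKcl.isClosed.measurableSet]
    apply measure_mono
    rintro x ⟨hxK, hxC⟩
    exact ⟨(hCB hxC).1, hxK⟩
  calc ∫⁻ x in S '' K, f x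
      ≤ ∫⁻ x, f x ∂((((volume : Measure V).withDensity j).restrict K).map S) :=
        lintegral_mono' hle le_rfl
    _ = ∫⁻ z, f (S z) ∂(((volume : Measure V).withDensity j).restrict K) :=
        lintegral_map hf hS.measurable

/-- bound for the density -/
theorem dens {μ ν : Measure V} [IsProbabilityMeasure μ] [IsFiniteMeasure ν]
    (hμ : μ ≪ volume) {Z Z' : Set V} (hZ' : MeasurableSet Z')
    (hZ'Z : Z' ⊆ Z) (hνZ' : ν Z'ᶜ = 0) {S : V → V} (hS : Continuous S)
    {j : V → ℝ≥0∞} (hj : Measurable j)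
    (hK : ∀ K ⊆ Z', IsCompact K → volume (S '' K) ≤ ∫⁻ z in K, j z)
    (hν : ∀ K ⊆ Z, IsCompact K → ν K ≤ μ (S '' K)) :
    ∀ᵐ z : V, ν.rnDeriv volume z ≤ μ.rnDeriv volume (S z) * j z := by
  classical
  set ρ : V → ℝ≥0∞ := μ.rnDeriv volume with hρ
  have hρm : Measurable ρ := Measure.measurable_rnDeriv _ _
  have hcomp : ∀ K ⊆ Z', IsCompact K → ν K ≤ ∫⁻ z in K, j z * ρ (S z) := by
    intro K hKZ hKc
    calc ν K ≤ μ (S '' K) := hν K (hKZ.trans hZ'Z) hKc
      _ = ∫⁻ x in S '' K, ρ x := (Measure.setLIntegral_rnDeriv hμ _).symm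
      _ ≤ ∫⁻ z, ρ (S z) ∂(((volume : Measure V).withDensity j).restrict K) :=
          image_integral hS hK hKZ hKc hρm
      _ = ∫⁻ z in K, (j * fun z => ρ (S z)) z :=
          setLIntegral_withDensity_eq_setLIntegral_mul volume hj (hρm.comp hS.measurable)
            hKc.isClosed.measurableSet
      _ = _ := rfl
  have hall : ∀ E, MeasurableSet E → ν E ≤ ∫⁻ z in E, j z * ρ (S z) := by
    intro E hE
    have h1 : ν E = ν (E ∩ Z') := by
      apply le_antisymm _ (measure_mono inter_subset_left)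
      calc ν E ≤ ν ((E ∩ Z') ∪ Z'ᶜ) := measure_mono fun x hx => by
            by_cases h : x ∈ Z'
            · exact Or.inl ⟨hx, h⟩
            · exact Or.inr h
        _ ≤ ν (E ∩ Z') + ν Z'ᶜ := measure_union_le _ _
        _ = ν (E ∩ Z') := by rw [hνZ', add_zero]
    rw [h1, (hE.inter hZ').measure_eq_iSup_isCompact_of_ne_top (measure_ne_top _ _)]
    refine iSup_le fun K => iSup_le fun hKE => iSup_le fun hKc => ?_
    refine (hcomp K (hKE.trans inter_subset_right) hKc).trans ?_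
    exact lintegral_mono_set (hKE.trans inter_subset_left)
  have hae : ν.rnDeriv volume ≤ᵐ[volume] fun z => j z * ρ (S z) := by
    apply ae_le_of_forall_setLIntegral_le_of_sigmaFinite (Measure.measurable_rnDeriv _ _)
    intro s hs _
    exact (Measure.setLIntegral_rnDeriv_le s).trans (hall s hs)
  filter_upwards [hae] with z hz
  rw [mul_comm] at hz
  exact hz

theorem pow_ineq {a b c : ℝ≥0∞} {t : ℝ} (ht : 0 < t) (hb0 : b ≠ 0) (hc0 : c ≠ 0)
    (hct : c ≠ ∞) (h : b ≤ a * c) : a ^ (-t) ≤ b ^ (-t) * c ^ t := by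
  have ha0 : a ≠ 0 := by
    rintro rfl
    rw [zero_mul] at h
    exact hb0 (le_antisymm h bot_le)
  have h1 : (a * c) ^ (-t) ≤ b ^ (-t) := by
    rw [ENNReal.rpow_neg, ENNReal.rpow_neg]
    exact ENNReal.inv_le_inv.mpr (ENNReal.rpow_le_rpow h ht.le)
  rw [ENNReal.mul_rpow_of_ne_zero ha0 hc0] at h1
  have h2 : c ^ (-t) * c ^ t = 1 := by
    rw [← ENNReal.rpow_add _ _ hc0 hct, neg_add_cancel, ENNReal.rpow_zero]
  calc a ^ (-t) = a ^ (-t) * (c ^ (-t) * c ^ t) := by rw [h2, mul_one]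
    _ = a ^ (-t) * c ^ (-t) * c ^ t := by rw [mul_assoc]
    _ ≤ b ^ (-t) * c ^ t := mul_le_mul_left h1 _

/-- `∫ ρ^{-1/N} dμ = ∫ ρ^{1-1/N} dm` for `μ = ρ m`, a probability measure -/
theorem negS_eq {μ : Measure V} [IsProbabilityMeasure μ] (hμ : μ ≪ volume) {N : ℝ} (hN : 1 < N) :
    negS volume N μ = ∫⁻ z, (μ.rnDeriv volume z) ^ (-(1 / N)) ∂μ := by
  have hmeas : Measurable fun z => (μ.rnDeriv volume z) ^ (-(1 / N)) :=
    (Measure.measurable_rnDeriv _ _).pow_const _
  have h2 : ∫⁻ z, (μ.rnDeriv volume z) ^ (-(1 / N)) ∂μ =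
      ∫⁻ z, μ.rnDeriv volume z * (μ.rnDeriv volume z) ^ (-(1 / N)) := by
    conv_lhs => rw [← Measure.withDensity_rnDeriv_eq μ volume hμ]
    rw [lintegral_withDensity_eq_lintegral_mul _ (Measure.measurable_rnDeriv _ _)]
    · have e : ((volume : Measure V).withDensity (μ.rnDeriv volume)).rnDeriv volume =
          μ.rnDeriv volume := by
        rw [Measure.withDensity_rnDeriv_eq μ volume hμ]
      rw [e]
      rfl
    · rw [Measure.withDensity_rnDeriv_eq μ volume hμ]
      exact hmeas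
  rw [h2]
  have hfin : ∀ᵐ z : V, μ.rnDeriv volume z < ∞ := Measure.rnDeriv_lt_top μ volume
  have hN1 : 1 / N < 1 := by
    rw [div_lt_one (by linarith)]
    exact hN
  refine lintegral_congr_ae ?_
  filter_upwards [hfin] with z hz
  generalize μ.rnDeriv volume z = r at hz
  rcases eq_or_ne r 0 with h0 | h0
  · subst h0
    rw [zero_mul, ENNReal.zero_rpow_of_pos (by linarith)]
  · rw [sub_eq_add_neg, ENNReal.rpow_add _ _ h0 hz.ne, ENNReal.rpow_one]

end K14vL

open K14vL in
theorem k14v : S_K14V := by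
  intro μ₀ μ₁ hμ₀ hμ₁ hac₀ hac₁ q hq G hG Z D hZ hZD S₀ S₁ hS₀ hS₁ hGae j₀ j₁
    hj₀ hj₁ hj₀f hj₁f hK₀ hK₁ hnull T₀ T₁ N hN hT
  have hqf : IsProbabilityMeasure q := by
    constructor
    have h1 : (q.map Prod.fst) univ = 1 := by rw [hq.1]; exact measure_univ
    rwa [Measure.map_apply measurable_fst MeasurableSet.univ, preimage_univ] at h1
  set ν : Measure V := q.map G with hν
  have hνf : IsProbabilityMeasure ν := Measure.isProbabilityMeasure_map hG.aemeasurable
  -- compact sets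
  have hC₀ : ∀ K ⊆ Z, IsCompact K → ν K ≤ μ₀ (S₀ '' K) := by
    intro K hKZ hK
    have hSK : IsCompact (S₀ '' K) := hK.image hS₀
    rw [hν, Measure.map_apply hG hK.isClosed.measurableSet, ← hq.1,
      Measure.map_apply measurable_fst hSK.isClosed.measurableSet]
    apply measure_mono_ae
    filter_upwards [hGae] with p hp hpK
    exact ⟨G p, hpK, hp.2.1⟩
  have hC₁ : ∀ K ⊆ Z, IsCompact K → ν K ≤ μ₁ (S₁ '' K) := by
    intro K hKZ hK
    have hSK : IsCompact (S₁ '' K) := hK.image hS₁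
    rw [hν, Measure.map_apply hG hK.isClosed.measurableSet, ← hq.2,
      Measure.map_apply measurable_snd hSK.isClosed.measurableSet]
    apply measure_mono_ae
    filter_upwards [hGae] with p hp hpK
    exact ⟨G p, hpK, hp.2.2⟩
  have hνZ : ν Zᶜ = 0 := by
    rw [hν, Measure.map_apply hG hZ.measurableSet.compl]
    have : ∀ᵐ p ∂q, p ∉ G ⁻¹' Zᶜ := by
      filter_upwards [hGae] with p hp
      exact fun h => h hp.1
    exact measure_eq_zero_iff_ae_notMem.mpr this
  have hac : ν ≪ volume := by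
    apply Measure.AbsolutelyContinuous.mk
    intro E hE hmE
    have h1 : ν E ≤ ν (E ∩ Z) + ν Zᶜ := by
      refine (measure_mono fun x hx => ?_).trans (measure_union_le _ _)
      by_cases h : x ∈ Z
      · exact Or.inl ⟨hx, h⟩
      · exact Or.inr h
    rw [hνZ, add_zero, (hE.inter hZ.measurableSet).measure_eq_iSup_isCompact_of_ne_top
      (measure_ne_top _ _)] at h1
    refine le_antisymm (h1.trans ?_) bot_le
    refine iSup_le fun K => iSup_le fun hKE => iSup_le fun hKc => ?_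
    have h2 : (volume : Measure V) K = 0 := measure_mono_null (hKE.trans inter_subset_left) hmE
    have h3 := hnull K (hKE.trans inter_subset_right) hKc h2
    exact (hC₀ K (hKE.trans inter_subset_right) hKc).trans (hac₀ h3).le
  -- a measurable subset of `Z ∩ D`
  set Nn := toMeasurable (volume : Measure V) (Z \ D) with hNn
  have hNn0 : (volume : Measure V) Nn = 0 := by rw [hNn, measure_toMeasurable, hZD]
  set Z' := Z \ Nn with hZ'
  have hZ'm : MeasurableSet Z' := hZ.measurableSet.diff (measurableSet_toMeasurable _ _)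
  have hZ'Z : Z' ⊆ Z := sdiff_subset
  have hZ'D : Z' ⊆ Z ∩ D := by
    rintro x ⟨hx, hxN⟩
    refine ⟨hx, ?_⟩
    by_contra hxD
    exact hxN (subset_toMeasurable _ _ ⟨hx, hxD⟩)
  have hνZ' : ν Z'ᶜ = 0 := by
    have : Z'ᶜ ⊆ Zᶜ ∪ Nn := by
      intro x hx
      by_cases h : x ∈ Z
      · right
        by_contra hN
        exact hx ⟨h, hN⟩
      · exact Or.inl h
    exact measure_mono_null this (measure_union_null hνZ (hac hNn0))
  have D₀ := dens hac₀ hZ'm hZ'Z hνZ' hS₀ hj₀
    (fun K hK hKc => hK₀ K (hK.trans hZ'D) hKc) hC₀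
  have D₁ := dens hac₁ hZ'm hZ'Z hνZ' hS₁ hj₁
    (fun K hK hKc => hK₁ K (hK.trans hZ'D) hKc) hC₁
  have hpos : ∀ᵐ z ∂ν, 0 < ν.rnDeriv volume z := Measure.rnDeriv_pos hac
  have hfin : ∀ᵐ z : V, ν.rnDeriv volume z < ∞ := Measure.rnDeriv_lt_top ν volume
  have ht : 0 < 1 / N := by
    have : 0 < N := by linarith
    positivity
  have hpt : ∀ᵐ p ∂q, T₀ * (μ₀.rnDeriv volume p.1) ^ (-(1 / N)) +
      T₁ * (μ₁.rnDeriv volume p.2) ^ (-(1 / N)) ≤ (ν.rnDeriv volume (G p)) ^ (-(1 / N)) := by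
    have a1 := ae_of_ae_map hG.aemeasurable hpos
    have a3 := ae_of_ae_map hG.aemeasurable (hac.ae_le D₀)
    have a4 := ae_of_ae_map hG.aemeasurable (hac.ae_le D₁)
    have a5 := ae_of_ae_map hG.aemeasurable (hac.ae_le hT)
    filter_upwards [hGae, a1, a3, a4, a5] with p b0 b1 c3 c4 b5
    obtain ⟨hz, hs0, hs1⟩ := b0
    rw [hs0] at c3
    rw [hs1] at c4
    have hj0 : j₀ (G p) ≠ 0 := by
      intro h
      rw [h, mul_zero] at c3
      exact absurd c3 (not_le.mpr b1)
    have hj1 : j₁ (G p) ≠ 0 := by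
      intro h
      rw [h, mul_zero] at c4
      exact absurd c4 (not_le.mpr b1)
    have c5 := b5 hz hj0 hj1
    have d0 := pow_ineq ht b1.ne' hj0 (hj₀f _) c3
    have d1 := pow_ineq ht b1.ne' hj1 (hj₁f _) c4
    calc T₀ * (μ₀.rnDeriv volume p.1) ^ (-(1 / N)) + T₁ * (μ₁.rnDeriv volume p.2) ^ (-(1 / N))
        ≤ T₀ * ((ν.rnDeriv volume (G p)) ^ (-(1 / N)) * j₀ (G p) ^ (1 / N)) +
          T₁ * ((ν.rnDeriv volume (G p)) ^ (-(1 / N)) * j₁ (G p) ^ (1 / N)) :=
          add_le_add (mul_le_mul_right d0 _) (mul_le_mul_right d1 _)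
      _ = (ν.rnDeriv volume (G p)) ^ (-(1 / N)) *
          (T₀ * j₀ (G p) ^ (1 / N) + T₁ * j₁ (G p) ^ (1 / N)) := by ring
      _ ≤ (ν.rnDeriv volume (G p)) ^ (-(1 / N)) * 1 := mul_le_mul_right c5 _
      _ = _ := mul_one _
  have hm : ∀ μ : Measure V, Measurable fun z => (μ.rnDeriv volume z) ^ (-(1 / N)) := fun μ =>
    (Measure.measurable_rnDeriv _ _).pow_const _
  have e₀ : negS volume N μ₀ = ∫⁻ p, (μ₀.rnDeriv volume p.1) ^ (-(1 / N)) ∂q := by
    rw [negS_eq hac₀ hN, ← lintegral_map (hm μ₀) measurable_fst, hq.1]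
  have e₁ : negS volume N μ₁ = ∫⁻ p, (μ₁.rnDeriv volume p.2) ^ (-(1 / N)) ∂q := by
    rw [negS_eq hac₁ hN, ← lintegral_map (hm μ₁) measurable_snd, hq.2]
  have m₀ : Measurable fun p : V × V => (μ₀.rnDeriv volume p.1) ^ (-(1 / N)) :=
    (hm μ₀).comp measurable_fst
  have m₁ : Measurable fun p : V × V => (μ₁.rnDeriv volume p.2) ^ (-(1 / N)) :=
    (hm μ₁).comp measurable_snd
  calc T₀ * negS volume N μ₀ + T₁ * negS volume N μ₁
      = ∫⁻ p, (T₀ * (μ₀.rnDeriv volume p.1) ^ (-(1 / N)) +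
          T₁ * (μ₁.rnDeriv volume p.2) ^ (-(1 / N))) ∂q := by
        rw [lintegral_add_left (m₀.const_mul _), lintegral_const_mul _ m₀,
          lintegral_const_mul _ m₁, e₀, e₁]
    _ ≤ ∫⁻ p, (ν.rnDeriv volume (G p)) ^ (-(1 / N)) ∂q := lintegral_mono_ae hpt
    _ = ∫⁻ z, (ν.rnDeriv volume z) ^ (-(1 / N)) ∂ν := (lintegral_map (hm ν) hG).symm
    _ = negS volume N ν := (negS_eq hac hN).symm

end Pool.Agent.Helper76K9.CL
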