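import Pool.Agent.Helper76K9.CL.Stm

/-! # LFT: lifting of maps from a half space minus a point to the punctured quotient -/

set_option autoImplicit false

open MeasureTheory Set Filter Topology Metric
open scoped ENNReal NNReal

namespace Pool.Agent.Helper76K9.CL

namespace LftL

theorem pr_neg (v : V) : pr (-v) = pr v := pr_eq.2 (Or.inr (neg_neg v).symm)

theorem continuous_pr : Continuous pr := by
  refine (LipschitzWith.of_dist_le_mul (K := 1) fun v w => ?_).continuous
  rw [dist_pr, dist_eq_norm, NNReal.coe_one, one_mul]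
  exact min_le_left _ _

theorem isOpenMap_pr : IsOpenMap pr := by
  intro U hU
  rw [Metric.isOpen_iff]
  rintro _ ⟨v, hv, rfl⟩
  obtain ⟨ε, hε, hb⟩ := Metric.isOpen_iff.1 hU v hv
  refine ⟨ε, hε, ?_⟩
  intro x hx
  obtain ⟨w, rfl⟩ := pr_surjective x
  rw [Metric.mem_ball, dist_pr] at hx
  rcases min_lt_iff.1 hx with h | h
  · exact ⟨w, hb (by rwa [mem_ball, dist_eq_norm]), rfl⟩
  · refine ⟨-w, hb ?_, pr_neg w⟩
    rw [mem_ball, dist_eq_norm]
    rwa [show -w - v = -(w + v) by abel, norm_neg]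

theorem cov : IsCoveringMapOn pr {x | x ≠ pr 0} := by
  have hq : IsQuotientMap pr := isOpenMap_pr.isQuotientMap continuous_pr pr_surjective
  have hm : ∀ v : V, (-1 : ℤˣ) • v = -v := fun v => by
    rw [Units.smul_def]
    simp
  have hG : ∀ {e₁ e₂ : V}, pr e₁ = pr e₂ ↔ e₁ ∈ MulAction.orbit ℤˣ e₂ := by
    intro e₁ e₂
    rw [pr_eq, MulAction.mem_orbit_iff]
    constructor
    · rintro (h | h)
      · exact ⟨1, by rw [one_smul, h]⟩
      · exact ⟨-1, by rw [hm, h, neg_neg]⟩
    · rintro ⟨u, rfl⟩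
      rcases Int.units_eq_one_or u with rfl | rfl
      · left; rw [one_smul]
      · right; rw [hm, neg_neg]
  have h1 := hq.isCoveringMapOn_of_smul_disjoint hG (fun e => by
    by_cases he : e = 0
    · refine ⟨univ, univ_mem, fun g _ => ?_⟩
      rw [he, smul_zero]
    · refine ⟨ball e ‖e‖, ball_mem_nhds e (norm_pos_iff.2 he), fun g hg => ?_⟩
      rcases Int.units_eq_one_or g with rfl | rfl
      · rw [one_smul]
      · exfalso
        obtain ⟨w, ⟨u, hu, huw⟩, hw⟩ := hg
        have huw' : -u = w := by rw [← hm u]; exact huw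
        rw [mem_ball, dist_eq_norm] at hu hw
        rw [← huw'] at hw
        have h2 : ‖e + e‖ = 2 * ‖e‖ := by
          rw [← two_smul ℝ e, norm_smul]
          norm_num
        have h3 : ‖e + e‖ ≤ ‖u - e‖ + ‖-u - e‖ := by
          have := norm_add_le (u - e) (-u - e)
          rwa [show u - e + (-u - e) = -(e + e) by abel, norm_neg] at this
        linarith)
  refine h1.mono ?_
  intro x hx
  obtain ⟨v, rfl⟩ := pr_surjective x
  have hv : v ≠ 0 := fun h => hx (by rw [h])
  refine ⟨v, ?_, rfl⟩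
  show MulAction.stabilizer ℤˣ v = ⊥
  rw [eq_bot_iff]
  intro g hg
  rw [MulAction.mem_stabilizer_iff] at hg
  rw [Subgroup.mem_bot]
  rcases Int.units_eq_one_or g with rfl | rfl
  · rfl
  · exfalso
    rw [hm] at hg
    exact hv (self_eq_neg.1 hg.symm)

theorem lift_star (U : Set V) (hU : IsOpen U) (c : V) (hc : c ∈ U) (hs : StarConvex ℝ c U)
    (f : V → Q) (hf : ContinuousOn f U) (h0 : ∀ v ∈ U, f v ≠ pr 0) :
    ∃ F : V → V, ContinuousOn F U ∧ ∀ v ∈ U, pr (F v) = f v := by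
  classical
  have : ContractibleSpace U := hs.contractibleSpace ⟨c, hc⟩
  have : LocallyPathConnectedSpace U := hU.locallyPathConnectedSpace
  obtain ⟨e0, he0⟩ := pr_surjective (f c)
  obtain ⟨F, ⟨-, hF⟩, -⟩ := cov.existsUnique_continuousMap_lifts (A := U)
    ⟨U.restrict f, continuousOn_iff_continuous_restrict.1 hf⟩ (a₀ := ⟨c, hc⟩) (e₀ := e0) he0
    (fun a => h0 a a.2)
  refine ⟨fun v => if h : v ∈ U then F ⟨v, h⟩ else 0, ?_, ?_⟩
  · rw [continuousOn_iff_continuous_restrict]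
    convert F.continuous using 1
    ext v
    simp
  · intro v hv
    simp only [hv, dif_pos]
    exact congrFun hF ⟨v, hv⟩

/-- the closed ray `p + [0, ∞) d` -/
def ray (p d : V) : Set V := {v | ∃ s : ℝ, 0 ≤ s ∧ v = p + s • d}

theorem ray_closed (p d : V) (hd : d ≠ 0) : IsClosed (ray p d) := by
  have h1 : ray p d = (fun s : ℝ => p + s • d) '' Ici 0 := by
    ext v
    constructor
    · rintro ⟨s, hs, rfl⟩
      exact ⟨s, hs, rfl⟩
    · rintro ⟨s, hs, rfl⟩
      exact ⟨s, hs, rfl⟩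
  rw [h1]
  have h2 : IsClosedEmbedding (fun s : ℝ => p + s • d) :=
    (Homeomorph.addLeft p).isClosedEmbedding.comp (isClosedEmbedding_smul_left hd)
  exact h2.isClosedMap _ isClosed_Ici

theorem star_ray (i : Fin 3) (p d : V) (hp : 0 < p i) (hdi : d i = 0) (hd : d ≠ 0) :
    StarConvex ℝ (p - d) ({v | 0 < v i} \ ray p d) := by
  intro v hv a b ha hb hab
  refine ⟨?_, ?_⟩
  · show 0 < (a • (p - d) + b • v) i
    simp only [Pi.add_apply, Pi.smul_apply, Pi.sub_apply, hdi, sub_zero, smul_eq_mul]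
    have h1 : 0 < v i := hv.1
    rcases eq_or_lt_of_le ha with h | h
    · rw [← h] at hab ⊢
      have hb1 : b = 1 := by linarith
      rw [hb1]
      linarith
    · have := mul_pos h hp
      have := mul_nonneg hb h1.le
      linarith
  · rintro ⟨s, hs, h⟩
    have hb' : b • v = b • p + (s + a) • d := by
      have ha' : a = 1 - b := by linarith
      rw [ha'] at h ⊢
      have : b • v = p + s • d - (1 - b) • (p - d) := by rw [← h]; abel
      rw [this]
      module
    rcases eq_or_lt_of_le hb with h0 | h0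
    · rw [← h0, zero_smul, zero_smul, zero_add] at hb'
      have ha1 : a = 1 := by linarith
      rcases smul_eq_zero.1 hb'.symm with h1 | h1
      · linarith
      · exact hd h1
    · apply hv.2
      refine ⟨(s + a) / b, by positivity, ?_⟩
      have : v = b⁻¹ • (b • v) := by rw [smul_smul, inv_mul_cancel₀ h0.ne', one_smul]
      rw [this, hb', smul_add, smul_smul, smul_smul, inv_mul_cancel₀ h0.ne', one_smul]
      congr 2
      rw [div_eq_inv_mul]

theorem pre_W (i k : Fin 3) (hik : k ≠ i) (p : V) (hp : 0 < p i) :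
    IsPreconnected {v : V | 0 < v i ∧ (v i ≠ p i ∨ v k ≠ p k)} := by
  have hc : ∀ (l : Fin 3) (r : ℝ), Convex ℝ {v : V | r < v l} := fun l r =>
    convex_halfSpace_gt (LinearMap.proj l : V →ₗ[ℝ] ℝ).isLinear r
  have hc' : ∀ (l : Fin 3) (r : ℝ), Convex ℝ {v : V | v l < r} := fun l r =>
    convex_halfSpace_lt (LinearMap.proj l : V →ₗ[ℝ] ℝ).isLinear r
  have hA : IsPreconnected {v : V | p i < v i} := (hc i (p i)).isPreconnected
  have hB : IsPreconnected ({v : V | 0 < v i} ∩ {v : V | p k < v k}) :=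
    ((hc i 0).inter (hc k (p k))).isPreconnected
  have hC : IsPreconnected ({v : V | 0 < v i} ∩ {v : V | v i < p i}) :=
    ((hc i 0).inter (hc' i (p i))).isPreconnected
  have hD : IsPreconnected ({v : V | 0 < v i} ∩ {v : V | v k < p k}) :=
    ((hc i 0).inter (hc' k (p k))).isPreconnected
  obtain ⟨u, hu⟩ : ∃ u : ℝ → ℝ → V, (∀ a b, u a b i = a) ∧ ∀ a b, u a b k = b := by
    refine ⟨fun a b l => if l = i then a else b, fun a b => ?_, fun a b => ?_⟩
    · simp
    · simp [hik]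
  have h1 := hA.union (u (p i + 1) (p k + 1)) (by
      show p i < u (p i + 1) (p k + 1) i
      rw [hu.1]; linarith) (by
      refine ⟨?_, ?_⟩
      · show 0 < u (p i + 1) (p k + 1) i
        rw [hu.1]; linarith
      · show p k < u (p i + 1) (p k + 1) k
        rw [hu.2]; linarith) hB
  have h2 := h1.union (u (p i / 2) (p k + 1)) (by
      right
      refine ⟨?_, ?_⟩
      · show 0 < u (p i / 2) (p k + 1) i
        rw [hu.1]; linarith
      · show p k < u (p i / 2) (p k + 1) k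
        rw [hu.2]; linarith) (by
      refine ⟨?_, ?_⟩
      · show 0 < u (p i / 2) (p k + 1) i
        rw [hu.1]; linarith
      · show u (p i / 2) (p k + 1) i < p i
        rw [hu.1]; linarith) hC
  have h3 := h2.union (u (p i / 2) (p k - 1)) (by
      right
      refine ⟨?_, ?_⟩
      · show 0 < u (p i / 2) (p k - 1) i
        rw [hu.1]; linarith
      · show u (p i / 2) (p k - 1) i < p i
        rw [hu.1]; linarith) (by
      refine ⟨?_, ?_⟩
      · show 0 < u (p i / 2) (p k - 1) i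
        rw [hu.1]; linarith
      · show u (p i / 2) (p k - 1) k < p k
        rw [hu.2]; linarith) hD
  convert h3 using 1
  ext v
  simp only [mem_union, mem_inter_iff, mem_setOf_eq]
  constructor
  · rintro ⟨h, h' | h'⟩
    · rcases lt_or_gt_of_ne h' with h'' | h''
      · exact Or.inl (Or.inr ⟨h, h''⟩)
      · exact Or.inl (Or.inl (Or.inl h''))
    · rcases lt_or_gt_of_ne h' with h'' | h''
      · exact Or.inr ⟨h, h''⟩
      · exact Or.inl (Or.inl (Or.inr ⟨h, h''⟩))
  · rintro (((h | h) | h) | h)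
    · exact ⟨hp.trans h, Or.inl h.ne'⟩
    · exact ⟨h.1, Or.inr h.2.ne'⟩
    · exact ⟨h.1, Or.inl h.2.ne⟩
    · exact ⟨h.1, Or.inr h.2.ne⟩

theorem sign_const (W : Set V) (hW : IsPreconnected W) (F G : V → V) (hF : ContinuousOn F W)
    (hG : ContinuousOn G W) (h0 : ∀ v ∈ W, F v ≠ 0) (h : ∀ v ∈ W, G v = F v ∨ G v = -F v) :
    (∀ v ∈ W, G v = F v) ∨ (∀ v ∈ W, G v = -F v) := by
  by_contra hcon
  push Not at hcon
  obtain ⟨⟨a, ha, ha'⟩, ⟨b, hb, hb'⟩⟩ := hcon
  have ha2 : G a = -F a := (h a ha).resolve_left ha'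
  have hb2 : G b = F b := (h b hb).resolve_right hb'
  have hc : ContinuousOn (fun v => ‖G v - F v‖ - ‖G v + F v‖) W :=
    ((hG.sub hF).norm).sub ((hG.add hF).norm)
  have hn : ∀ v : V, v ≠ 0 → 0 < ‖v + v‖ := fun v hv => by
    rw [norm_pos_iff, ← two_smul ℝ v]
    exact smul_ne_zero two_ne_zero hv
  have h1 : 0 < ‖G a - F a‖ - ‖G a + F a‖ := by
    rw [ha2, neg_add_cancel, norm_zero, sub_zero, ← neg_add', norm_neg]
    exact hn _ (h0 a ha)
  have h2 : ‖G b - F b‖ - ‖G b + F b‖ < 0 := by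
    rw [hb2, sub_self, norm_zero, zero_sub]
    exact neg_lt_zero.2 (hn _ (h0 b hb))
  obtain ⟨c, hc1, hc2⟩ := hW.intermediate_value hb ha hc (show (0 : ℝ) ∈ _ from ⟨h2.le, h1.le⟩)
  simp only at hc2
  rcases h c hc1 with h3 | h3
  · rw [h3, sub_self, norm_zero, zero_sub] at hc2
    exact (hn _ (h0 c hc1)).ne' (neg_eq_zero.1 hc2)
  · rw [h3, neg_add_cancel, norm_zero, sub_zero, ← neg_add', norm_neg] at hc2
    exact (hn _ (h0 c hc1)).ne' hc2

end LftL

open LftL in
theorem lft : S_LFT := by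
  classical
  intro i p hp f hf hf0
  obtain ⟨j, k, hji, hki, hall⟩ : ∃ j k : Fin 3, j ≠ i ∧ k ≠ i ∧
      ∀ l : Fin 3, l = i ∨ l = j ∨ l = k := by
    fin_cases i
    · exact ⟨1, 2, by decide, by decide, by decide⟩
    · exact ⟨0, 2, by decide, by decide, by decide⟩
    · exact ⟨0, 1, by decide, by decide, by decide⟩
  have hjk : k ≠ j := by
    rintro rfl
    have h1 := hall 0
    have h2 := hall 1
    have h3 := hall 2
    omega
  obtain ⟨d, hdj, hdi, hdk⟩ : ∃ d : V, d j = 1 ∧ d i = 0 ∧ d k = 0 := by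
    refine ⟨fun l => if l = j then 1 else 0, by simp, ?_, ?_⟩
    · simp [hji.symm]
    · simp [hjk]
  have hd : d ≠ 0 := by
    intro h
    rw [h] at hdj
    simp at hdj
  have hd' : -d ≠ 0 := neg_ne_zero.2 hd
  have hH : IsOpen {v : V | 0 < v i} := isOpen_lt continuous_const (continuous_apply i)
  have hU1 : IsOpen ({v : V | 0 < v i} \ ray p d) := hH.sdiff (ray_closed p d hd)
  have hU2 : IsOpen ({v : V | 0 < v i} \ ray p (-d)) := hH.sdiff (ray_closed p (-d) hd')
  have hs1 := star_ray i p d hp hdi hd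
  have hs2 := star_ray i p (-d) hp (by rw [Pi.neg_apply, hdi, neg_zero]) hd'
  have hpr1 : p ∈ ray p d := ⟨0, le_refl _, by rw [zero_smul, add_zero]⟩
  have hpr2 : p ∈ ray p (-d) := ⟨0, le_refl _, by rw [zero_smul, add_zero]⟩
  have hsub1 : ({v : V | 0 < v i} \ ray p d) ⊆ {v | 0 < v i} \ {p} := by
    rintro v ⟨h1, h2⟩
    exact ⟨h1, fun h => h2 (by rw [mem_singleton_iff.1 h]; exact hpr1)⟩
  have hsub2 : ({v : V | 0 < v i} \ ray p (-d)) ⊆ {v | 0 < v i} \ {p} := by
    rintro v ⟨h1, h2⟩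
    exact ⟨h1, fun h => h2 (by rw [mem_singleton_iff.1 h]; exact hpr2)⟩
  have hc1 : p - d ∈ ({v : V | 0 < v i} \ ray p d) := by
    refine ⟨?_, ?_⟩
    · show 0 < (p - d) i
      rw [Pi.sub_apply, hdi, sub_zero]
      exact hp
    · rintro ⟨s, hs, h⟩
      have := congrFun h j
      simp only [Pi.sub_apply, Pi.add_apply, Pi.smul_apply, hdj, smul_eq_mul, mul_one] at this
      linarith
  have hc2 : p - -d ∈ ({v : V | 0 < v i} \ ray p (-d)) := by
    refine ⟨?_, ?_⟩
    · show 0 < (p - -d) i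
      rw [Pi.sub_apply, Pi.neg_apply, hdi, neg_zero, sub_zero]
      exact hp
    · rintro ⟨s, hs, h⟩
      have := congrFun h j
      simp only [Pi.sub_apply, Pi.add_apply, Pi.smul_apply, Pi.neg_apply, hdj, smul_eq_mul] at this
      linarith
  obtain ⟨F1, hF1, hF1'⟩ := lift_star _ hU1 _ hc1 hs1 f (hf.mono hsub1) fun v hv => hf0 v (hsub1 hv)
  obtain ⟨F2, hF2, hF2'⟩ := lift_star _ hU2 _ hc2 hs2 f (hf.mono hsub2) fun v hv => hf0 v (hsub2 hv)
  -- the intersection
  have hmem1 : ∀ v : V, v ∈ ray p d → v i = p i ∧ v k = p k ∧ p j ≤ v j := by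
    rintro v ⟨s, hs, rfl⟩
    simp only [Pi.add_apply, Pi.smul_apply, hdj, hdi, hdk, smul_eq_mul, mul_one, mul_zero, add_zero]
    exact ⟨trivial, trivial, by linarith⟩
  have hmem2 : ∀ v : V, v ∈ ray p (-d) → v i = p i ∧ v k = p k ∧ v j ≤ p j := by
    rintro v ⟨s, hs, rfl⟩
    simp only [Pi.add_apply, Pi.smul_apply, Pi.neg_apply, hdj, hdi, hdk, smul_eq_mul, mul_neg,
      mul_one, mul_zero, add_zero, neg_zero]
    exact ⟨trivial, trivial, by linarith⟩
  have hWsub : {v : V | 0 < v i ∧ (v i ≠ p i ∨ v k ≠ p k)} ⊆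
      ({v : V | 0 < v i} \ ray p d) ∩ ({v : V | 0 < v i} \ ray p (-d)) := by
    rintro v ⟨h1, h2⟩
    refine ⟨⟨h1, fun h => ?_⟩, ⟨h1, fun h => ?_⟩⟩
    · have := hmem1 v h
      rcases h2 with h2 | h2
      · exact h2 this.1
      · exact h2 this.2.1
    · have := hmem2 v h
      rcases h2 with h2 | h2
      · exact h2 this.1
      · exact h2 this.2.1
  have hext : ∀ (v w : V), v i = w i → v j = w j → v k = w k → v = w := by
    intro v w h1 h2 h3
    funext l
    rcases hall l with rfl | rfl | rfl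
    · exact h1
    · exact h2
    · exact h3
  have hray1 : ∀ v : V, v i = p i → v k = p k → p j ≤ v j → v ∈ ray p d := by
    intro v h1 h2 h3
    refine ⟨v j - p j, by linarith, hext _ _ ?_ ?_ ?_⟩
    · simp [hdi, h1]
    · simp [hdj]
    · simp [hdk, h2]
  have hray2 : ∀ v : V, v i = p i → v k = p k → v j ≤ p j → v ∈ ray p (-d) := by
    intro v h1 h2 h3
    refine ⟨p j - v j, by linarith, hext _ _ ?_ ?_ ?_⟩
    · simp [hdi, h1]
    · simp [hdj]
    · simp [hdk, h2]
  have hWsup : ({v : V | 0 < v i} \ ray p d) ∩ ({v : V | 0 < v i} \ ray p (-d)) ⊆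
      {v : V | 0 < v i ∧ (v i ≠ p i ∨ v k ≠ p k)} := by
    rintro v ⟨⟨h1, h2⟩, ⟨-, h3⟩⟩
    refine ⟨h1, ?_⟩
    by_contra hcon
    push Not at hcon
    rcases le_total (p j) (v j) with h | h
    · exact h2 (hray1 v hcon.1 hcon.2 h)
    · exact h3 (hray2 v hcon.1 hcon.2 h)
  have hne : ∀ v ∈ {v : V | 0 < v i ∧ (v i ≠ p i ∨ v k ≠ p k)}, F1 v ≠ 0 := by
    intro v hv h
    have h1 := hF1' v (hWsub hv).1
    rw [h] at h1
    exact hf0 v (hsub1 (hWsub hv).1) h1.symm
  have hpm := sign_const _ (pre_W i k hki p hp) F1 F2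
    (hF1.mono fun v hv => (hWsub hv).1) (hF2.mono fun v hv => (hWsub hv).2) hne (by
      intro v hv
      have h1 := hF1' v (hWsub hv).1
      have h2 := hF2' v (hWsub hv).2
      exact pr_eq.1 (h1.trans h2.symm))
  obtain ⟨F3, hF3, hF3', hF13⟩ : ∃ F3 : V → V, ContinuousOn F3 ({v : V | 0 < v i} \ ray p (-d)) ∧
      (∀ v ∈ ({v : V | 0 < v i} \ ray p (-d)), pr (F3 v) = f v) ∧
      ∀ v ∈ ({v : V | 0 < v i} \ ray p d) ∩ ({v : V | 0 < v i} \ ray p (-d)), F3 v = F1 v := by
    rcases hpm with h | h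
    · exact ⟨F2, hF2, hF2', fun v hv => h v (hWsup hv)⟩
    · refine ⟨fun v => -F2 v, hF2.neg, fun v hv => ?_, fun v hv => ?_⟩
      · rw [pr_neg]
        exact hF2' v hv
      · show -F2 v = F1 v
        rw [h v (hWsup hv), neg_neg]
  have hcov : ∀ v ∈ ({v : V | 0 < v i} \ {p}), v ∉ ({v : V | 0 < v i} \ ray p d) →
      v ∈ ({v : V | 0 < v i} \ ray p (-d)) := by
    rintro v ⟨h1, h2⟩ h3
    refine ⟨h1, fun h4 => ?_⟩
    have h5 : v ∈ ray p d := by
      by_contra h6
      exact h3 ⟨h1, h6⟩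
    have h6 := hmem1 v h5
    have h7 := hmem2 v h4
    exact h2 (hext v p h6.1 (le_antisymm h7.2.2 h6.2.2) h6.2.1)
  refine ⟨fun v => if v ∈ ({v : V | 0 < v i} \ ray p d) then F1 v else F3 v, ?_, ?_⟩
  · intro v hv
    by_cases h1 : v ∈ ({v : V | 0 < v i} \ ray p d)
    · have h2 : ContinuousAt F1 v := hF1.continuousAt (hU1.mem_nhds h1)
      refine (h2.congr ?_).continuousWithinAt
      filter_upwards [hU1.mem_nhds h1] with w hw
      rw [if_pos hw]
    · have h2 := hcov v hv h1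
      have h3 : ContinuousAt F3 v := hF3.continuousAt (hU2.mem_nhds h2)
      refine (h3.congr ?_).continuousWithinAt
      filter_upwards [hU2.mem_nhds h2] with w hw
      split_ifs with h4
      · exact hF13 w ⟨h4, hw⟩
      · rfl
  · intro v hv
    by_cases h1 : v ∈ ({v : V | 0 < v i} \ ray p d)
    · simp only [if_pos h1]
      exact hF1' v h1
    · simp only [if_neg h1]
      exact hF3' v (hcov v hv h1)

end Pool.Agent.Helper76K9.CL
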