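import Pool.Agent.Helper76K9.CL.Cdv

/-!
# Displacement convexity for the sup norm: the limit
-/

set_option autoImplicit false

open MeasureTheory Set Filter Topology Metric
open scoped ENNReal NNReal

namespace Pool.Agent.Helper76K9.CL

namespace LimL

theorem integ {R : ℝ} {r : Measure (V × V)} [IsProbabilityMeasure r]
    (hr : r (closedBall 0 R ×ˢ closedBall 0 R)ᶜ = 0) {g : V × V → ℝ} (hg : Continuous g) :
    Integrable g r := by
  have hc : IsCompact ((closedBall (0 : V) R) ×ˢ (closedBall (0 : V) R)) :=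
    (isCompact_closedBall 0 R).prod (isCompact_closedBall 0 R)
  have h1 : IntegrableOn g ((closedBall (0 : V) R) ×ˢ (closedBall (0 : V) R)) r :=
    hg.continuousOn.integrableOn_compact hc
  have h2 : r.restrict ((closedBall (0 : V) R) ×ˢ (closedBall (0 : V) R)) = r := by
    rw [Measure.restrict_eq_self_of_ae_mem]
    rw [ae_iff]
    exact hr
  rwa [IntegrableOn, h2] at h1

theorem cost_eq {R : ℝ} {r : Measure (V × V)} [IsProbabilityMeasure r]
    (hr : r (closedBall 0 R ×ˢ closedBall 0 R)ᶜ = 0) :
    cost r = ENNReal.ofReal (∫ p, ‖p.2 - p.1‖ ^ 2 ∂r) := by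
  have h1 : (fun p : V × V => edist p.1 p.2 ^ 2) =
      fun p : V × V => ENNReal.ofReal (‖p.2 - p.1‖ ^ 2) := by
    funext p
    rw [edist_dist, ← ENNReal.ofReal_pow dist_nonneg, dist_comm, dist_eq_norm]
  rw [cost, h1, ofReal_integral_eq_lintegral_ofReal]
  · exact integ hr (by fun_prop)
  · exact Eventually.of_forall fun p => by positivity

end LimL

open LimL

theorem lim (hCDV : S_CDV) (hLSE : S_LSE) (hUSC : S_USC) (hCPT : S_CPT) : S_LIM := by
  intro R hR μ₀ μ₁ hp₀ hp₁ hac₀ hac₁ hs₀ hs₁
  obtain ⟨h, hgood, -, hbd⟩ := hLSE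
  have hall := fun k => hCDV (h k) (hgood k) R hR μ₀ μ₁ hp₀ hp₁ hac₀ hac₁ hs₀ hs₁
  choose q hq hopt hent using hall
  have hqp : ∀ k, IsProbabilityMeasure (q k) := fun k => coupling_prob (hq k)
  have hconc : ∀ k, q k (closedBall 0 R ×ˢ closedBall 0 R)ᶜ = 0 := fun k =>
    coupling_conc measurableSet_closedBall (hq k) hs₀ hs₁
  obtain ⟨p, s, hp, hsm, hpc, hconv⟩ := hCPT R hR q hqp hconc
  have hcoup : IsCoupling μ₀ μ₁ p := by
    constructor
    · have hpm : IsProbabilityMeasure (p.map Prod.fst) :=
        Measure.isProbabilityMeasure_map measurable_fst.aemeasurable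
      refine ext_of_forall_integral_eq_of_IsFiniteMeasure fun f => ?_
      rw [integral_map measurable_fst.aemeasurable f.continuous.aestronglyMeasurable]
      have h1 := hconv (fun x => f x.1) (f.continuous.comp continuous_fst)
      have h2 : ∀ k, ∫ x, f x.1 ∂(q (s k)) = ∫ x, f x ∂μ₀ := by
        intro k
        rw [← (hq (s k)).1,
          integral_map measurable_fst.aemeasurable f.continuous.aestronglyMeasurable]
      simp only [h2] at h1
      exact tendsto_nhds_unique h1 tendsto_const_nhds
    · have hpm : IsProbabilityMeasure (p.map Prod.snd) :=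
        Measure.isProbabilityMeasure_map measurable_snd.aemeasurable
      refine ext_of_forall_integral_eq_of_IsFiniteMeasure fun f => ?_
      rw [integral_map measurable_snd.aemeasurable f.continuous.aestronglyMeasurable]
      have h1 := hconv (fun x => f x.2) (f.continuous.comp continuous_snd)
      have h2 : ∀ k, ∫ x, f x.2 ∂(q (s k)) = ∫ x, f x ∂μ₁ := by
        intro k
        rw [← (hq (s k)).2,
          integral_map measurable_snd.aemeasurable f.continuous.aestronglyMeasurable]
      simp only [h2] at h1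
      exact tendsto_nhds_unique h1 tendsto_const_nhds
  refine ⟨p, hcoup, ?_, ?_⟩
  · intro q' hq'
    have hq'p : IsProbabilityMeasure q' := coupling_prob hq'
    have hq'c : q' (closedBall 0 R ×ˢ closedBall 0 R)ᶜ = 0 :=
      coupling_conc measurableSet_closedBall hq' hs₀ hs₁
    rw [cost_eq hpc, cost_eq hq'c]
    refine ENNReal.ofReal_le_ofReal ?_
    have hcc : Continuous fun x : V × V => ‖x.2 - x.1‖ ^ 2 := by fun_prop
    have hhc : ∀ k, Continuous fun x : V × V => h k (x.2 - x.1) := fun k =>
      (hgood k).smooth.continuous.comp (by fun_prop)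
    have hstep : ∀ k, ∫ x, ‖x.2 - x.1‖ ^ 2 ∂(q k) ≤
        ∫ x, ‖x.2 - x.1‖ ^ 2 ∂q' + (2 + 3 * (2 * R) ^ 2) / ((k : ℝ) + 1) := by
      intro k
      have a1 : ∫ x, ‖x.2 - x.1‖ ^ 2 ∂(q k) ≤ ∫ x, h k (x.2 - x.1) ∂(q k) := by
        have := hqp k
        exact integral_mono (integ (hconc k) hcc) (integ (hconc k) (hhc k))
          fun x => (hbd k _).1
      have a2 := hopt k q' hq'
      have a3 : ∫ x, h k (x.2 - x.1) ∂q' ≤
          ∫ x, (‖x.2 - x.1‖ ^ 2 + (2 + 3 * (2 * R) ^ 2) / ((k : ℝ) + 1)) ∂q' := by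
        refine integral_mono_ae (integ hq'c (hhc k)) ((integ hq'c hcc).add (integrable_const _)) ?_
        have hae : ∀ᵐ x ∂q', x ∈ (closedBall (0 : V) R) ×ˢ (closedBall (0 : V) R) := by
          rw [ae_iff]
          exact hq'c
        filter_upwards [hae] with x hx
        have b1 := (hbd k (x.2 - x.1)).2
        have b2 : ‖x.2 - x.1‖ ≤ 2 * R := by
          have c1 := norm_sub_le x.2 x.1
          have c2 := mem_closedBall_zero_iff.1 hx.1
          have c3 := mem_closedBall_zero_iff.1 hx.2
          linarith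
        refine b1.trans ?_
        have b3 : ‖x.2 - x.1‖ ^ 2 ≤ (2 * R) ^ 2 := by gcongr
        have hk : (0 : ℝ) < (k : ℝ) + 1 := by positivity
        gcongr
      rw [integral_add (integ hq'c hcc) (integrable_const _), integral_const] at a3
      rw [show q'.real univ = 1 by simp, smul_eq_mul, one_mul] at a3
      exact (a1.trans a2).trans a3
    have hlim1 := hconv _ hcc
    have hlim2 : Tendsto (fun k : ℕ => ∫ x, ‖x.2 - x.1‖ ^ 2 ∂q' +
        (2 + 3 * (2 * R) ^ 2) / (((s k : ℕ) : ℝ) + 1)) atTop
        (𝓝 (∫ x, ‖x.2 - x.1‖ ^ 2 ∂q' + 0)) := by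
      refine tendsto_const_nhds.add ?_
      refine Tendsto.div_atTop tendsto_const_nhds ?_
      refine tendsto_atTop_add_const_right _ _ ?_
      exact tendsto_natCast_atTop_atTop.comp hsm.tendsto_atTop
    rw [add_zero] at hlim2
    exact le_of_tendsto_of_tendsto' hlim1 hlim2 fun k => hstep (s k)
  · intro t ht N hN
    have hmm : Measurable (mid t) := (continuous_mid t).measurable
    have hsupp : ∀ r : Measure (V × V), r (closedBall 0 R ×ˢ closedBall 0 R)ᶜ = 0 →
        (r.map (mid t)) (closedBall 0 R)ᶜ = 0 := by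
      intro r hr
      rw [Measure.map_apply hmm measurableSet_closedBall.compl]
      refine measure_mono_null ?_ hr
      intro x hx hx'
      exact hx (convex_closedBall (0 : V) R hx'.1 hx'.2 (by linarith [ht.2]) ht.1 (by ring))
    refine hUSC R hR (fun k => (q (s k)).map (mid t)) (p.map (mid t))
      (fun k => ?_) ?_ (fun k => hsupp _ (hconc _)) (hsupp _ hpc) ?_ N (by linarith) _
      (fun k => hent (s k) t ht N hN)
    · have := hqp (s k)
      exact Measure.isProbabilityMeasure_map hmm.aemeasurable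
    · exact Measure.isProbabilityMeasure_map hmm.aemeasurable
    · intro f hf
      have e : ∀ r : Measure (V × V), ∫ x, f x ∂(r.map (mid t)) = ∫ x, f (mid t x) ∂r := fun r =>
        integral_map hmm.aemeasurable hf.aestronglyMeasurable
      simp only [e]
      exact hconv (fun x => f (mid t x)) (hf.comp (continuous_mid t))

end Pool.Agent.Helper76K9.CL
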