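import Pool.Agent.Helper76K9.CL.Stm

/-! # [LSE] good costs that converge to the square of the sup norm -/

set_option autoImplicit false

open MeasureTheory Set Filter Topology Metric
open scoped ENNReal NNReal

namespace Pool.Agent.Helper76K9.CL

namespace LseL

/-- the sum of exponentials -/
noncomputable def S (n : ℝ) (v : V) : ℝ := ∑ i, Real.exp (n * v i ^ 2)

theorem S_pos (n : ℝ) (v : V) : 0 < S n v :=
  Finset.sum_pos (fun _ _ => Real.exp_pos _) ⟨0, Finset.mem_univ _⟩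

/-- the cost -/
noncomputable def hh (n : ℝ) (v : V) : ℝ := (1 / n) * (Real.log (S n v) + ∑ i, v i ^ 2)

theorem jensen (p x : Fin 3 → ℝ) (hp : ∀ i, 0 ≤ p i) (hp1 : ∑ i, p i = 1) :
    Real.exp (∑ i, p i * x i) ≤ ∑ i, p i * Real.exp (x i) := by
  set X := ∑ i, p i * x i with hX
  have h1 : ∀ i, p i * (1 + (x i - X)) ≤ p i * Real.exp (x i - X) := fun i => by
    apply mul_le_mul_of_nonneg_left _ (hp i)
    have := Real.add_one_le_exp (x i - X)
    linarith
  have h2 := Finset.sum_le_sum fun (i : Fin 3) (_ : i ∈ Finset.univ) => h1 i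
  have h3 : ∑ i, p i * (1 + (x i - X)) = 1 := by
    have : ∀ i, p i * (1 + (x i - X)) = p i + p i * x i - p i * X := fun i => by ring
    simp only [this]
    rw [Finset.sum_sub_distrib, Finset.sum_add_distrib, ← Finset.sum_mul, hp1, ← hX]
    ring
  rw [h3] at h2
  have h4 : ∑ i, p i * Real.exp (x i - X) = (∑ i, p i * Real.exp (x i)) * Real.exp (-X) := by
    rw [Finset.sum_mul]
    apply Finset.sum_congr rfl
    intro i _
    rw [sub_eq_add_neg, Real.exp_add]
    ring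
  rw [h4] at h2
  have h5 : Real.exp X * 1 ≤ Real.exp X * ((∑ i, p i * Real.exp (x i)) * Real.exp (-X)) :=
    mul_le_mul_of_nonneg_left h2 (Real.exp_pos X).le
  have h6 : Real.exp X * ((∑ i, p i * Real.exp (x i)) * Real.exp (-X))
      = ∑ i, p i * Real.exp (x i) := by
    rw [mul_comm, mul_assoc, ← Real.exp_add, neg_add_cancel, Real.exp_zero, mul_one]
  rw [h6, mul_one] at h5
  exact h5

theorem hasFDerivAt_coord_sq (u : V) (i : Fin 3) :
    HasFDerivAt (fun v : V => v i ^ 2) ((2 * u i) • (ContinuousLinearMap.proj i : V →L[ℝ] ℝ)) u := by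
  have h1 : HasFDerivAt (fun v : V => v i) (ContinuousLinearMap.proj i : V →L[ℝ] ℝ) u :=
    (ContinuousLinearMap.proj i : V →L[ℝ] ℝ).hasFDerivAt
  have h2 := h1.pow 2
  simpa using h2

theorem hasFDerivAt_S (n : ℝ) (u : V) :
    HasFDerivAt (S n) (∑ i, Real.exp (n * u i ^ 2) •
      (n • ((2 * u i) • (ContinuousLinearMap.proj i : V →L[ℝ] ℝ)))) u := by
  have h : HasFDerivAt (fun v : V => ∑ i, Real.exp (n * v i ^ 2)) (∑ i, Real.exp (n * u i ^ 2) •
      (n • ((2 * u i) • (ContinuousLinearMap.proj i : V →L[ℝ] ℝ)))) u := by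
    apply HasFDerivAt.fun_sum
    intro i _
    exact ((hasFDerivAt_coord_sq u i).const_mul n).exp
  exact h

theorem hasFDerivAt_hh (n : ℝ) (u : V) :
    HasFDerivAt (hh n) ((1 / n) • ((S n u)⁻¹ • (∑ i, Real.exp (n * u i ^ 2) •
      (n • ((2 * u i) • (ContinuousLinearMap.proj i : V →L[ℝ] ℝ)))) +
      ∑ i, ((2 * u i) • (ContinuousLinearMap.proj i : V →L[ℝ] ℝ)))) u := by
  have h1 := (hasFDerivAt_S n u).log (S_pos n u).ne'
  have h2 : HasFDerivAt (fun v : V => ∑ i, v i ^ 2)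
      (∑ i, ((2 * u i) • (ContinuousLinearMap.proj i : V →L[ℝ] ℝ))) u := by
    apply HasFDerivAt.fun_sum
    intro i _
    exact hasFDerivAt_coord_sq u i
  exact (h1.add h2).const_mul (1 / n)

theorem good {n : ℝ} (hn : 0 < n) : Good (hh n) := by
  refine ⟨?_, 1 / n, by positivity, ?_⟩
  · have hS : ContDiff ℝ 2 (S n) := by
      unfold S
      fun_prop
    have hl : ContDiff ℝ 2 (fun v => Real.log (S n v)) := hS.log fun v => (S_pos n v).ne'
    have h2 : ContDiff ℝ 2 (fun v : V => ∑ i, v i ^ 2) := by fun_prop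
    exact contDiff_const.mul (hl.add h2)
  · intro u v
    rw [(hasFDerivAt_hh n u).fderiv]
    simp only [smul_apply, add_apply, ContinuousLinearMap.coe_sum', Finset.sum_apply,
      ContinuousLinearMap.proj_apply, Pi.sub_apply, smul_eq_mul]
    -- the convexity of the logarithmic part
    have hS := S_pos n u
    set p : Fin 3 → ℝ := fun i => Real.exp (n * u i ^ 2) / S n u with hp
    have hp0 : ∀ i, 0 ≤ p i := fun i => by positivity
    have hp1 : ∑ i, p i = 1 := by
      rw [hp, ← Finset.sum_div]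
      exact div_self hS.ne'
    have h1 := jensen p (fun i => n * v i ^ 2 - n * u i ^ 2) hp0 hp1
    have h2 : ∑ i, p i * Real.exp (n * v i ^ 2 - n * u i ^ 2) = S n v / S n u := by
      unfold S
      rw [Finset.sum_div]
      apply Finset.sum_congr rfl
      intro i _
      rw [hp]
      simp only
      rw [Real.exp_sub]
      have := (Real.exp_pos (n * u i ^ 2)).ne'
      have h3 : (S n u) ≠ 0 := hS.ne'
      unfold S at h3 ⊢
      field_simp
    rw [h2] at h1
    have h3 := Real.log_le_log (Real.exp_pos _) h1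
    rw [Real.log_exp, Real.log_div (S_pos n v).ne' hS.ne'] at h3
    have h4 : ∑ i, p i * (n * (2 * u i * (v i - u i))) ≤
        ∑ i, p i * (n * v i ^ 2 - n * u i ^ 2) := by
      apply Finset.sum_le_sum
      intro i _
      apply mul_le_mul_of_nonneg_left _ (hp0 i)
      nlinarith [mul_nonneg hn.le (sq_nonneg (v i - u i))]
    have h5 : (S n u)⁻¹ * ∑ i, Real.exp (n * u i ^ 2) * (n * (2 * u i * (v i - u i)))
        = ∑ i, p i * (n * (2 * u i * (v i - u i))) := by
      rw [Finset.mul_sum]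
      apply Finset.sum_congr rfl
      intro i _
      rw [hp]
      simp only
      ring
    have h6 : ‖v - u‖ ^ 2 ≤ ∑ i, (v i - u i) ^ 2 := by
      have h7 : ‖v - u‖ ≤ Real.sqrt (∑ i, (v i - u i) ^ 2) := by
        rw [pi_norm_le_iff_of_nonneg (Real.sqrt_nonneg _)]
        intro i
        rw [Real.norm_eq_abs, Pi.sub_apply]
        apply Real.abs_le_sqrt
        exact Finset.single_le_sum (f := fun i => (v i - u i) ^ 2) (fun j _ => sq_nonneg _)
          (Finset.mem_univ i)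
      have h8 := pow_le_pow_left₀ (norm_nonneg _) h7 2
      rwa [Real.sq_sqrt (Finset.sum_nonneg fun i _ => sq_nonneg _)] at h8
    have h9 : ∑ i, (v i - u i) ^ 2 = ∑ i, v i ^ 2 - ∑ i, u i ^ 2 - ∑ i, 2 * u i * (v i - u i) := by
      rw [← Finset.sum_sub_distrib, ← Finset.sum_sub_distrib]
      apply Finset.sum_congr rfl
      intro i _
      ring
    have hn' : 0 ≤ 1 / n := by positivity
    have key : Real.log (S n u) + ∑ i, u i ^ 2 + ((S n u)⁻¹ *
        (∑ i, Real.exp (n * u i ^ 2) * (n * (2 * u i * (v i - u i)))) +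
        ∑ i, 2 * u i * (v i - u i)) + ‖v - u‖ ^ 2 ≤ Real.log (S n v) + ∑ i, v i ^ 2 := by
      rw [h5]
      linarith
    have h10 := mul_le_mul_of_nonneg_left key hn'
    unfold hh
    calc 1 / n * (Real.log (S n u) + ∑ i, u i ^ 2) + 1 / n * ((S n u)⁻¹ *
          (∑ i, Real.exp (n * u i ^ 2) * (n * (2 * u i * (v i - u i)))) +
          ∑ i, 2 * u i * (v i - u i)) + 1 / n * ‖v - u‖ ^ 2
        = 1 / n * (Real.log (S n u) + ∑ i, u i ^ 2 + ((S n u)⁻¹ *
          (∑ i, Real.exp (n * u i ^ 2) * (n * (2 * u i * (v i - u i)))) +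
          ∑ i, 2 * u i * (v i - u i)) + ‖v - u‖ ^ 2) := by ring
      _ ≤ 1 / n * (Real.log (S n v) + ∑ i, v i ^ 2) := h10

theorem lower {n : ℝ} (hn : 0 < n) (v : V) : ‖v‖ ^ 2 ≤ hh n v := by
  have h0 : ∀ i, v i ^ 2 ≤ hh n v := by
    intro i
    have h1 : Real.exp (n * v i ^ 2) ≤ S n v :=
      Finset.single_le_sum (f := fun i => Real.exp (n * v i ^ 2)) (fun j _ => (Real.exp_pos _).le)
        (Finset.mem_univ i)
    have h2 := Real.log_le_log (Real.exp_pos _) h1
    rw [Real.log_exp] at h2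
    have h3 : 0 ≤ ∑ j, v j ^ 2 := Finset.sum_nonneg fun j _ => sq_nonneg _
    unfold hh
    rw [one_div, ← div_eq_inv_mul, le_div_iff₀ hn]
    nlinarith
  have h1 : ‖v‖ ≤ Real.sqrt (hh n v) := by
    rw [pi_norm_le_iff_of_nonneg (Real.sqrt_nonneg _)]
    intro i
    rw [Real.norm_eq_abs]
    exact Real.abs_le_sqrt (h0 i)
  have h2 := pow_le_pow_left₀ (norm_nonneg _) h1 2
  rwa [Real.sq_sqrt ((sq_nonneg _).trans (h0 0))] at h2

theorem upper {n : ℝ} (hn : 0 < n) (v : V) : hh n v ≤ ‖v‖ ^ 2 + (2 + 3 * ‖v‖ ^ 2) / n := by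
  have h0 : ∀ i, v i ^ 2 ≤ ‖v‖ ^ 2 := by
    intro i
    have := norm_le_pi_norm v i
    rw [Real.norm_eq_abs] at this
    rw [← sq_abs]
    exact pow_le_pow_left₀ (abs_nonneg _) this 2
  have h1 : S n v ≤ 3 * Real.exp (n * ‖v‖ ^ 2) := by
    unfold S
    refine (Finset.sum_le_sum (g := fun _ => Real.exp (n * ‖v‖ ^ 2)) fun i _ => ?_).trans ?_
    · rw [Real.exp_le_exp]
      exact mul_le_mul_of_nonneg_left (h0 i) hn.le
    · simp
  have h2 := Real.log_le_log (S_pos n v) h1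
  rw [Real.log_mul (by norm_num) (Real.exp_pos _).ne', Real.log_exp] at h2
  have h3 : Real.log 3 ≤ 2 := by
    have := Real.log_le_sub_one_of_pos (show (0 : ℝ) < 3 by norm_num)
    linarith
  have h4 : ∑ i, v i ^ 2 ≤ 3 * ‖v‖ ^ 2 := by
    refine (Finset.sum_le_sum (g := fun _ => ‖v‖ ^ 2) fun i _ => h0 i).trans ?_
    simp
  unfold hh
  have h5 : Real.log (S n v) + ∑ i, v i ^ 2 ≤ n * ‖v‖ ^ 2 + (2 + 3 * ‖v‖ ^ 2) := by linarith
  calc 1 / n * (Real.log (S n v) + ∑ i, v i ^ 2) ≤ 1 / n * (n * ‖v‖ ^ 2 + (2 + 3 * ‖v‖ ^ 2)) :=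
        mul_le_mul_of_nonneg_left h5 (by positivity)
    _ = ‖v‖ ^ 2 + (2 + 3 * ‖v‖ ^ 2) / n := by field_simp

end LseL

open LseL in
theorem lse : S_LSE := by
  refine ⟨fun k => hh ((k : ℝ) + 1), fun k => good (by positivity), ?_, fun k v =>
    ⟨lower (by positivity) v, upper (by positivity) v⟩⟩
  intro k v
  unfold hh S
  simp only [Pi.neg_apply, neg_sq]

namespace PosL

theorem second {h : V → ℝ} (hg : Good h) {ε : ℝ}
    (hs : ∀ u v : V, h u + fderiv ℝ h u (v - u) + ε * ‖v - u‖ ^ 2 ≤ h v) (ξ k : V) :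
    2 * ε * ‖k‖ ^ 2 ≤ Hs h ξ k k := by
  have hc : ContDiff ℝ 1 (fderiv ℝ h) := hg.smooth.fderiv_right (by norm_num)
  have hd : HasFDerivAt (fderiv ℝ h) (Hs h ξ) ξ :=
    (hc.differentiable one_ne_zero ξ).hasFDerivAt
  have hl : HasDerivAt (fun t : ℝ => ξ + t • k) k 0 := by
    have h2 : HasDerivAt (fun t : ℝ => t • k) ((1 : ℝ) • k) 0 := (hasDerivAt_id (0:ℝ)).smul_const k
    have h3 := h2.const_add ξ
    simpa only [one_smul] using h3
  have hd' : HasFDerivAt (fderiv ℝ h) (Hs h ξ) (ξ + (0 : ℝ) • k) := by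
    rw [zero_smul, add_zero]; exact hd
  have h1 : HasDerivAt (fun t : ℝ => fderiv ℝ h (ξ + t • k)) (Hs h ξ k) 0 :=
    hd'.comp_hasDerivAt 0 hl
  have h2 : HasDerivAt (fun t : ℝ => fderiv ℝ h (ξ + t • k) k) (Hs h ξ k k) 0 := by
    have := h1.clm_apply (hasDerivAt_const (0 : ℝ) k)
    simpa using this
  have h3 := h2.tendsto_slope_zero_right
  refine ge_of_tendsto h3 ?_
  filter_upwards [self_mem_nhdsWithin] with t ht
  have ht0 : (0 : ℝ) < t := ht
  have e1 := hs ξ (ξ + t • k)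
  have e2 := hs (ξ + t • k) ξ
  have e3 : ξ + t • k - ξ = t • k := by abel
  have e4 : ξ - (ξ + t • k) = -(t • k) := by abel
  rw [e3, norm_smul, map_smul, smul_eq_mul, Real.norm_eq_abs, abs_of_pos ht0] at e1
  rw [e4, norm_neg, norm_smul, map_neg, map_smul, smul_eq_mul, Real.norm_eq_abs,
    abs_of_pos ht0] at e2
  simp only [zero_add, zero_smul, add_zero, smul_eq_mul]
  rw [← div_eq_inv_mul, le_div_iff₀ ht0]
  have h5 : t * (2 * ε * ‖k‖ ^ 2 * t) ≤ t * (fderiv ℝ h (ξ + t • k) k - fderiv ℝ h ξ k) := by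
    nlinarith
  exact le_of_mul_le_mul_left h5 ht0

end PosL

open PosL in
theorem pos : S_POS := by
  intro h hg ξ
  obtain ⟨ε, hε, hs⟩ := hg.strong
  refine ⟨?_, ?_⟩
  · intro k l
    have h1 : IsSymmSndFDerivAt ℝ h ξ := (hg.smooth.contDiffAt).isSymmSndFDerivAt (by simp)
    exact h1 k l
  · intro k hk
    have h1 := second hg hs ξ k
    have h2 : 0 < ‖k‖ := norm_pos_iff.2 hk
    have : 0 < 2 * ε * ‖k‖ ^ 2 := by positivity
    linarith

end Pool.Agent.Helper76K9.CL
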