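import Pool.Agent.Helper76K9.CL.Desc

/-! # OPT: optimal couplings of symmetric measures are optimal for the quotient distance

A coupling `r` of the projections is lifted: choose representatives `S p` of `p` with
`‖(S p).1 - (S p).2‖ = dist p.1 p.2` in a measurable way and symmetrize. -/

set_option autoImplicit false

open MeasureTheory Set Filter Topology Metric
open scoped ENNReal NNReal

namespace Pool.Agent.Helper76K9.CL

namespace OptL

open DescL LftL MetL

/-- the canonical representative of `±v`: the first non-zero coordinate is positive -/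
noncomputable def can (v : V) : V :=
  if 0 < v 0 ∨ (v 0 = 0 ∧ 0 < v 1) ∨ (v 0 = 0 ∧ v 1 = 0 ∧ 0 ≤ v 2) then v else -v

theorem meas_can : Measurable can := by
  unfold can
  refine Measurable.ite ?_ measurable_id measurable_neg
  have m0 : Measurable fun v : V => v 0 := measurable_pi_apply 0
  have m1 : Measurable fun v : V => v 1 := measurable_pi_apply 1
  have m2 : Measurable fun v : V => v 2 := measurable_pi_apply 2
  have a0 : MeasurableSet {v : V | 0 < v 0} := measurableSet_lt measurable_const m0
  have a1 : MeasurableSet {v : V | 0 < v 1} := measurableSet_lt measurable_const m1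
  have a2 : MeasurableSet {v : V | 0 ≤ v 2} := measurableSet_le measurable_const m2
  have b0 : MeasurableSet {v : V | v 0 = 0} := measurableSet_eq_fun m0 measurable_const
  have b1 : MeasurableSet {v : V | v 1 = 0} := measurableSet_eq_fun m1 measurable_const
  exact a0.union ((b0.inter a1).union (b0.inter (b1.inter a2)))

theorem can_neg (v : V) : can (-v) = can v := by
  unfold can
  by_cases h0 : v 0 = 0
  · by_cases h1 : v 1 = 0
    · by_cases h2 : v 2 = 0
      · have : v = 0 := by
          funext i
          fin_cases i
          · exact h0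
          · exact h1
          · exact h2
        rw [this]
        simp
      · rcases lt_or_gt_of_ne h2 with h | h
        · rw [if_pos, if_neg]
          · simp only [h0, h1, not_or, not_le, lt_irrefl, not_false_eq_true, true_and]
            tauto
          · right; right
            simp only [Pi.neg_apply, h0, h1, neg_zero, true_and]
            linarith
        · rw [if_neg, if_pos]
          · rw [neg_neg]
          · right; right
            exact ⟨h0, h1, h.le⟩
          · simp only [Pi.neg_apply, h0, h1, neg_zero, lt_irrefl, false_or, true_and, not_le]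
            linarith
    · rcases lt_or_gt_of_ne h1 with h | h
      · rw [if_pos, if_neg]
        · simp only [h0, h1, lt_irrefl, false_or, true_and, false_and, and_false, or_false, not_lt]
          exact h.le
        · right; left
          simp only [Pi.neg_apply, h0, neg_zero, true_and]
          linarith
      · rw [if_neg, if_pos]
        · rw [neg_neg]
        · right; left
          exact ⟨h0, h⟩
        · simp only [Pi.neg_apply, h0, neg_zero, lt_irrefl, false_or, true_and, neg_eq_zero, h1,
            false_and, or_false, not_lt]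
          linarith
  · rcases lt_or_gt_of_ne h0 with h | h
    · rw [if_pos, if_neg]
      · simp only [h0, false_and, or_false, not_lt]
        exact h.le
      · left
        simp only [Pi.neg_apply]
        linarith
    · rw [if_neg, if_pos]
      · rw [neg_neg]
      · left
        exact h
      · simp only [Pi.neg_apply, neg_eq_zero, h0, false_and, or_false, not_lt]
        linarith

theorem pr_can (v : V) : pr (can v) = pr v := by
  unfold can
  split_ifs
  · rfl
  · exact pr_neg v

theorem exists_sec : ∃ s : Q → V, Measurable s ∧ ∀ x, pr (s x) = x := by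
  obtain ⟨s, hs, hs'⟩ := desc can meas_can can_neg
  refine ⟨s, hs, fun x => ?_⟩
  obtain ⟨v, rfl⟩ := pr_surjective x
  rw [hs', pr_can]

/-- measurable choice of a pair of representatives that realises the distance -/
theorem exists_pair : ∃ S : Q × Q → V × V, Measurable S ∧
    ∀ p, pr (S p).1 = p.1 ∧ pr (S p).2 = p.2 ∧ ‖(S p).1 - (S p).2‖ = dist p.1 p.2 := by
  obtain ⟨s, hs, hs'⟩ := exists_sec
  have m1 : Measurable fun p : Q × Q => s p.1 := hs.comp measurable_fst
  have m2 : Measurable fun p : Q × Q => s p.2 := hs.comp measurable_snd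
  classical
  refine ⟨fun p => (s p.1, if ‖s p.1 - s p.2‖ ≤ ‖s p.1 + s p.2‖ then s p.2 else -s p.2), ?_, ?_⟩
  · refine m1.prodMk (Measurable.ite ?_ m2 m2.neg)
    exact measurableSet_le (m1.sub m2).norm (m1.add m2).norm
  · intro p
    have hd : dist p.1 p.2 = min ‖s p.1 - s p.2‖ ‖s p.1 + s p.2‖ := by
      rw [← dist_pr, hs', hs']
    dsimp only
    split_ifs with h
    · exact ⟨hs' _, hs' _, by rw [hd, min_eq_left h]⟩
    · refine ⟨hs' _, by rw [pr_neg, hs'], ?_⟩
      rw [hd, min_eq_right (not_le.1 h).le, sub_neg_eq_add]

/-- a symmetric measure is the symmetrization of every lift of its projection -/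
theorem sym_lift {X : Type*} [MeasurableSpace X] (r : Measure X) (s : X → V) (hs : Measurable s)
    (μ : Measure V) (hμ : μ.map (fun v => -v) = μ) (h : r.map (fun x => pr (s x)) = μ.map pr)
    {A : Set V} (hA : MeasurableSet A) :
    r (s ⁻¹' A) + r ((fun x => -s x) ⁻¹' A) = 2 * μ A := by
  have hAn : MeasurableSet ((fun v : V => -v) ⁻¹' A) := measurable_neg hA
  have hf : Measurable fun v : V => A.indicator (1 : V → ℝ≥0∞) v + A.indicator 1 (-v) :=
    (measurable_one.indicator hA).add ((measurable_one.indicator hA).comp measurable_neg)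
  obtain ⟨F, hF, hF'⟩ := desc _ hf (fun v => by rw [neg_neg, add_comm])
  have e1 : ∫⁻ x, F (pr (s x)) ∂r = r (s ⁻¹' A) + r ((fun x => -s x) ⁻¹' A) := by
    simp only [hF']
    rw [lintegral_add_left (f := fun x => A.indicator (1 : V → ℝ≥0∞) (s x))
      ((measurable_one.indicator hA).comp hs)]
    congr 1
    · rw [← lintegral_indicator_one (hs hA)]
      rfl
    · rw [← lintegral_indicator_one (show MeasurableSet ((fun x => -s x) ⁻¹' A) from hs.neg hA)]
      rfl
  have e2 : ∫⁻ v, F (pr v) ∂μ = 2 * μ A := by
    simp only [hF']
    rw [lintegral_add_left (measurable_one.indicator hA), lintegral_indicator_one hA]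
    have : ∫⁻ v, A.indicator (1 : V → ℝ≥0∞) (-v) ∂μ = μ A := by
      rw [← lintegral_map (μ := μ) (f := A.indicator (1 : V → ℝ≥0∞)) (g := fun v : V => -v)
        (measurable_one.indicator hA) measurable_neg, hμ, lintegral_indicator_one hA]
    rw [this, two_mul]
  rw [← e1, ← e2, ← lintegral_map hF meas_pr, ← h]
  exact (lintegral_map (f := F) (g := fun x => pr (s x)) hF (meas_pr.comp hs)).symm

end OptL

open OptL DescL LftL MetL

theorem opt : S_OPT := by
  intro R hR μ₀ μ₁ hp₀ hp₁ hs₀ hs₁ hn₀ hn₁ q hq hopt r hr
  obtain ⟨S, hS, hS'⟩ := exists_pair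
  have m1 : Measurable fun p => (S p).1 := measurable_fst.comp hS
  have m2 : Measurable fun p => (S p).2 := measurable_snd.comp hS
  let S' : Q × Q → V × V := fun p => (-(S p).1, -(S p).2)
  have hS'm : Measurable S' := m1.neg.prodMk m2.neg
  set q' : Measure (V × V) := (2⁻¹ : ℝ≥0∞) • (r.map S + r.map S') with hq'
  have h20 : (2 : ℝ≥0∞) ≠ 0 := two_ne_zero
  have h2t : (2 : ℝ≥0∞) ≠ ∞ := ENNReal.ofNat_ne_top
  have hcoup : IsCoupling μ₀ μ₁ q' := by
    constructor
    · ext A hA
      have h := sym_lift r (fun p => (S p).1) m1 μ₀ hn₀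
        (by rw [← hr.1]; congr 1; funext p; exact (hS' p).1) hA
      rw [Measure.map_apply measurable_fst hA, hq', Measure.smul_apply, Measure.add_apply,
        Measure.map_apply hS (measurable_fst hA), Measure.map_apply hS'm (measurable_fst hA)]
      have e : r (S ⁻¹' (Prod.fst ⁻¹' A)) + r (S' ⁻¹' (Prod.fst ⁻¹' A)) = 2 * μ₀ A := h
      rw [e, smul_eq_mul, ← mul_assoc, ENNReal.inv_mul_cancel h20 h2t, one_mul]
    · ext A hA
      have h := sym_lift r (fun p => (S p).2) m2 μ₁ hn₁
        (by rw [← hr.2]; congr 1; funext p; exact (hS' p).2.1) hA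
      rw [Measure.map_apply measurable_snd hA, hq', Measure.smul_apply, Measure.add_apply,
        Measure.map_apply hS (measurable_snd hA), Measure.map_apply hS'm (measurable_snd hA)]
      have e : r (S ⁻¹' (Prod.snd ⁻¹' A)) + r (S' ⁻¹' (Prod.snd ⁻¹' A)) = 2 * μ₁ A := h
      rw [e, smul_eq_mul, ← mul_assoc, ENNReal.inv_mul_cancel h20 h2t, one_mul]
  refine (hopt q' hcoup).trans (le_of_eq ?_)
  have mc : Measurable fun p : V × V => edist p.1 p.2 ^ 2 :=
    (measurable_fst.edist measurable_snd).pow_const 2
  have e1 : ∀ p, edist (S p).1 (S p).2 = edist p.1 p.2 := by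
    intro p
    rw [edist_dist, edist_dist, dist_eq_norm, (hS' p).2.2]
  have e2 : ∀ p, edist (S' p).1 (S' p).2 = edist p.1 p.2 := by
    intro p
    rw [← e1 p]
    simp only [S']
    rw [edist_neg_neg]
  unfold cost
  rw [hq', lintegral_smul_measure, lintegral_add_measure, lintegral_map mc hS,
    lintegral_map mc hS'm]
  simp only [e1, e2]
  rw [← two_mul, smul_eq_mul, ← mul_assoc, ENNReal.inv_mul_cancel h20 h2t, one_mul]

end Pool.Agent.Helper76K9.CL
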