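import Pool.Agent.Helper76K9.CL.Stm
import Pool.Agent.W358.Alex

/-!
# [SO] Second order conditions at almost every point of `Z`
-/

set_option autoImplicit false

open MeasureTheory Set Filter Topology Metric
open scoped ENNReal NNReal

namespace Pool.Agent.Helper76K9.CL

namespace SoL

/-- first order Taylor estimate on a ball -/
theorem taylor {h : V → ℝ} (hh : ContDiff ℝ 2 h) (r : ℝ) :
    ∃ M : ℝ, 0 ≤ M ∧ ∀ ξ η : V, ‖ξ‖ ≤ r → ‖ξ + η‖ ≤ r →
      |h (ξ + η) - h ξ - fderiv ℝ h ξ η| ≤ M * ‖η‖ ^ 2 := by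
  have h1 : ContDiff ℝ 1 (fderiv ℝ h) := hh.fderiv_right (by norm_num)
  have h2 : Continuous (fderiv ℝ (fderiv ℝ h)) := h1.continuous_fderiv (by norm_num)
  obtain ⟨M, hM⟩ := (isCompact_closedBall (0 : V) r).exists_bound_of_continuousOn
    (f := fderiv ℝ (fderiv ℝ h)) h2.continuousOn
  refine ⟨max M 0, le_max_right _ _, fun ξ η hξ hη => ?_⟩
  have hseg : segment ℝ ξ (ξ + η) ⊆ closedBall (0 : V) r :=
    (convex_closedBall (0 : V) r).segment_subset (by simpa using hξ) (by simpa using hη)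
  have hlip : ∀ x ∈ segment ℝ ξ (ξ + η), ‖fderiv ℝ h x - fderiv ℝ h ξ‖ ≤ max M 0 * ‖η‖ := by
    intro x hx
    have h3 : ‖fderiv ℝ h x - fderiv ℝ h ξ‖ ≤ max M 0 * ‖x - ξ‖ :=
      Convex.norm_image_sub_le_of_norm_fderiv_le
        (fun y _ => (h1.differentiable (by norm_num)).differentiableAt)
        (fun y hy => (hM y hy).trans (le_max_left _ _)) (convex_closedBall (0 : V) r)
        (hseg (left_mem_segment ℝ _ _)) (hseg hx)
    have h4 : ‖x - ξ‖ ≤ ‖η‖ := by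
      have := norm_sub_le_of_mem_segment hx
      simpa using this
    exact h3.trans (mul_le_mul_of_nonneg_left h4 (le_max_right _ _))
  have h5 := Convex.norm_image_sub_le_of_norm_fderiv_le' (f := h)
    (fun y _ => (hh.differentiable (by norm_num)).differentiableAt) hlip
    (convex_segment ξ (ξ + η)) (left_mem_segment ℝ _ _) (right_mem_segment ℝ _ _)
  rw [add_sub_cancel_left, Real.norm_eq_abs] at h5
  calc |h (ξ + η) - h ξ - fderiv ℝ h ξ η| ≤ max M 0 * ‖η‖ * ‖η‖ := h5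
    _ = max M 0 * ‖η‖ ^ 2 := by ring

/-- second order Taylor expansion -/
theorem taylor2 {h : V → ℝ} (hh : ContDiff ℝ 2 h) (ξ k : V) :
    Tendsto (fun r : ℝ => (h (ξ + r • k) - h ξ - r * fderiv ℝ h ξ k) / r ^ 2) (𝓝[≠] 0)
      (𝓝 (Hs h ξ k k / 2)) := by
  have h1 : ContDiff ℝ 1 (fderiv ℝ h) := hh.fderiv_right (by norm_num)
  obtain ⟨M, hM0, hM⟩ := taylor hh (‖ξ‖ + 1)
  have hb : ∀ a ∈ ball ξ 1, ‖a‖ ≤ ‖ξ‖ + 1 := by
    intro a ha
    rw [mem_ball_iff_norm] at ha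
    have : ‖a‖ ≤ ‖a - ξ‖ + ‖ξ‖ := by
      have := norm_add_le (a - ξ) ξ
      rwa [sub_add_cancel] at this
    linarith
  refine (W358.Alex.K2 V h (fderiv ℝ h) univ (ball ξ 1) M ξ (mem_univ _)
    (ball_mem_nhds _ one_pos) ?_ ?_ (Hs h ξ)
    ((h1.differentiable (by norm_num)).differentiableAt.hasFDerivAt)).2 k
  · rintro a ⟨-, ha⟩ w hw
    have := hM a (w - a) (hb a ha) (by rw [add_sub_cancel]; exact hb w hw)
    rwa [add_sub_cancel] at this
  · intro ε hε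
    exact Eventually.of_forall fun w => ⟨w, mem_univ _, by
      rw [sub_self, norm_zero]; positivity⟩

end SoL

open SoL in
theorem so (den : S_DEN) : S_SO := by
  intro h hh R t hR ht0 ht1 Z A Ξ L hZ hZR hΞ hA
  have ht1' : 0 < 1 - t := by linarith
  have h1 : ContDiff ℝ 1 (fderiv ℝ h) := hh.smooth.fderiv_right (by norm_num)
  filter_upwards [hΞ.ae_differentiableAt, den Z hZ] with z hdiff hden hzZ
  have hden' := hden hzZ
  -- the first order estimates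
  set r0 : ℝ := ‖Ξ 0‖ + L * R + 2 * t⁻¹ + 2 * (1 - t)⁻¹ with hr0
  obtain ⟨M, hM0, hM⟩ := taylor hh.smooth r0
  have hti : 0 < t⁻¹ := inv_pos.2 ht0
  have hti' : 0 < (1 - t)⁻¹ := inv_pos.2 ht1'
  have hΞb : ∀ a ∈ Z, ‖Ξ a‖ ≤ ‖Ξ 0‖ + L * R := by
    intro a ha
    have e1 : ‖Ξ a - Ξ 0‖ ≤ L * ‖a - 0‖ := hΞ.norm_sub_le a 0
    have e2 : ‖a‖ ≤ R := by simpa using hZR ha
    have e3 : ‖Ξ a‖ ≤ ‖Ξ a - Ξ 0‖ + ‖Ξ 0‖ := by
      have := norm_add_le (Ξ a - Ξ 0) (Ξ 0)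
      rwa [sub_add_cancel] at this
    rw [sub_zero] at e1
    have e4 : (L : ℝ) * ‖a‖ ≤ L * R := mul_le_mul_of_nonneg_left e2 L.coe_nonneg
    linarith
  have hab : ∀ a ∈ ball z 1, ∀ w ∈ ball z 1, ‖w - a‖ ≤ 2 := by
    intro a ha w hw
    rw [mem_ball_iff_norm] at ha hw
    have : w - a = (w - z) - (a - z) := by abel
    rw [this]
    refine (norm_sub_le _ _).trans ?_
    linarith
  have hest : ∀ a ∈ Z ∩ ball z 1, ∀ w ∈ ball z 1,
      |A w - A a - fderiv ℝ h (Ξ a) (w - a)| ≤ (M * t⁻¹ + M * (1 - t)⁻¹) * ‖w - a‖ ^ 2 := by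
    rintro a ⟨haZ, ha⟩ w hw
    obtain ⟨u1, u2⟩ := hA a haZ w
    have n1 : ‖t⁻¹ • (w - a)‖ ≤ 2 * t⁻¹ := by
      rw [norm_smul, Real.norm_eq_abs, abs_of_pos hti, mul_comm]
      exact mul_le_mul_of_nonneg_right (hab a ha w hw) hti.le
    have n2 : ‖(1 - t)⁻¹ • (w - a)‖ ≤ 2 * (1 - t)⁻¹ := by
      rw [norm_smul, Real.norm_eq_abs, abs_of_pos hti', mul_comm]
      exact mul_le_mul_of_nonneg_right (hab a ha w hw) hti'.le
    have n0 := hΞb a haZ
    have T1 := hM (Ξ a) (t⁻¹ • (w - a)) (by rw [hr0]; linarith)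
      ((norm_add_le _ _).trans (by rw [hr0]; linarith))
    have T2 := hM (Ξ a) (-((1 - t)⁻¹ • (w - a))) (by rw [hr0]; linarith)
      ((norm_add_le _ _).trans (by rw [norm_neg, hr0]; linarith))
    rw [map_smul, smul_eq_mul, norm_smul, Real.norm_eq_abs, abs_of_pos hti, mul_pow] at T1
    rw [map_neg, map_smul, smul_eq_mul, norm_neg, norm_smul, Real.norm_eq_abs,
      abs_of_pos hti', mul_pow, ← sub_eq_add_neg] at T2
    set F := fderiv ℝ h (Ξ a) (w - a) with hF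
    set n := ‖w - a‖ ^ 2 with hn
    have hn0 : 0 ≤ n := by positivity
    have c1 := (abs_le.1 T1).2
    have c2 := (abs_le.1 T2).2
    have d1 := mul_le_mul_of_nonneg_left c1 ht0.le
    have d2 := mul_le_mul_of_nonneg_left c2 ht1'.le
    have i1 : t * t⁻¹ = 1 := mul_inv_cancel₀ ht0.ne'
    have i2 : (1 - t) * (1 - t)⁻¹ = 1 := mul_inv_cancel₀ ht1'.ne'
    have f1 : t * (M * (t⁻¹ ^ 2 * n)) = M * t⁻¹ * n := by
      calc t * (M * (t⁻¹ ^ 2 * n)) = (t * t⁻¹) * (M * t⁻¹ * n) := by ring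
        _ = _ := by rw [i1, one_mul]
    have f2 : (1 - t) * (M * ((1 - t)⁻¹ ^ 2 * n)) = M * (1 - t)⁻¹ * n := by
      calc (1 - t) * (M * ((1 - t)⁻¹ ^ 2 * n)) = ((1 - t) * (1 - t)⁻¹) * (M * (1 - t)⁻¹ * n) := by
            ring
        _ = _ := by rw [i2, one_mul]
    have g1 : t * (h (Ξ a + t⁻¹ • (w - a)) - h (Ξ a) - t⁻¹ * F) =
        t * (h (Ξ a + t⁻¹ • (w - a)) - h (Ξ a)) - F := by
      calc _ = t * (h (Ξ a + t⁻¹ • (w - a)) - h (Ξ a)) - (t * t⁻¹) * F := by ring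
        _ = _ := by rw [i1, one_mul]
    have g2 : (1 - t) * (h (Ξ a - (1 - t)⁻¹ • (w - a)) - h (Ξ a) - -((1 - t)⁻¹ * F)) =
        (1 - t) * (h (Ξ a - (1 - t)⁻¹ • (w - a)) - h (Ξ a)) + F := by
      calc _ = (1 - t) * (h (Ξ a - (1 - t)⁻¹ • (w - a)) - h (Ξ a)) +
            ((1 - t) * (1 - t)⁻¹) * F := by ring
        _ = _ := by rw [i2, one_mul]
    rw [f1, g1] at d1
    rw [f2, g2] at d2
    have m1 : 0 ≤ M * t⁻¹ * n := by positivity
    have m2 : 0 ≤ M * (1 - t)⁻¹ * n := by positivity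
    rw [abs_le]
    constructor
    · linarith
    · linarith
  have hp : HasFDerivAt (fun w => fderiv ℝ h (Ξ w)) ((Hs h (Ξ z)).comp (fderiv ℝ Ξ z)) z :=
    ((h1.differentiable (by norm_num)).differentiableAt.hasFDerivAt).comp z hdiff.hasFDerivAt
  obtain ⟨hsym, hlim⟩ := W358.Alex.K2 V A (fun w => fderiv ℝ h (Ξ w)) Z (ball z 1) _ z hzZ
    (ball_mem_nhds _ one_pos) hest hden' _ hp
  refine ⟨hdiff, fun k l => hsym k l, fun k => ?_, fun k => ?_⟩
  · have T := (taylor2 hh.smooth (Ξ z) (t⁻¹ • k)).const_mul t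
    have hle : Hs h (Ξ z) (fderiv ℝ Ξ z k) k / 2 ≤
        t * (Hs h (Ξ z) (t⁻¹ • k) (t⁻¹ • k) / 2) := by
      refine le_of_tendsto_of_tendsto (hlim k) T ?_
      filter_upwards [self_mem_nhdsWithin] with r hr
      have hr' : r ≠ 0 := hr
      have hr2 : 0 < r ^ 2 := by positivity
      rw [← mul_div_assoc]
      refine div_le_div_of_nonneg_right ?_ hr2.le
      have u1 := (hA z hzZ (z + r • k)).1
      rw [add_sub_cancel_left, smul_comm] at u1
      have : t * (r * fderiv ℝ h (Ξ z) (t⁻¹ • k)) = r * fderiv ℝ h (Ξ z) k := by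
        rw [map_smul, smul_eq_mul]
        field_simp
      rw [mul_sub, this]
      linarith
    rw [map_smul, map_smul, smul_apply, smul_eq_mul, smul_eq_mul] at hle
    have e : t * (t⁻¹ * (t⁻¹ * Hs h (Ξ z) k k) / 2) = t⁻¹ * (Hs h (Ξ z) k k / 2) := by
      field_simp
    rw [e] at hle
    have := mul_le_mul_of_nonneg_left hle ht0.le
    rw [← mul_assoc, mul_inv_cancel₀ ht0.ne', one_mul] at this
    linarith
  · have T := (taylor2 hh.smooth (Ξ z) (-((1 - t)⁻¹ • k))).const_mul (1 - t)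
    have hle : -((1 - t) * (Hs h (Ξ z) (-((1 - t)⁻¹ • k)) (-((1 - t)⁻¹ • k)) / 2)) ≤
        Hs h (Ξ z) (fderiv ℝ Ξ z k) k / 2 := by
      refine le_of_tendsto_of_tendsto T.neg (hlim k) ?_
      filter_upwards [self_mem_nhdsWithin] with r hr
      have hr' : r ≠ 0 := hr
      have hr2 : 0 < r ^ 2 := by positivity
      rw [← mul_div_assoc, ← neg_div]
      refine div_le_div_of_nonneg_right ?_ hr2.le
      have u1 := (hA z hzZ (z + r • k)).2
      rw [add_sub_cancel_left, smul_comm, sub_eq_add_neg (Ξ z), ← smul_neg] at u1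
      have : (1 - t) * (r * fderiv ℝ h (Ξ z) (-((1 - t)⁻¹ • k))) =
          -(r * fderiv ℝ h (Ξ z) k) := by
        rw [map_neg, map_smul, smul_eq_mul]
        field_simp
      rw [mul_sub, this]
      linarith
    rw [map_neg, map_neg, neg_apply, neg_neg, map_smul, map_smul, smul_apply, smul_eq_mul,
      smul_eq_mul] at hle
    have e : (1 - t) * ((1 - t)⁻¹ * ((1 - t)⁻¹ * Hs h (Ξ z) k k) / 2) =
        (1 - t)⁻¹ * (Hs h (Ξ z) k k / 2) := by
      field_simp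
    rw [e] at hle
    have := mul_le_mul_of_nonneg_left hle ht1'.le
    rw [mul_neg, ← mul_assoc, mul_inv_cancel₀ ht1'.ne', one_mul] at this
    linarith

end Pool.Agent.Helper76K9.CL
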