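import Pool.Agent.Helper76K9.CL.Defs
import Pool.Agent.W553.RCD.Stmts3

/-!
# Statements of the independent pieces (leaves)
-/

set_option autoImplicit false

open MeasureTheory Set Filter Topology Metric
open scoped ENNReal NNReal

namespace Pool.Agent.Helper76K9.CL

/-- A good cost: twice continuously differentiable and uniformly convex. -/
structure Good (h : V → ℝ) : Prop where
  smooth : ContDiff ℝ 2 h
  strong : ∃ ε : ℝ, 0 < ε ∧ ∀ u v : V, h u + fderiv ℝ h u (v - u) + ε * ‖v - u‖ ^ 2 ≤ h v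

/-- The second derivative of `h` at `ξ`. -/
noncomputable abbrev Hs (h : V → ℝ) (ξ : V) : V →L[ℝ] V →L[ℝ] ℝ := fderiv ℝ (fderiv ℝ h) ξ

/-- The intermediate point. -/
noncomputable def mid (t : ℝ) (p : V × V) : V := (1 - t) • p.1 + t • p.2

/-- LSE: good costs that converge to the square of the sup norm (for instance
`h_k(v) = (1/(k+1)) (log ∑ exp((k+1) v_i²) + ∑ v_i²)`). -/
def S_LSE : Prop :=
  ∃ h : ℕ → V → ℝ, (∀ k, Good (h k)) ∧ (∀ k v, h k (-v) = h k v) ∧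
    ∀ k v, ‖v‖ ^ 2 ≤ h k v ∧ h k v ≤ ‖v‖ ^ 2 + (2 + 3 * ‖v‖ ^ 2) / ((k : ℝ) + 1)

/-- POS: the second derivative of a good cost is symmetric and positive definite. -/
def S_POS : Prop :=
  ∀ h : V → ℝ, Good h → ∀ ξ : V, (∀ k l, Hs h ξ k l = Hs h ξ l k) ∧ ∀ k, k ≠ 0 → 0 < Hs h ξ k k

/-- HL: the Hopf-Lax potential at time `t` and the (Lipschitz) velocity field on the set `Z` of
intermediate points. Here `A w = inf_x (t h((w-x)/t) - φ x)`, `B w = inf_y ((1-t) h((y-w)/(1-t)) - ψ y)`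
and `Z = {A + B = 0}`; if `x, y` are minimizers at `z ∈ Z`, then `y - x = (z-x)/t = (y-z)/(1-t) = Ξ z`
(strict convexity), and `fderiv h (Ξ z)` is the derivative of `A` at `z`. -/
def S_HL : Prop :=
  ∀ h : V → ℝ, Good h → ∀ R : ℝ, 0 < R → ∀ φ ψ : closedBall (0 : V) R → ℝ, Continuous φ →
    Continuous ψ → (∀ x y, φ x + ψ y ≤ h (y.1 - x.1)) → ∀ t : ℝ, 0 < t → t < 1 →
    ∃ (Z : Set V) (A : V → ℝ) (Ξ : V → V) (L : ℝ≥0), IsClosed Z ∧ Z ⊆ closedBall 0 R ∧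
      LipschitzWith L Ξ ∧
      (∀ x y : closedBall (0 : V) R, φ x + ψ y = h (y.1 - x.1) →
        mid t (x.1, y.1) ∈ Z ∧ Ξ (mid t (x.1, y.1)) = y.1 - x.1) ∧
      (∀ z ∈ Z, z - t • Ξ z ∈ closedBall (0 : V) R ∧ z + (1 - t) • Ξ z ∈ closedBall (0 : V) R) ∧
      ∀ z ∈ Z, ∀ w : V,
        A w ≤ A z + t * (h (Ξ z + t⁻¹ • (w - z)) - h (Ξ z)) ∧
        A z - (1 - t) * (h (Ξ z - (1 - t)⁻¹ • (w - z)) - h (Ξ z)) ≤ A w

/-- DEN: almost every point of a closed set is a point of density in the weak sense needed for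
`S_K2` (adapt `Q_of_density`, `ae_Q` of `Pool/Agent/W342/RCD/K12.lean`). -/
def S_DEN : Prop :=
  ∀ Z : Set V, IsClosed Z → ∀ᵐ z : V, z ∈ Z → ∀ ε > 0, ∀ᶠ w in 𝓝 z, ∃ a ∈ Z, ‖w - a‖ ≤ ε * ‖w - z‖

/-- SO: second order conditions at almost every point of `Z` (use `S_K2`, proved in
`Pool/Agent/W358/Alex.lean`, Rademacher's theorem and `S_DEN`). -/
def S_SO : Prop :=
  ∀ h : V → ℝ, Good h → ∀ R t : ℝ, 0 < R → 0 < t → t < 1 → ∀ (Z : Set V) (A : V → ℝ) (Ξ : V → V)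
    (L : ℝ≥0), IsClosed Z → Z ⊆ closedBall 0 R → LipschitzWith L Ξ →
    (∀ z ∈ Z, ∀ w : V,
      A w ≤ A z + t * (h (Ξ z + t⁻¹ • (w - z)) - h (Ξ z)) ∧
      A z - (1 - t) * (h (Ξ z - (1 - t)⁻¹ • (w - z)) - h (Ξ z)) ≤ A w) →
    ∀ᵐ z : V, z ∈ Z → DifferentiableAt ℝ Ξ z ∧
      (∀ k l, Hs h (Ξ z) (fderiv ℝ Ξ z k) l = Hs h (Ξ z) (fderiv ℝ Ξ z l) k) ∧
      (∀ k, 0 ≤ Hs h (Ξ z) k k - t * Hs h (Ξ z) (fderiv ℝ Ξ z k) k) ∧
      (∀ k, 0 ≤ Hs h (Ξ z) k k + (1 - t) * Hs h (Ξ z) (fderiv ℝ Ξ z k) k)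

/-- DET: the determinant inequality. (`E` is self-adjoint for the inner product `H`, with
eigenvalues `l_i`, `1 - t l_i ≥ 0`, `1 + (1-t) l_i ≥ 0`; AM-GM.) -/
def S_DET : Prop :=
  ∀ (H : V →L[ℝ] V →L[ℝ] ℝ) (E : V →L[ℝ] V) (t : ℝ), 0 < t → t < 1 →
    (∀ k l, H k l = H l k) → (∀ k, k ≠ 0 → 0 < H k k) → (∀ k l, H (E k) l = H (E l) k) →
    (∀ k, 0 ≤ H k k - t * H (E k) k) → (∀ k, 0 ≤ H k k + (1 - t) * H (E k) k) →
    ∀ N : ℝ, 3 ≤ N →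
      (1 - t) * |(ContinuousLinearMap.id ℝ V - t • E).det| ^ (1 / N) +
        t * |(ContinuousLinearMap.id ℝ V + (1 - t) • E).det| ^ (1 / N) ≤ 1

/-- K14V: the measure theoretic part of the inequality, on `V` with the Lebesgue measure (adapt
`Pool/Agent/W358/CDMeas.lean`, `K14`, where the space is compact). -/
def S_K14V : Prop :=
  ∀ (μ₀ μ₁ : Measure V), IsProbabilityMeasure μ₀ → IsProbabilityMeasure μ₁ →
    μ₀ ≪ volume → μ₁ ≪ volume → ∀ (q : Measure (V × V)), IsCoupling μ₀ μ₁ q →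
    ∀ (G : V × V → V), Measurable G → ∀ (Z D : Set V), IsClosed Z → volume (Z \ D) = 0 →
    ∀ (S₀ S₁ : V → V), Continuous S₀ → Continuous S₁ →
    (∀ᵐ p ∂q, G p ∈ Z ∧ S₀ (G p) = p.1 ∧ S₁ (G p) = p.2) →
    ∀ (j₀ j₁ : V → ℝ≥0∞), Measurable j₀ → Measurable j₁ → (∀ z, j₀ z ≠ ∞) → (∀ z, j₁ z ≠ ∞) →
    (∀ K ⊆ Z ∩ D, IsCompact K → volume (S₀ '' K) ≤ ∫⁻ z in K, j₀ z) →
    (∀ K ⊆ Z ∩ D, IsCompact K → volume (S₁ '' K) ≤ ∫⁻ z in K, j₁ z) →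
    (∀ K ⊆ Z, IsCompact K → volume K = 0 → volume (S₀ '' K) = 0) →
    ∀ (T₀ T₁ : ℝ≥0∞) (N : ℝ), 1 < N →
      (∀ᵐ z : V, z ∈ Z → j₀ z ≠ 0 → j₁ z ≠ 0 → T₀ * j₀ z ^ (1 / N) + T₁ * j₁ z ^ (1 / N) ≤ 1) →
      T₀ * negS volume N μ₀ + T₁ * negS volume N μ₁ ≤ negS volume N (q.map G)

/-- CDV: the displacement convexity for a good cost. -/
def S_CDV : Prop :=
  ∀ h : V → ℝ, Good h → ∀ R : ℝ, 0 < R → ∀ μ₀ μ₁ : Measure V, IsProbabilityMeasure μ₀ →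
    IsProbabilityMeasure μ₁ → μ₀ ≪ volume → μ₁ ≪ volume →
    μ₀ (closedBall 0 R)ᶜ = 0 → μ₁ (closedBall 0 R)ᶜ = 0 →
    ∃ q : Measure (V × V), IsCoupling μ₀ μ₁ q ∧
      (∀ q' : Measure (V × V), IsCoupling μ₀ μ₁ q' →
        ∫ p, h (p.2 - p.1) ∂q ≤ ∫ p, h (p.2 - p.1) ∂q') ∧
      ∀ t ∈ Icc (0 : ℝ) 1, ∀ N : ℝ, 3 ≤ N →
        ENNReal.ofReal (1 - t) * negS volume N μ₀ + ENNReal.ofReal t * negS volume N μ₁ ≤
          negS volume N (q.map (mid t))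

/-- USC: upper semicontinuity of `μ ↦ ∫ ρ^{1-1/N}` under weak convergence. (Young:
`r^{1-a} = inf_{l>0} ((1-a) l^{-a} r + a l^{1-a})`, hence
`negS N μ = inf_{l continuous > 0} ((1-a) ∫ l^{-a} dμ + a ∫_{ball} l^{1-a})`, with `a = 1/N`.) -/
def S_USC : Prop :=
  ∀ R : ℝ, 0 < R → ∀ (μ : ℕ → Measure V) (ν : Measure V), (∀ k, IsProbabilityMeasure (μ k)) →
    IsProbabilityMeasure ν → (∀ k, μ k (closedBall 0 R)ᶜ = 0) → ν (closedBall 0 R)ᶜ = 0 →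
    (∀ f : V → ℝ, Continuous f → Tendsto (fun k => ∫ x, f x ∂(μ k)) atTop (𝓝 (∫ x, f x ∂ν))) →
    ∀ N : ℝ, 1 < N → ∀ c : ℝ≥0∞, (∀ k, c ≤ negS volume N (μ k)) → c ≤ negS volume N ν

/-- CPT: weak sequential compactness of probability measures on a compact set. -/
def S_CPT : Prop :=
  ∀ R : ℝ, 0 < R → ∀ q : ℕ → Measure (V × V), (∀ k, IsProbabilityMeasure (q k)) →
    (∀ k, q k (closedBall 0 R ×ˢ closedBall 0 R)ᶜ = 0) →
    ∃ (p : Measure (V × V)) (s : ℕ → ℕ), IsProbabilityMeasure p ∧ StrictMono s ∧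
      p (closedBall 0 R ×ˢ closedBall 0 R)ᶜ = 0 ∧
      ∀ f : V × V → ℝ, Continuous f →
        Tendsto (fun k => ∫ x, f x ∂(q (s k))) atTop (𝓝 (∫ x, f x ∂p))

/-- LIM: displacement convexity for the sup norm. -/
def S_LIM : Prop :=
  ∀ R : ℝ, 0 < R → ∀ μ₀ μ₁ : Measure V, IsProbabilityMeasure μ₀ → IsProbabilityMeasure μ₁ →
    μ₀ ≪ volume → μ₁ ≪ volume → μ₀ (closedBall 0 R)ᶜ = 0 → μ₁ (closedBall 0 R)ᶜ = 0 →
    ∃ q : Measure (V × V), IsCoupling μ₀ μ₁ q ∧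
      (∀ q' : Measure (V × V), IsCoupling μ₀ μ₁ q' → cost q ≤ cost q') ∧
      ∀ t ∈ Icc (0 : ℝ) 1, ∀ N : ℝ, 3 ≤ N →
        ENNReal.ofReal (1 - t) * negS volume N μ₀ + ENNReal.ofReal t * negS volume N μ₁ ≤
          negS volume N (q.map (mid t))

/-- OPT: optimal couplings of symmetric measures are optimal for the quotient distance. (Duality
`W358.Kant.K1` on `closedBall 0 R` for the cost `‖x-y‖²`; replace the potentials `φ, ψ` by their even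
parts, which descend to the quotient.) -/
def S_OPT : Prop :=
  ∀ R : ℝ, 0 < R → ∀ μ₀ μ₁ : Measure V, IsProbabilityMeasure μ₀ → IsProbabilityMeasure μ₁ →
    μ₀ (closedBall 0 R)ᶜ = 0 → μ₁ (closedBall 0 R)ᶜ = 0 →
    μ₀.map (fun v => -v) = μ₀ → μ₁.map (fun v => -v) = μ₁ →
    ∀ q : Measure (V × V), IsCoupling μ₀ μ₁ q →
      (∀ q' : Measure (V × V), IsCoupling μ₀ μ₁ q' → cost q ≤ cost q') →
      ∀ r : Measure (Q × Q), IsCoupling (μ₀.map pr) (μ₁.map pr) r → cost q ≤ cost r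

/-- TRI: the triangle inequality for `W₂` (gluing of couplings). -/
def S_TRI : Prop :=
  ∀ (X : Type) [MetricSpace X] [MeasurableSpace X] [BorelSpace X] [CompleteSpace X]
    [SecondCountableTopology X] (μ₁ μ₂ μ₃ : Measure X), IsProbabilityMeasure μ₁ →
    IsProbabilityMeasure μ₂ → IsProbabilityMeasure μ₃ → W2 μ₁ μ₃ ≤ W2 μ₁ μ₂ + W2 μ₂ μ₃

/-- ENT: the Rényi functional and the projection. -/
def S_ENT : Prop :=
  ∀ μ : Measure V, IsProbabilityMeasure μ → ∀ N : ℝ, 1 < N →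
    negS volume N μ ≤ negS mQ N (μ.map pr)

/-- LIFT: symmetric lifts. -/
def S_LIFT : Prop :=
  ∀ μ : Measure Q, IsProbabilityMeasure μ → μ ≪ mQ →
    (∃ B : Set Q, Bornology.IsBounded B ∧ μ Bᶜ = 0) →
    ∃ ν : Measure V, IsProbabilityMeasure ν ∧ ν ≪ volume ∧ ν.map (fun v => -v) = ν ∧
      ν.map pr = μ ∧ (∃ R : ℝ, 0 < R ∧ ∀ R' : ℝ, R ≤ R' → ν (closedBall 0 R')ᶜ = 0) ∧
      ∀ N : ℝ, 1 < N → negS volume N ν = negS mQ N μ

/-- MET: the quotient is a metric measure space and contains a line. -/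
def S_MET : Prop := IsMMS mQ ∧ HasLine Q

/-- LFT: every continuous map from a half space minus a point to the punctured quotient lifts. Here
the half space is `{v | 0 < v i}` and the point is `p`. -/
def S_LFT : Prop :=
  ∀ (i : Fin 3) (p : V), 0 < p i → ∀ f : V → Q, ContinuousOn f ({v | 0 < v i} \ {p}) →
    (∀ v ∈ ({v | 0 < v i} \ {p} : Set V), f v ≠ pr 0) →
    ∃ F : V → V, ContinuousOn F ({v | 0 < v i} \ {p}) ∧
      ∀ v ∈ ({v | 0 < v i} \ {p} : Set V), pr (F v) = f v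

universe u

/-- TOP: the quotient does not split off a line topologically. -/
def S_TOP : Prop :=
  ∀ (X' : Type u) [TopologicalSpace X'], IsEmpty (Q ≃ₜ X' × ℝ)

end Pool.Agent.Helper76K9.CL
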