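import Pool.Agent.Helper76K9.CL.Lft

/-! # TOP: the quotient does not split off a line topologically -/

set_option autoImplicit false

open MeasureTheory Set Filter Topology Metric
open scoped ENNReal NNReal

namespace Pool.Agent.Helper76K9.CL

universe u

namespace TopL

open LftL

/-- near `pr w`, `0 < w i`, every point has a representative near `w` -/
theorem rep (i : Fin 3) (w : V) (x : Q) (hx : dist x (pr w) < w i) :
    ∃ u, pr u = x ∧ ‖u - w‖ = dist x (pr w) ∧ 0 < u i := by
  obtain ⟨v, rfl⟩ := pr_surjective x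
  have key : ∀ u : V, ‖u - w‖ < w i → 0 < u i ∧ w i < ‖u + w‖ := by
    intro u hu
    have h1 : |u i - w i| ≤ ‖u - w‖ := norm_le_pi_norm (u - w) i
    have h2 := abs_le.1 h1
    have h3 : 0 < u i := by linarith
    refine ⟨h3, ?_⟩
    have h4 : |u i + w i| ≤ ‖u + w‖ := norm_le_pi_norm (u + w) i
    have h5 := le_abs_self (u i + w i)
    linarith
  rw [dist_pr] at hx ⊢
  rcases min_lt_iff.1 hx with h | h
  · have := key v h
    refine ⟨v, rfl, ?_, this.1⟩
    rw [min_eq_left]
    linarith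
  · have h' : ‖-v - w‖ = ‖v + w‖ := by
      rw [show -v - w = -(v + w) by abel, norm_neg]
    have := key (-v) (by rwa [h'])
    refine ⟨-v, pr_neg v, ?_, this.1⟩
    rw [h', min_eq_right]
    have h2 : ‖-v + w‖ = ‖v - w‖ := by
      rw [show -v + w = -(v - w) by abel, norm_neg]
    rw [h2] at this
    linarith

theorem rep_unique (i : Fin 3) (u w : V) (hu : 0 < u i) (hw : 0 < w i) (h : pr u = pr w) :
    u = w := by
  rcases pr_eq.1 h with h' | h'
  · exact h'.symm
  · exfalso
    have := congrFun h' i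
    rw [Pi.neg_apply] at this
    linarith

theorem exists_sec (i : Fin 3) : ∃ σ : Q → V, (∀ w : V, 0 < w i → σ (pr w) = w) ∧
    ∀ w : V, 0 < w i → ContinuousAt σ (pr w) := by
  classical
  obtain ⟨σ, hσ⟩ : ∃ σ : Q → V, ∀ x, (∃ u, pr u = x ∧ 0 < u i) → pr (σ x) = x ∧ 0 < (σ x) i := by
    refine ⟨fun x => if h : ∃ u, pr u = x ∧ 0 < u i then h.choose else 0, fun x hx => ?_⟩
    simp only [dif_pos hx]
    exact hx.choose_spec
  have h1 : ∀ w : V, 0 < w i → σ (pr w) = w := by
    intro w hw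
    have := hσ (pr w) ⟨w, rfl, hw⟩
    exact rep_unique i _ _ this.2 hw this.1
  refine ⟨σ, h1, fun w hw => ?_⟩
  rw [Metric.continuousAt_iff]
  intro ε hε
  refine ⟨min ε (w i), lt_min hε hw, fun x hx => ?_⟩
  obtain ⟨u, hu1, hu2, hu3⟩ := rep i w x (lt_of_lt_of_le hx (min_le_right _ _))
  rw [← hu1, h1 u hu3, h1 w hw, dist_eq_norm, hu2]
  exact lt_of_lt_of_le hx (min_le_left _ _)

/-- no self-homeomorphism of the quotient moves the cone point -/
theorem fix (hL : S_LFT) (T : Q ≃ₜ Q) : T (pr 0) = pr 0 := by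
  by_contra hT
  obtain ⟨v1, hv1⟩ := pr_surjective (T (pr 0))
  have hv1' : v1 ≠ 0 := by
    rintro rfl
    exact hT hv1.symm
  -- a positive coordinate
  obtain ⟨i, v0, hv0, hv0i⟩ : ∃ (i : Fin 3) (v0 : V), pr v0 = T (pr 0) ∧ 0 < v0 i := by
    obtain ⟨i, hi⟩ : ∃ i, v1 i ≠ 0 := by
      by_contra h
      push Not at h
      exact hv1' (funext h)
    rcases lt_or_gt_of_ne hi with h | h
    · exact ⟨i, -v1, by rw [pr_neg, hv1], by rw [Pi.neg_apply]; linarith⟩
    · exact ⟨i, v1, hv1, h⟩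
  obtain ⟨F, hF, hF'⟩ := hL i v0 hv0i (fun v => T.symm (pr v))
    ((T.symm.continuous.comp continuous_pr).continuousOn) (by
      rintro v ⟨hv, hv'⟩ h
      apply hv'
      have h1 : pr v = T (pr 0) := by
        rw [← h, T.apply_symm_apply]
      rw [← hv0] at h1
      exact rep_unique i v v0 hv hv0i h1)
  obtain ⟨σ, hσ, hσc⟩ := exists_sec i
  -- a small ball
  have hc : ContinuousAt (fun v : V => T (pr v)) 0 := (T.continuous.comp continuous_pr).continuousAt
  obtain ⟨δ, hδ, hδ'⟩ := Metric.continuousAt_iff.1 hc (v0 i) hv0i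
  have hrep : ∀ v : V, ‖v‖ < δ → ∃ u, pr u = T (pr v) ∧ 0 < u i := by
    intro v hv
    have h1 : dist (T (pr v)) (pr v0) < v0 i := by
      have := hδ' (x := v) (by rwa [dist_zero_right])
      rwa [← hv0] at this
    obtain ⟨u, hu1, -, hu3⟩ := rep i v0 _ h1
    exact ⟨u, hu1, hu3⟩
  obtain ⟨r, hr, hrδ⟩ : ∃ r : ℝ, 0 < r ∧ r < δ := ⟨δ / 2, by linarith, by linarith⟩
  -- the map `b`
  have hb : ∀ v ∈ sphere (0 : V) r, pr (σ (T (pr v))) = T (pr v) ∧ 0 < (σ (T (pr v))) i ∧
      σ (T (pr v)) ≠ v0 := by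
    intro v hv
    rw [mem_sphere_zero_iff_norm] at hv
    obtain ⟨u, hu1, hu2⟩ := hrep v (by rw [hv]; exact hrδ)
    rw [← hu1, hσ u hu2]
    refine ⟨rfl, hu2, ?_⟩
    rintro rfl
    have h1 : T (pr 0) = T (pr v) := hv0.symm.trans hu1
    have h2 := T.injective h1
    rcases pr_eq.1 h2 with h3 | h3
    · rw [h3, norm_zero] at hv
      linarith
    · rw [h3, neg_zero, norm_zero] at hv
      linarith
  have hg : ContinuousOn (fun v => F (σ (T (pr v)))) (sphere (0 : V) r) := by
    refine hF.comp (t := {v | 0 < v i} \ {v0}) ?_ ?_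
    · intro v hv
      obtain ⟨u, hu1, hu2⟩ := hrep v (by rw [mem_sphere_zero_iff_norm.1 hv]; exact hrδ)
      have h1 : ContinuousAt σ (T (pr v)) := by
        rw [← hu1]
        exact hσc u hu2
      exact (ContinuousAt.comp (f := fun v : V => T (pr v)) (g := σ) h1
        (T.continuous.comp continuous_pr).continuousAt).continuousWithinAt
    · intro v hv
      exact ⟨(hb v hv).2.1, (hb v hv).2.2⟩
  have hg' : ∀ v ∈ sphere (0 : V) r, pr (F (σ (T (pr v)))) = pr v := by
    intro v hv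
    have h1 := hF' (σ (T (pr v))) ⟨(hb v hv).2.1, (hb v hv).2.2⟩
    rw [h1]
    show T.symm (pr (σ (T (pr v)))) = pr v
    rw [(hb v hv).1, T.symm_apply_apply]
  have hrank : 1 < Module.rank ℝ V := by
    rw [rank_fin_fun]
    norm_num
  have hconn : IsPreconnected (sphere (0 : V) r) := isPreconnected_sphere hrank 0 r
  have hs := sign_const (sphere (0 : V) r) hconn (fun v => v) (fun v => F (σ (T (pr v))))
    continuousOn_id hg (by
      intro v hv h
      rw [mem_sphere_zero_iff_norm] at hv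
      have h' : v = 0 := h
      rw [h', norm_zero] at hv
      linarith) (by
      intro v hv
      exact pr_eq.1 (hg' v hv).symm)
  obtain ⟨v, hv⟩ : ∃ v : V, v ∈ sphere (0 : V) r := by
    have := (isConnected_sphere hrank (0 : V) hr.le).nonempty
    exact this
  have hv' : -v ∈ sphere (0 : V) r := by
    rw [mem_sphere_zero_iff_norm] at hv ⊢
    rw [norm_neg, hv]
  have hvne : v ≠ 0 := by
    rintro rfl
    rw [mem_sphere_zero_iff_norm, norm_zero] at hv
    linarith
  rcases hs with hs | hs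
  · have h1 := hs v hv
    have h2 := hs (-v) hv'
    simp only [pr_neg] at h1 h2
    rw [h1] at h2
    exact hvne (self_eq_neg.1 h2)
  · have h1 := hs v hv
    have h2 := hs (-v) hv'
    simp only [pr_neg] at h1 h2
    rw [h1, neg_neg] at h2
    exact hvne (self_eq_neg.1 h2.symm)

end TopL

open TopL in
theorem top (hL : S_LFT) : S_TOP.{u} := by
  intro X' _
  refine ⟨fun φ => ?_⟩
  let s : X' × ℝ ≃ₜ X' × ℝ := (Homeomorph.refl X').prodCongr (Homeomorph.addRight (1 : ℝ))
  have h := fix hL ((φ.trans s).trans φ.symm)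
  have h1 : φ.symm (s (φ (pr 0))) = pr 0 := h
  have h2 : s (φ (pr 0)) = φ (pr 0) := by
    have := congrArg φ h1
    rwa [φ.apply_symm_apply] at this
  have h3 := congrArg Prod.snd h2
  have h4 : (φ (pr 0)).2 + 1 = (φ (pr 0)).2 := h3
  linarith

end Pool.Agent.Helper76K9.CL
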