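import Pool.Agent.Helper76K9.CL.Stm

/-! # [TRI] the triangle inequality for `W2` -/

set_option autoImplicit false

open MeasureTheory Set Filter Topology Metric ProbabilityTheory
open scoped ENNReal NNReal

namespace Pool.Agent.Helper76K9.CL

namespace TriL

variable {X : Type} [MetricSpace X] [MeasurableSpace X]

theorem W2_eq (μ ν : Measure X) :
    W2 μ ν = ⨅ (q : Measure (X × X)) (_ : IsCoupling μ ν q), (cost q) ^ (1 / 2 : ℝ) := by
  unfold W2
  have h : ∀ x : ℝ≥0∞, x ^ (1 / 2 : ℝ) = ENNReal.orderIsoRpow (1 / 2 : ℝ) (by norm_num) x :=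
    fun x => rfl
  rw [h, OrderIso.map_iInf]
  simp only [OrderIso.map_iInf]
  rfl

variable [BorelSpace X] [CompleteSpace X] [SecondCountableTopology X]

theorem prob_of_coupling {μ ν : Measure X} [IsProbabilityMeasure μ] {q : Measure (X × X)}
    (h : IsCoupling μ ν q) : IsProbabilityMeasure q := by
  refine ⟨?_⟩
  have h1 : (q.map Prod.fst) univ = 1 := by rw [h.1]; exact measure_univ
  rwa [Measure.map_apply measurable_fst MeasurableSet.univ, preimage_univ] at h1

theorem glue {μ₁ μ₂ μ₃ : Measure X} [IsProbabilityMeasure μ₁] [IsProbabilityMeasure μ₂]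
    {q₁ q₂ : Measure (X × X)} (h₁ : IsCoupling μ₁ μ₂ q₁)
    (h₂ : IsCoupling μ₂ μ₃ q₂) : ∃ γ : Measure ((X × X) × X),
      γ.map Prod.fst = q₁ ∧ γ.map (fun p => (p.1.2, p.2)) = q₂ := by
  have hq₁ : IsProbabilityMeasure q₁ := prob_of_coupling h₁
  have hq₂ : IsProbabilityMeasure q₂ := prob_of_coupling h₂
  have hne : Nonempty X := nonempty_of_isProbabilityMeasure μ₁
  set κ := q₂.condKernel with hκ
  have hdis : q₂.fst ⊗ₘ κ = q₂ := q₂.disintegrate κ
  refine ⟨q₁ ⊗ₘ (κ.comap Prod.snd measurable_snd), ?_, ?_⟩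
  · exact Measure.fst_compProd q₁ (κ.comap Prod.snd measurable_snd)
  · have hm : Measurable fun p : (X × X) × X => (p.1.2, p.2) := by fun_prop
    ext s hs
    rw [Measure.map_apply hm hs, Measure.compProd_apply (hm hs)]
    conv_rhs => rw [← hdis]
    rw [Measure.compProd_apply hs]
    have h3 : q₂.fst = q₁.map Prod.snd := by
      rw [h₁.2]; exact h₂.1
    rw [h3, lintegral_map (Kernel.measurable_kernel_prodMk_left hs) measurable_snd]
    apply lintegral_congr
    intro x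
    rw [Kernel.comap_apply]
    rfl

theorem step {μ₁ μ₂ μ₃ : Measure X} [IsProbabilityMeasure μ₁] [IsProbabilityMeasure μ₂]
    {q₁ q₂ : Measure (X × X)} (h₁ : IsCoupling μ₁ μ₂ q₁)
    (h₂ : IsCoupling μ₂ μ₃ q₂) : W2 μ₁ μ₃ ≤ cost q₁ ^ (1 / 2 : ℝ) + cost q₂ ^ (1 / 2 : ℝ) := by
  obtain ⟨γ, hγ₁, hγ₂⟩ := glue h₁ h₂
  have hm12 : Measurable fun p : (X × X) × X => (p.1.2, p.2) := by fun_prop
  have hm02 : Measurable fun p : (X × X) × X => (p.1.1, p.2) := by fun_prop
  have hed : Measurable fun p : X × X => edist p.1 p.2 := measurable_edist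
  set r := γ.map (fun p => (p.1.1, p.2)) with hr
  have hr' : IsCoupling μ₁ μ₃ r := by
    constructor
    · rw [hr, Measure.map_map measurable_fst hm02]
      have e : (Prod.fst ∘ fun p : (X × X) × X => (p.1.1, p.2)) = Prod.fst ∘ Prod.fst := rfl
      rw [e, ← Measure.map_map measurable_fst measurable_fst, hγ₁]
      exact h₁.1
    · rw [hr, Measure.map_map measurable_snd hm02]
      have e : (Prod.snd ∘ fun p : (X × X) × X => (p.1.1, p.2)) =
          Prod.snd ∘ fun p : (X × X) × X => (p.1.2, p.2) := rfl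
      rw [e, ← Measure.map_map measurable_snd hm12, hγ₂]
      exact h₂.2
  have h1 : W2 μ₁ μ₃ ≤ cost r ^ (1 / 2 : ℝ) := by
    rw [W2_eq]
    exact iInf₂_le r hr'
  refine h1.trans ?_
  have hc : cost r = ∫⁻ p, edist p.1.1 p.2 ^ (2 : ℝ) ∂γ := by
    unfold cost
    rw [hr, lintegral_map (hed.pow_const 2) hm02]
    simp only [ENNReal.rpow_two]
  have hc₁ : cost q₁ = ∫⁻ p, edist p.1.1 p.1.2 ^ (2 : ℝ) ∂γ := by
    unfold cost
    rw [← hγ₁, lintegral_map (hed.pow_const 2) measurable_fst]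
    simp only [ENNReal.rpow_two]
  have hc₂ : cost q₂ = ∫⁻ p, edist p.1.2 p.2 ^ (2 : ℝ) ∂γ := by
    unfold cost
    rw [← hγ₂, lintegral_map (hed.pow_const 2) hm12]
    simp only [ENNReal.rpow_two]
  have hf : Measurable fun p : (X × X) × X => edist p.1.1 p.1.2 := hed.comp measurable_fst
  have hg : Measurable fun p : (X × X) × X => edist p.1.2 p.2 := hed.comp hm12
  have hmin := ENNReal.lintegral_Lp_add_le (p := 2) (μ := γ) hf.aemeasurable hg.aemeasurable
    (by norm_num)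
  rw [hc, hc₁, hc₂]
  refine le_trans ?_ hmin
  apply ENNReal.rpow_le_rpow _ (by norm_num)
  apply lintegral_mono
  intro p
  apply ENNReal.rpow_le_rpow _ (by norm_num)
  exact edist_triangle _ _ _

end TriL

open TriL in
theorem tri : S_TRI := by
  intro X _ _ _ _ _ μ₁ μ₂ μ₃ h1 h2 h3
  rw [W2_eq μ₁ μ₂, W2_eq μ₂ μ₃]
  have key : ∀ q₂, IsCoupling μ₂ μ₃ q₂ → W2 μ₁ μ₃ ≤
      (⨅ (q : Measure (X × X)) (_ : IsCoupling μ₁ μ₂ q), (cost q) ^ (1 / 2 : ℝ)) +
        cost q₂ ^ (1 / 2 : ℝ) := by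
    intro q₂ hq₂
    rw [← tsub_le_iff_right]
    refine le_iInf₂ fun q₁ hq₁ => ?_
    rw [tsub_le_iff_right]
    exact step hq₁ hq₂
  rw [← tsub_le_iff_left]
  refine le_iInf₂ fun q₂ hq₂ => ?_
  rw [tsub_le_iff_left]
  exact key q₂ hq₂

end Pool.Agent.Helper76K9.CL
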