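import Pool.Agent.Helper76K9.CL.Stm

/-!
# Upper semicontinuity of the Renyi functional under weak convergence
-/

set_option autoImplicit false

open MeasureTheory Set Filter Topology Metric
open scoped ENNReal NNReal

namespace Pool.Agent.Helper76K9.CL

namespace UscL

lemma young {a r l : ℝ} (ha0 : 0 < a) (ha1 : a < 1) (hr : 0 ≤ r) (hl : 0 < l) :
    r ^ a ≤ a * l ^ (a - 1) * r + (1 - a) * l ^ a := by
  have h := Real.geom_mean_le_arith_mean2_weighted ha0.le (by linarith : (0:ℝ) ≤ 1 - a)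
    (mul_nonneg (Real.rpow_nonneg hl.le (a - 1)) hr) (Real.rpow_nonneg hl.le a) (by ring)
  have e : (l ^ (a - 1) * r) ^ a * (l ^ a) ^ (1 - a) = r ^ a := by
    rw [Real.mul_rpow (by positivity) hr, ← Real.rpow_mul hl.le, ← Real.rpow_mul hl.le,
      mul_right_comm, ← Real.rpow_add hl]
    have : (a - 1) * a + a * (1 - a) = 0 := by ring
    rw [this, Real.rpow_zero, one_mul]
  rw [e] at h
  linarith

lemma young' {a l : ℝ} (ha0 : 0 < a) (ha1 : a < 1) (y : ℝ≥0∞) (hl : 0 < l) :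
    y ^ a ≤ ENNReal.ofReal (a * l ^ (a - 1)) * y + ENNReal.ofReal ((1 - a) * l ^ a) := by
  have hp : 0 < a * l ^ (a - 1) := mul_pos ha0 (Real.rpow_pos_of_pos hl _)
  by_cases hy : y = ⊤
  · rw [hy, ENNReal.mul_top (by simpa using hp), top_add]
    exact le_top
  · have e : y = ENNReal.ofReal y.toReal := (ENNReal.ofReal_toReal hy).symm
    rw [e, ENNReal.ofReal_rpow_of_nonneg ENNReal.toReal_nonneg ha0.le,
      ← ENNReal.ofReal_mul hp.le, ← ENNReal.ofReal_add (by positivity)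
        (mul_nonneg (by linarith) (Real.rpow_nonneg hl.le _))]
    exact ENNReal.ofReal_le_ofReal (young ha0 ha1 ENNReal.toReal_nonneg hl)

/-- the comparison functional -/
noncomputable def Φ (a : ℝ) (B : Set V) (μ : Measure V) (g : V → ℝ) : ℝ≥0∞ :=
  (∫⁻ x, ENNReal.ofReal (a * g x ^ (a - 1)) ∂μ) + ∫⁻ x in B, ENNReal.ofReal ((1 - a) * g x ^ a)

lemma rn_zero {μ : Measure V} [IsFiniteMeasure μ] {B : Set V} (hB : MeasurableSet B)
    (h : μ Bᶜ = 0) : ∀ᵐ x, x ∉ B → μ.rnDeriv volume x = 0 := by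
  have h1 : ∫⁻ x in Bᶜ, μ.rnDeriv volume x = 0 :=
    le_antisymm ((Measure.setLIntegral_rnDeriv_le _).trans h.le) bot_le
  rw [lintegral_eq_zero_iff (Measure.measurable_rnDeriv _ _)] at h1
  have h2 := (ae_restrict_iff' hB.compl).1 h1
  filter_upwards [h2] with x hx hxB
  exact hx hxB

lemma lint_B {μ : Measure V} [IsFiniteMeasure μ] {B : Set V} (hB : MeasurableSet B)
    (h : μ Bᶜ = 0) {F : V → ℝ≥0∞} (hF : ∀ x, μ.rnDeriv volume x = 0 → F x = 0) :
    ∫⁻ x, F x = ∫⁻ x in B, F x := by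
  rw [← lintegral_indicator hB]
  apply lintegral_congr_ae
  filter_upwards [rn_zero hB h] with x hx
  by_cases hxB : x ∈ B
  · rw [indicator_of_mem hxB]
  · rw [indicator_of_notMem hxB]
    exact hF x (hx hxB)

lemma upper {a : ℝ} (ha0 : 0 < a) (ha1 : a < 1) {μ : Measure V} [IsFiniteMeasure μ] {B : Set V}
    (hB : MeasurableSet B) (h : μ Bᶜ = 0) {g : V → ℝ} (hg : Measurable g) (hg0 : ∀ x, 0 < g x) :
    ∫⁻ x, (μ.rnDeriv volume x) ^ a ≤ Φ a B μ g := by
  have hm1 : Measurable fun x => ENNReal.ofReal (a * g x ^ (a - 1)) := by fun_prop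
  have h1 : ∫⁻ x, ENNReal.ofReal (a * g x ^ (a - 1)) * μ.rnDeriv volume x ≤
      ∫⁻ x, ENNReal.ofReal (a * g x ^ (a - 1)) ∂μ := by
    have h2 := lintegral_mono' (Measure.withDensity_rnDeriv_le μ volume)
      (le_refl fun x => ENNReal.ofReal (a * g x ^ (a - 1)))
    rw [lintegral_withDensity_eq_lintegral_mul _ (Measure.measurable_rnDeriv _ _) hm1] at h2
    refine le_trans (le_of_eq ?_) h2
    exact lintegral_congr fun x => mul_comm _ _
  rw [lint_B hB h (F := fun x => (μ.rnDeriv volume x) ^ a) fun x hx => by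
    simp [hx, ha0]]
  calc ∫⁻ x in B, (μ.rnDeriv volume x) ^ a
      ≤ ∫⁻ x in B, (ENNReal.ofReal (a * g x ^ (a - 1)) * μ.rnDeriv volume x +
        ENNReal.ofReal ((1 - a) * g x ^ a)) :=
        lintegral_mono fun x => young' ha0 ha1 _ (hg0 x)
    _ = (∫⁻ x in B, ENNReal.ofReal (a * g x ^ (a - 1)) * μ.rnDeriv volume x) +
        ∫⁻ x in B, ENNReal.ofReal ((1 - a) * g x ^ a) :=
        lintegral_add_left (hm1.mul (Measure.measurable_rnDeriv _ _)) _
    _ ≤ Φ a B μ g := add_le_add ((setLIntegral_le_lintegral _ _).trans h1) le_rfl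

/-- approximation by continuous functions -/
lemma approx (m : Measure V) [IsFiniteMeasure m] {ℓ : V → ℝ} (hℓ : Measurable ℓ) {p q : ℝ}
    (hpq : ∀ x, ℓ x ∈ Icc p q) : ∃ g : ℕ → V → ℝ, (∀ n, Continuous (g n)) ∧
      (∀ n x, g n x ∈ Icc p q) ∧ ∀ᵐ x ∂m, Tendsto (fun n => g n x) atTop (𝓝 (ℓ x)) := by
  have hpq' : p ≤ q := (hpq 0).1.trans (hpq 0).2
  have hmem : MemLp ℓ 1 m := by
    refine MemLp.of_bound hℓ.aestronglyMeasurable (max |p| |q|) ?_
    filter_upwards with x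
    rw [Real.norm_eq_abs]
    exact abs_le_max_abs_abs (hpq x).1 (hpq x).2
  have h1 : ∀ n : ℕ, ∃ f : V → ℝ, Continuous f ∧
      eLpNorm (ℓ - f) 1 m ≤ ENNReal.ofReal (1 / ((n : ℝ) + 1)) ∧ AEStronglyMeasurable f m := by
    intro n
    obtain ⟨f, hf, hf2⟩ := hmem.exists_boundedContinuous_eLpNorm_sub_le ENNReal.one_ne_top
      (ε := ENNReal.ofReal (1 / ((n : ℝ) + 1))) (by
        rw [Ne, ENNReal.ofReal_eq_zero, not_le]
        positivity)
    exact ⟨f, f.continuous, hf, hf2.1⟩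
  choose f hf hfn hfm using h1
  have h2 : Tendsto (fun n => eLpNorm (f n - ℓ) 1 m) atTop (𝓝 0) := by
    have h3 : Tendsto (fun n : ℕ => ENNReal.ofReal (1 / ((n : ℝ) + 1))) atTop (𝓝 0) := by
      rw [← ENNReal.ofReal_zero]
      exact ENNReal.tendsto_ofReal tendsto_one_div_add_atTop_nhds_zero_nat
    refine tendsto_of_tendsto_of_tendsto_of_le_of_le tendsto_const_nhds h3 (fun _ => bot_le) ?_
    intro n
    change eLpNorm (f n - ℓ) 1 m ≤ _
    rw [← eLpNorm_neg, neg_sub]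
    exact hfn n
  obtain ⟨ns, -, hns⟩ := (tendstoInMeasure_of_tendsto_eLpNorm one_ne_zero hfm
    hℓ.aestronglyMeasurable h2).exists_seq_tendsto_ae
  refine ⟨fun n x => max p (min q (f (ns n) x)), fun n => ?_, fun n x => ⟨le_max_left _ _,
    max_le hpq' (min_le_left _ _)⟩, ?_⟩
  · exact continuous_const.max (continuous_const.min (hf _))
  · filter_upwards [hns] with x hx
    have h3 : Tendsto (fun n => max p (min q (f (ns n) x))) atTop
        (𝓝 (max p (min q (ℓ x)))) := (tendsto_const_nhds (x := p)).max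
      ((tendsto_const_nhds (x := q)).min hx)
    rwa [min_eq_right (hpq x).2, max_eq_right (hpq x).1] at h3

/-- passage to bounded measurable functions -/
lemma pass {a : ℝ} (ha0 : 0 < a) (ha1 : a < 1) {ν : Measure V} [IsFiniteMeasure ν] {B : Set V}
    (hBf : volume B ≠ ⊤) {c : ℝ≥0∞}
    (h : ∀ g : V → ℝ, Continuous g → (∀ x, 0 < g x) → (∃ p q, 0 < p ∧ ∀ x, g x ∈ Icc p q) →
      c ≤ Φ a B ν g) {ℓ : V → ℝ} (hℓ : Measurable ℓ) {p q : ℝ} (hp : 0 < p)
    (hpq : ∀ x, ℓ x ∈ Icc p q) : c ≤ Φ a B ν ℓ := by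
  have hfinB : IsFiniteMeasure ((volume : Measure V).restrict B) :=
    ⟨by simpa using hBf.lt_top⟩
  obtain ⟨g, hg, hgI, hgt⟩ := approx (ν + (volume : Measure V).restrict B) hℓ hpq
  have hg0 : ∀ n x, 0 < g n x := fun n x => hp.trans_le (hgI n x).1
  have hℓ0 : ∀ x, 0 < ℓ x := fun x => hp.trans_le (hpq x).1
  have t1 : ∀ᵐ x ∂ν, Tendsto (fun n => g n x) atTop (𝓝 (ℓ x)) :=
    (Measure.absolutelyContinuous_of_le (Measure.le_add_right le_rfl)).ae_le hgt
  have t2 : ∀ᵐ x ∂((volume : Measure V).restrict B), Tendsto (fun n => g n x) atTop (𝓝 (ℓ x)) :=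
    (Measure.absolutelyContinuous_of_le (Measure.le_add_left le_rfl)).ae_le hgt
  have i1 : Tendsto (fun n => ∫⁻ x, ENNReal.ofReal (a * g n x ^ (a - 1)) ∂ν) atTop
      (𝓝 (∫⁻ x, ENNReal.ofReal (a * ℓ x ^ (a - 1)) ∂ν)) := by
    refine tendsto_lintegral_of_dominated_convergence (fun _ => ENNReal.ofReal (a * p ^ (a - 1)))
      (fun n => ?_) (fun n => ?_) ?_ ?_
    · have := (hg n).measurable
      fun_prop
    · filter_upwards with x
      refine ENNReal.ofReal_le_ofReal (mul_le_mul_of_nonneg_left ?_ ha0.le)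
      exact Real.rpow_le_rpow_of_nonpos hp (hgI n x).1 (by linarith)
    · rw [lintegral_const]
      exact ENNReal.mul_ne_top ENNReal.ofReal_ne_top (measure_ne_top _ _)
    · filter_upwards [t1] with x hx
      exact ENNReal.tendsto_ofReal ((hx.rpow_const (Or.inl (hℓ0 x).ne')).const_mul a)
  have i2 : Tendsto (fun n => ∫⁻ x in B, ENNReal.ofReal ((1 - a) * g n x ^ a)) atTop
      (𝓝 (∫⁻ x in B, ENNReal.ofReal ((1 - a) * ℓ x ^ a))) := by
    refine tendsto_lintegral_of_dominated_convergence (fun _ => ENNReal.ofReal ((1 - a) * q ^ a))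
      (fun n => ?_) (fun n => ?_) ?_ ?_
    · have := (hg n).measurable
      fun_prop
    · filter_upwards with x
      refine ENNReal.ofReal_le_ofReal (mul_le_mul_of_nonneg_left ?_ (by linarith))
      exact Real.rpow_le_rpow (hg0 n x).le (hgI n x).2 ha0.le
    · rw [lintegral_const]
      exact ENNReal.mul_ne_top ENNReal.ofReal_ne_top (measure_ne_top _ _)
    · filter_upwards [t2] with x hx
      exact ENNReal.tendsto_ofReal ((hx.rpow_const (Or.inl (hℓ0 x).ne')).const_mul _)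
  refine ge_of_tendsto (i1.add i2) ?_
  filter_upwards with n
  exact h (g n) (hg n) (hg0 n) ⟨p, q, hp, hgI n⟩

/-- the truncated density -/
lemma trunc {a : ℝ} (ha0 : 0 < a) (ha1 : a < 1) {ν : Measure V} [IsProbabilityMeasure ν] {B : Set V}
    (hB : MeasurableSet B) (hBν : ν Bᶜ = 0) {K : ℝ} (hK : 1 ≤ K) :
    ∃ ℓ : V → ℝ, Measurable ℓ ∧ (∀ x, ℓ x ∈ Icc K⁻¹ K) ∧
      Φ a B ν ℓ ≤ (∫⁻ x, (ν.rnDeriv volume x) ^ a) +
        (ENNReal.ofReal (2 * K ^ (a - 1)) + ENNReal.ofReal (K ^ (-a)) * volume B) := by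
  obtain ⟨s, hs, hs1, hs2⟩ := Measure.mutuallySingular_singularPart ν (volume : Measure V)
  have hK0 : 0 < K := by linarith
  have hKi : K⁻¹ ≤ K := (inv_le_one_of_one_le₀ hK).trans hK
  classical
  set ρ := ν.rnDeriv (volume : Measure V) with hρ
  have hρm : Measurable ρ := Measure.measurable_rnDeriv _ _
  set ℓ : V → ℝ := s.piecewise (fun x => max K⁻¹ (min (ρ x).toReal K)) (fun _ => K) with hℓ
  have hℓm : Measurable ℓ := by
    refine Measurable.piecewise hs ?_ measurable_const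
    exact measurable_const.max (hρm.ennreal_toReal.min measurable_const)
  have hℓI : ∀ x, ℓ x ∈ Icc K⁻¹ K := by
    intro x
    by_cases hx : x ∈ s
    · rw [hℓ, piecewise_eq_of_mem _ _ _ hx]
      exact ⟨le_max_left _ _, max_le hKi (min_le_right _ _)⟩
    · rw [hℓ, piecewise_eq_of_notMem _ _ _ hx]
      exact ⟨hKi, le_rfl⟩
  refine ⟨ℓ, hℓm, hℓI, ?_⟩
  have hℓ0 : ∀ x, 0 < ℓ x := fun x => (inv_pos.2 hK0).trans_le (hℓI x).1
  have hF : Measurable fun x => ENNReal.ofReal (a * ℓ x ^ (a - 1)) := by fun_prop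
  -- pointwise estimates on `s`
  have hKa : 0 ≤ K ^ (a - 1) := Real.rpow_nonneg hK0.le _
  have hKb : 0 ≤ K ^ (-a) := Real.rpow_nonneg hK0.le _
  have p1 : ∀ r : ℝ, 0 ≤ r → (max K⁻¹ (min r K)) ^ a ≤ r ^ a + K ^ (-a) := by
    intro r hr
    have hra := Real.rpow_nonneg hr a
    rcases le_total K⁻¹ (min r K) with h | h
    · rw [max_eq_right h]
      have : (min r K) ^ a ≤ r ^ a := Real.rpow_le_rpow (le_min hr hK0.le) (min_le_left _ _) ha0.le
      linarith
    · rw [max_eq_left h, Real.inv_rpow hK0.le, ← Real.rpow_neg hK0.le]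
      linarith
  have p2 : ∀ r : ℝ, 0 ≤ r → (max K⁻¹ (min r K)) ^ (a - 1) * r ≤
      r ^ a + K ^ (a - 1) * r + K ^ (-a) := by
    intro r hr
    have hra := Real.rpow_nonneg hr a
    have hKr : 0 ≤ K ^ (a - 1) * r := mul_nonneg hKa hr
    rcases le_total K r with h | h
    · rw [min_eq_right h, max_eq_right hKi]
      linarith
    · rw [min_eq_left h]
      rcases le_total K⁻¹ r with h' | h'
      · rw [max_eq_right h']
        have hr0 : 0 < r := (inv_pos.2 hK0).trans_le h'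
        have e : r ^ (a - 1) * r = r ^ a := by
          conv_lhs => rw [← Real.rpow_one r, ← Real.rpow_mul hr, one_mul, ← Real.rpow_add hr0]
          congr 1
          ring
        rw [e]
        linarith
      · rw [max_eq_left h']
        have e1 : (K⁻¹) ^ (a - 1) * r ≤ (K⁻¹) ^ (a - 1) * K⁻¹ :=
          mul_le_mul_of_nonneg_left h' (Real.rpow_nonneg (inv_nonneg.2 hK0.le) _)
        have e2 : (K⁻¹) ^ (a - 1) * K⁻¹ = K ^ (-a) := by
          have hKi0 : 0 < K⁻¹ := inv_pos.2 hK0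
          rw [Real.rpow_neg hK0.le, ← Real.inv_rpow hK0.le]
          conv_lhs => rw [← Real.rpow_one K⁻¹, ← Real.rpow_mul hKi0.le, one_mul,
            ← Real.rpow_add hKi0]
          congr 1
          ring
        linarith
  -- the singular part
  have q1 : ∫⁻ x, ENNReal.ofReal (a * ℓ x ^ (a - 1)) ∂(ν.singularPart volume) ≤
      ENNReal.ofReal (K ^ (a - 1)) := by
    have e1 : ∀ᵐ x ∂(ν.singularPart volume), ENNReal.ofReal (a * ℓ x ^ (a - 1)) ≤
        ENNReal.ofReal (K ^ (a - 1)) := by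
      have e2 : ∀ᵐ x ∂(ν.singularPart volume), x ∉ s := by
        rw [ae_iff]
        simpa using hs1
      filter_upwards [e2] with x hx
      apply ENNReal.ofReal_le_ofReal
      rw [hℓ, piecewise_eq_of_notMem _ _ _ hx]
      nlinarith
    calc ∫⁻ x, ENNReal.ofReal (a * ℓ x ^ (a - 1)) ∂(ν.singularPart volume)
        ≤ ∫⁻ _x, ENNReal.ofReal (K ^ (a - 1)) ∂(ν.singularPart volume) := lintegral_mono_ae e1
      _ = ENNReal.ofReal (K ^ (a - 1)) * (ν.singularPart volume) univ := lintegral_const _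
      _ ≤ ENNReal.ofReal (K ^ (a - 1)) * 1 := by
          gcongr
          exact (Measure.singularPart_le ν volume univ).trans prob_le_one
      _ = _ := mul_one _
  have hsae : ∀ᵐ x : V, x ∈ s := by
    rw [ae_iff]
    exact hs2
  have hρae : ∀ᵐ x : V, ρ x < ⊤ := Measure.rnDeriv_lt_top ν volume
  have hρB : ∫⁻ x in B, ρ x ≤ 1 := (Measure.setLIntegral_rnDeriv_le B).trans prob_le_one
  -- the absolutely continuous part
  have q2 : ∫⁻ x in B, ENNReal.ofReal (a * ℓ x ^ (a - 1)) * ρ x ≤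
      ENNReal.ofReal a * ((∫⁻ x in B, ρ x ^ a) + (ENNReal.ofReal (K ^ (a - 1)) +
        ENNReal.ofReal (K ^ (-a)) * volume B)) := by
    have e1 : ∀ᵐ x : V, ENNReal.ofReal (a * ℓ x ^ (a - 1)) * ρ x ≤ ENNReal.ofReal a *
        (ρ x ^ a + (ENNReal.ofReal (K ^ (a - 1)) * ρ x + ENNReal.ofReal (K ^ (-a)))) := by
      filter_upwards [hsae, hρae] with x hx hx'
      have e2 : ρ x = ENNReal.ofReal (ρ x).toReal := (ENNReal.ofReal_toReal hx'.ne).symm
      have e3 : ℓ x = max K⁻¹ (min (ρ x).toReal K) := by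
        rw [hℓ, piecewise_eq_of_mem _ _ _ hx]
      set r := (ρ x).toReal
      have hr : 0 ≤ r := ENNReal.toReal_nonneg
      have hra := Real.rpow_nonneg hr a
      have e4 : 0 ≤ a * max K⁻¹ (min r K) ^ (a - 1) := by
        rw [← e3]
        exact mul_nonneg ha0.le (Real.rpow_nonneg (hℓ0 x).le _)
      rw [e3, e2, ENNReal.ofReal_rpow_of_nonneg hr ha0.le, ← ENNReal.ofReal_mul hKa,
        ← ENNReal.ofReal_add (mul_nonneg hKa hr) hKb, ← ENNReal.ofReal_add hra
          (add_nonneg (mul_nonneg hKa hr) hKb), ← ENNReal.ofReal_mul ha0.le,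
        ← ENNReal.ofReal_mul e4]
      apply ENNReal.ofReal_le_ofReal
      have := mul_le_mul_of_nonneg_left (p2 r hr) ha0.le
      linarith
    calc ∫⁻ x in B, ENNReal.ofReal (a * ℓ x ^ (a - 1)) * ρ x
        ≤ ∫⁻ x in B, ENNReal.ofReal a *
        (ρ x ^ a + (ENNReal.ofReal (K ^ (a - 1)) * ρ x + ENNReal.ofReal (K ^ (-a)))) :=
          lintegral_mono_ae (ae_restrict_of_ae e1)
      _ = ENNReal.ofReal a * ((∫⁻ x in B, ρ x ^ a) + (ENNReal.ofReal (K ^ (a - 1)) *
          (∫⁻ x in B, ρ x) + ENNReal.ofReal (K ^ (-a)) * volume B)) := by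
          rw [lintegral_const_mul _ (by fun_prop), lintegral_add_left (by fun_prop),
            lintegral_add_left (by fun_prop), lintegral_const_mul _ hρm, setLIntegral_const]
      _ ≤ _ := by
          gcongr
          calc ENNReal.ofReal (K ^ (a - 1)) * (∫⁻ x in B, ρ x) ≤ ENNReal.ofReal (K ^ (a - 1)) * 1 := by
                gcongr
            _ = _ := mul_one _
  have q3 : ∫⁻ x in B, ENNReal.ofReal ((1 - a) * ℓ x ^ a) ≤
      ENNReal.ofReal (1 - a) * ((∫⁻ x in B, ρ x ^ a) + ENNReal.ofReal (K ^ (-a)) * volume B) := by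
    have e1 : ∀ᵐ x : V, ENNReal.ofReal ((1 - a) * ℓ x ^ a) ≤ ENNReal.ofReal (1 - a) *
        (ρ x ^ a + ENNReal.ofReal (K ^ (-a))) := by
      filter_upwards [hsae, hρae] with x hx hx'
      have e2 : ρ x = ENNReal.ofReal (ρ x).toReal := (ENNReal.ofReal_toReal hx'.ne).symm
      have e3 : ℓ x = max K⁻¹ (min (ρ x).toReal K) := by
        rw [hℓ, piecewise_eq_of_mem _ _ _ hx]
      set r := (ρ x).toReal
      have hr : 0 ≤ r := ENNReal.toReal_nonneg
      have hra := Real.rpow_nonneg hr a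
      rw [e3, e2, ENNReal.ofReal_rpow_of_nonneg hr ha0.le, ← ENNReal.ofReal_add hra hKb,
        ← ENNReal.ofReal_mul (by linarith)]
      apply ENNReal.ofReal_le_ofReal
      exact mul_le_mul_of_nonneg_left (p1 r hr) (by linarith)
    calc ∫⁻ x in B, ENNReal.ofReal ((1 - a) * ℓ x ^ a)
        ≤ ∫⁻ x in B, ENNReal.ofReal (1 - a) * (ρ x ^ a + ENNReal.ofReal (K ^ (-a))) :=
          lintegral_mono_ae (ae_restrict_of_ae e1)
      _ = _ := by
          rw [lintegral_const_mul _ (by fun_prop), lintegral_add_left (by fun_prop),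
            setLIntegral_const]
  -- decomposition of the measure
  have q4 : ∫⁻ x, ENNReal.ofReal (a * ℓ x ^ (a - 1)) ∂ν =
      (∫⁻ x, ENNReal.ofReal (a * ℓ x ^ (a - 1)) ∂(ν.singularPart volume)) +
        ∫⁻ x in B, ENNReal.ofReal (a * ℓ x ^ (a - 1)) * ρ x := by
    conv_lhs => rw [Measure.haveLebesgueDecomposition_add ν volume]
    rw [lintegral_add_measure, lintegral_withDensity_eq_lintegral_mul _ hρm hF]
    congr 1
    rw [← lint_B hB hBν (F := fun x => ENNReal.ofReal (a * ℓ x ^ (a - 1)) * ρ x) fun x hx => by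
      rw [hρ, hx, mul_zero]]
    exact lintegral_congr fun x => mul_comm _ _
  have q5 : ∫⁻ x, ρ x ^ a = ∫⁻ x in B, ρ x ^ a :=
    lint_B hB hBν (F := fun x => ρ x ^ a) fun x hx => by
      rw [hρ, hx, ENNReal.zero_rpow_of_pos ha0]
  unfold Φ
  rw [q4, q5]
  set I := ∫⁻ x in B, ρ x ^ a
  set M := volume B
  have r1 : ENNReal.ofReal a + ENNReal.ofReal (1 - a) = 1 := by
    rw [← ENNReal.ofReal_add ha0.le (by linarith)]
    simp
  have r2 : ENNReal.ofReal a ≤ 1 := by
    rw [← r1]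
    exact le_self_add
  calc _ ≤ ENNReal.ofReal (K ^ (a - 1)) + ENNReal.ofReal a * (I + (ENNReal.ofReal (K ^ (a - 1)) +
        ENNReal.ofReal (K ^ (-a)) * M)) + ENNReal.ofReal (1 - a) *
          (I + ENNReal.ofReal (K ^ (-a)) * M) := add_le_add (add_le_add q1 q2) q3
    _ = ENNReal.ofReal (K ^ (a - 1)) + ENNReal.ofReal a * ENNReal.ofReal (K ^ (a - 1)) +
        (ENNReal.ofReal a + ENNReal.ofReal (1 - a)) * (I + ENNReal.ofReal (K ^ (-a)) * M) := by
        ring
    _ ≤ ENNReal.ofReal (K ^ (a - 1)) + 1 * ENNReal.ofReal (K ^ (a - 1)) +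
        1 * (I + ENNReal.ofReal (K ^ (-a)) * M) := by
        rw [r1]
        gcongr
    _ = I + (ENNReal.ofReal (2 * K ^ (a - 1)) + ENNReal.ofReal (K ^ (-a)) * M) := by
        rw [ENNReal.ofReal_mul (by norm_num)]
        simp only [ENNReal.ofReal_ofNat]
        ring

end UscL

open UscL in
theorem usc : S_USC := by
  intro R hR μ ν hμ hν hμB hνB hconv N hN c hc
  set B : Set V := closedBall 0 R with hBd
  have hB : MeasurableSet B := isClosed_closedBall.measurableSet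
  have hBf : volume B ≠ ⊤ := measure_closedBall_lt_top.ne
  set a : ℝ := 1 - 1 / N with ha
  have hN0 : 0 < N := by linarith
  have ha0 : 0 < a := by
    rw [ha, sub_pos, div_lt_one hN0]
    exact hN
  have ha1 : a < 1 := by
    rw [ha]
    have : 0 < 1 / N := by positivity
    linarith
  have h1 : ∀ g : V → ℝ, Continuous g → (∀ x, 0 < g x) → (∃ p q, 0 < p ∧ ∀ x, g x ∈ Icc p q) →
      c ≤ Φ a B ν g := by
    rintro g hg hg0 ⟨p, q, hp, hpq⟩
    have hcont : Continuous fun x => a * g x ^ (a - 1) :=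
      continuous_const.mul (hg.rpow_const fun x => Or.inl (hg0 x).ne')
    have hnn : ∀ x, 0 ≤ a * g x ^ (a - 1) := fun x =>
      mul_nonneg ha0.le (Real.rpow_nonneg (hg0 x).le _)
    have hint : ∀ (κ : Measure V) [IsFiniteMeasure κ], Integrable (fun x => a * g x ^ (a - 1)) κ := by
      intro κ _
      refine Integrable.of_bound (C := a * p ^ (a - 1)) hcont.aestronglyMeasurable ?_
      filter_upwards with x
      rw [Real.norm_eq_abs, abs_of_nonneg (hnn x)]
      exact mul_le_mul_of_nonneg_left (Real.rpow_le_rpow_of_nonpos hp (hpq x).1 (by linarith)) ha0.le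
    have hlim := hconv _ hcont
    have hlim2 : Tendsto (fun k => Φ a B (μ k) g) atTop (𝓝 (Φ a B ν g)) := by
      unfold Φ
      refine Tendsto.add ?_ tendsto_const_nhds
      have e : ∀ (κ : Measure V) [IsFiniteMeasure κ], ∫⁻ x, ENNReal.ofReal (a * g x ^ (a - 1)) ∂κ =
          ENNReal.ofReal (∫ x, a * g x ^ (a - 1) ∂κ) := by
        intro κ _
        rw [ofReal_integral_eq_lintegral_ofReal (hint κ)]
        filter_upwards with x
        exact hnn x
      rw [e ν]
      have e2 : (fun k => ∫⁻ x, ENNReal.ofReal (a * g x ^ (a - 1)) ∂(μ k)) = fun k =>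
          ENNReal.ofReal (∫ x, a * g x ^ (a - 1) ∂(μ k)) := funext fun k => e (μ k)
      rw [e2]
      exact ENNReal.tendsto_ofReal hlim
    refine ge_of_tendsto hlim2 ?_
    filter_upwards with k
    exact (hc k).trans (upper ha0 ha1 hB (hμB k) hg.measurable hg0)
  have h2 : ∀ n : ℕ, c ≤ (∫⁻ x, (ν.rnDeriv volume x) ^ a) +
      (ENNReal.ofReal (2 * ((n : ℝ) + 1) ^ (a - 1)) +
        ENNReal.ofReal (((n : ℝ) + 1) ^ (-a)) * volume B) := by
    intro n
    have hK : (1 : ℝ) ≤ (n : ℝ) + 1 := by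
      have : (0 : ℝ) ≤ n := Nat.cast_nonneg n
      linarith
    obtain ⟨ℓ, hℓ, hℓI, hℓΦ⟩ := trunc ha0 ha1 hB hνB hK
    exact (pass ha0 ha1 hBf h1 hℓ (inv_pos.2 (by linarith)) hℓI).trans hℓΦ
  have t0 : Tendsto (fun n : ℕ => (n : ℝ) + 1) atTop atTop :=
    tendsto_atTop_add_const_right _ _ tendsto_natCast_atTop_atTop
  have t1 : Tendsto (fun n : ℕ => ENNReal.ofReal (2 * ((n : ℝ) + 1) ^ (a - 1))) atTop (𝓝 0) := by
    have h3 := ((tendsto_rpow_neg_atTop (y := 1 - a) (by linarith)).comp t0).const_mul 2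
    rw [mul_zero] at h3
    rw [← ENNReal.ofReal_zero]
    refine ENNReal.tendsto_ofReal ?_
    have e : (fun n : ℕ => 2 * ((n : ℝ) + 1) ^ (a - 1)) = fun n : ℕ =>
        2 * ((fun x : ℝ => x ^ (-(1 - a))) ∘ fun n : ℕ => (n : ℝ) + 1) n := by
      funext n
      simp only [Function.comp, neg_sub]
    rw [e]
    exact h3
  have t2 : Tendsto (fun n : ℕ => ENNReal.ofReal (((n : ℝ) + 1) ^ (-a)) * volume B) atTop (𝓝 0) := by
    have h3 := (tendsto_rpow_neg_atTop (y := a) ha0).comp t0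
    have h4 : Tendsto (fun n : ℕ => ENNReal.ofReal (((n : ℝ) + 1) ^ (-a))) atTop (𝓝 0) := by
      rw [← ENNReal.ofReal_zero]
      exact ENNReal.tendsto_ofReal h3
    have h5 := ENNReal.Tendsto.mul_const h4 (b := volume B) (Or.inr hBf)
    rwa [zero_mul] at h5
  have t3 := (tendsto_const_nhds (x := ∫⁻ x, (ν.rnDeriv volume x) ^ a) (f := (atTop : Filter ℕ))).add
    (t1.add t2)
  rw [add_zero, add_zero] at t3
  refine ge_of_tendsto t3 ?_
  filter_upwards with n
  exact h2 n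

end Pool.Agent.Helper76K9.CL
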